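import Pool.Agent.H519_UE.ModThm

/-!
# The theorem for affine families with commuting automorphisms
-/

set_option linter.all false

namespace Pool.Agent.H519_UE

open scoped BigOperators

section ring

variable {Ω : Type} [AddCommGroup Ω] (S : Set (AddMonoid.End Ω))

/-- the commutative ring generated, in the double centralizer sense, by a commuting set -/
abbrev CRing : Type := ↥(Subring.center ↥(Subring.centralizer S))

/-- a member of a commuting set as an element of the ring -/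
def toC (hS : ∀ f ∈ S, ∀ g ∈ S, f * g = g * f) (f : AddMonoid.End Ω) (hf : f ∈ S) : CRing S :=
  ⟨⟨f, by
    rw [Subring.mem_centralizer_iff]
    intro g hg
    exact hS g hg f hf⟩, by
    rw [Subring.mem_center_iff]
    rintro ⟨g, hg⟩
    apply Subtype.ext
    show g * f = f * g
    rw [Subring.mem_centralizer_iff] at hg
    exact (hg f hf).symm⟩

lemma toC_smul (hS : ∀ f ∈ S, ∀ g ∈ S, f * g = g * f) (f : AddMonoid.End Ω) (hf : f ∈ S) (x : Ω) :
    toC S hS f hf • x = f x := rfl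

lemma toC_isUnit [Finite Ω] (hS : ∀ f ∈ S, ∀ g ∈ S, f * g = g * f) (f : AddMonoid.End Ω)
    (hf : f ∈ S) (hinj : Function.Injective f) : IsUnit (toC S hS f hf) := by
  haveI : Finite (AddMonoid.End Ω) := DFunLike.finite _
  haveI : Finite (CRing S) := Subtype.finite
  apply IsLeftRegular.isUnit_of_finite
  intro x y hxy
  apply Subtype.ext
  apply Subtype.ext
  apply AddMonoidHom.ext
  intro z
  have h1 : ((toC S hS f hf * x : CRing S) : ↥(Subring.centralizer S)) =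
    ((toC S hS f hf * y : CRing S) : ↥(Subring.centralizer S)) := congrArg Subtype.val hxy
  have h2 : (((toC S hS f hf * x : CRing S) : ↥(Subring.centralizer S)) : AddMonoid.End Ω) =
    (((toC S hS f hf * y : CRing S) : ↥(Subring.centralizer S)) : AddMonoid.End Ω) :=
    congrArg Subtype.val h1
  have h3 := DFunLike.congr_fun h2 z
  exact hinj h3

end ring

theorem affine_main {l : ℕ} (hl : 1 ≤ l) {Ω : Type} [Fintype Ω] [DecidableEq Ω]
    {π : Con (l + 2) Ω → ℝ} (hπ0 : ∀ ψ, 0 ≤ π ψ) (hπ1 : ∑ ψ, π ψ = 1)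
    (haff : AffineFam {ψ | π ψ ≠ 0}) {ε δ η : ℝ} (hε : 0 < ε) (hδ : 0 < δ) (hη : 0 < η) :
    ∃ N : ℕ, ∀ n, N ≤ n → ∀ m : ℕ, (m : ℝ) < (dk (l + 2) / ((l + 2 : ℕ) : ℝ) - ε) * n →
      1 - η ≤ Pr π n m (fun H => (Sol H).Nonempty ∧ ∀ σ s : Ω,
        |pairProb H σ s - 1 / (Fintype.card Ω : ℝ) ^ 2| ≤ δ) := by
  classical
  obtain ⟨inst, A, c, hcomm, hsol⟩ := haff
  set A' : Con (l + 2) Ω → Fin (l + 2) → AddMonoid.End Ω := fun ψ i =>
    if π ψ ≠ 0 then (A ψ i).toAddMonoidHom else 1 with hA'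
  have hA1 : ∀ ψ, π ψ ≠ 0 → ∀ i, A' ψ i = (A ψ i).toAddMonoidHom := by
    intro ψ hψ i
    rw [hA']
    simp only
    rw [if_pos hψ]
  have hA0 : ∀ ψ, ¬ π ψ ≠ 0 → ∀ i, A' ψ i = 1 := by
    intro ψ hψ i
    rw [hA']
    simp only
    rw [if_neg hψ]
  set S : Set (AddMonoid.End Ω) := {f | ∃ ψ i, f = A' ψ i} with hSdef
  have hS : ∀ f ∈ S, ∀ g ∈ S, f * g = g * f := by
    rintro f ⟨ψ, i, rfl⟩ g ⟨ψ', i', rfl⟩
    by_cases h : π ψ ≠ 0
    · by_cases h' : π ψ' ≠ 0
      · rw [hA1 ψ h, hA1 ψ' h']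
        apply AddMonoidHom.ext
        intro x
        exact hcomm ψ h ψ' h' i i' x
      · rw [hA0 ψ' h', mul_one, one_mul]
    · rw [hA0 ψ h, mul_one, one_mul]
  have hmem : ∀ ψ i, A' ψ i ∈ S := fun ψ i => ⟨ψ, i, rfl⟩
  have hinj : ∀ ψ i, Function.Injective (A' ψ i) := by
    intro ψ i
    by_cases h : π ψ ≠ 0
    · rw [hA1 ψ h]
      exact (A ψ i).injective
    · rw [hA0 ψ h]
      exact fun x y hxy => hxy
  haveI : Finite (AddMonoid.End Ω) := DFunLike.finite _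
  haveI : Finite (CRing S) := Subtype.finite
  refine module_main (Λ := CRing S) (a := fun ψ i => toC S hS (A' ψ i) (hmem ψ i)) (c := c)
    hl hπ0 hπ1 (fun ψ i => toC_isUnit S hS _ _ (hinj ψ i)) ?_ hε hδ hη
  intro ψ hψ x
  rw [hsol ψ hψ x]
  have : ∀ i, toC S hS (A' ψ i) (hmem ψ i) • x i = A ψ i (x i) := by
    intro i
    rw [toC_smul, hA1 ψ hψ]
    rfl
  simp only [this]

end Pool.Agent.H519_UE
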