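import Pool.Agent.H519_UE.WR

/-!
# Expansion into finite sums, and transfer to rows with distinct variables
-/

set_option linter.all false

namespace Pool.Agent.H519_UE

open scoped BigOperators
open Filter Topology

variable {F : Type*} [Field F]

lemma Av_pow_apply {ι : Type*} [Fintype ι] (c : ι → ℝ) (v : ι → (ℕ →₀ F)) (m : ℕ) (φ : Fn F)
    (R : FSub F) :
    (Av c v ^ m) φ R = ∑ s : Fin m → ι, (∏ j, c (s j)) * φ (R.addF (fun j => v (s j))) := by
  induction m generalizing φ R with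
  | zero =>
    simp only [pow_zero, Module.End.one_apply, Fintype.sum_unique, Finset.univ_eq_empty,
      Finset.prod_empty, one_mul]
    rw [FSub.addF_empty]
  | succ m ih =>
    rw [pow_succ, Module.End.mul_apply, ih, sum_insertNth 0]
    apply Finset.sum_congr rfl
    intro s _
    rw [Av_apply, Finset.mul_sum]
    apply Finset.sum_congr rfl
    intro x _
    rw [addF_insertNth (α := ι) R v 0 x s]
    have : ∏ j, c ((Fin.insertNth 0 x s : Fin (m + 1) → ι) j) = c x * ∏ j, c (s j) := by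
      rw [Fin.prod_univ_succAbove _ 0]
      simp only [Fin.insertNth_apply_same, Fin.insertNth_apply_succAbove]
    rw [this]
    ring

section rows

variable {l : ℕ} {τ : Type*} [Fintype τ] {π : τ → ℝ} {a : τ → Fin (l + 2) → F}
  (hπ0 : ∀ t, 0 ≤ π t) (hπ1 : ∑ t, π t = 1) (ha : ∀ t i, a t i ≠ 0)

variable (a) in
/-- the row vector of a typed tuple of variables -/
noncomputable def rowv {n : ℕ} (x : τ × (Fin (l + 2) → Fin n)) : ℕ →₀ F :=
  ∑ j, a x.1 j • e (x.2 j : ℕ)

variable (π) in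
/-- weight of a typed tuple, variables drawn with replacement -/
noncomputable def cw (l n : ℕ) (x : τ × (Fin (l + 2) → Fin n)) : ℝ :=
  π x.1 * (1 / (n : ℝ) ^ (l + 2))

lemma W_eq_Av (n : ℕ) : W π a n = Av (cw π l n) (rowv a) := by
  apply LinearMap.ext; intro φ; funext R
  rw [W_apply, Av_apply, Fintype.sum_prod_type]
  refine Finset.sum_congr rfl fun t _ => ?_
  rw [Wc_apply, Finset.mul_sum]
  refine Finset.sum_congr rfl fun u _ => ?_
  unfold cw rowv
  ring

lemma W_pow_apply (n m : ℕ) (φ : Fn F) (R : FSub F) :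
    (W π a n ^ m) φ R = ∑ s : Fin m → τ × (Fin (l + 2) → Fin n), (∏ j, cw π l n (s j)) *
      φ (R.addF (fun j => rowv a (s j))) := by
  rw [W_eq_Av, Av_pow_apply]

include hπ0 in
lemma cw_nonneg (n : ℕ) (x : τ × (Fin (l + 2) → Fin n)) : 0 ≤ cw π l n x :=
  mul_nonneg (hπ0 _) (by positivity)

lemma rin_eq (n : ℕ) (R : FSub F) :
    rin π a n R = ∑ x : τ × (Fin (l + 2) → Fin n), cw π l n x * ind (rowv a x) R := by
  rw [Fintype.sum_prod_type]
  unfold rin
  refine Finset.sum_congr rfl fun t _ => ?_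
  rw [Finset.mul_sum]
  refine Finset.sum_congr rfl fun u _ => ?_
  unfold cw rowv
  ring

/-! ### instances with distinct variables -/

/-- weight of a typed tuple of distinct variables -/
noncomputable def dw (π : τ → ℝ) (k n : ℕ) (x : τ × (Fin k ↪ Fin n)) : ℝ :=
  π x.1 / (Fintype.card (Fin k ↪ Fin n) : ℝ)

/-- forget distinctness -/
def fgt {k n : ℕ} (x : τ × (Fin k ↪ Fin n)) : τ × (Fin k → Fin n) := (x.1, x.2)

lemma fgt_injective {k n : ℕ} : Function.Injective (fgt (τ := τ) (k := k) (n := n)) := by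
  rintro ⟨t, u⟩ ⟨t', u'⟩ h
  simp only [fgt, Prod.mk.injEq] at h
  exact Prod.ext h.1 (DFunLike.coe_injective h.2)

/-- ratio between the two models -/
noncomputable def rat (l n : ℕ) : ℝ := (n : ℝ) ^ (l + 2) / (n.descFactorial (l + 2) : ℝ)

lemma card_emb (k n : ℕ) : Fintype.card (Fin k ↪ Fin n) = n.descFactorial k := by
  rw [Fintype.card_embedding_eq]; simp

lemma dw_eq {n : ℕ} (hn : l + 2 ≤ n) (x : τ × (Fin (l + 2) ↪ Fin n)) :
    dw π (l + 2) n x = rat l n * cw π l n (fgt x) := by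
  unfold dw rat cw fgt
  rw [card_emb]
  have h1 : (n.descFactorial (l + 2) : ℝ) ≠ 0 := by
    have := Nat.descFactorial_pos.mpr hn
    positivity
  have h2 : (n : ℝ) ≠ 0 := by
    have : 0 < n := by omega
    positivity
  field_simp

include hπ0 in
/-- comparison of the two models -/
lemma transfer {n : ℕ} (hn : l + 2 ≤ n) (m : ℕ)
    (G : (Fin m → τ × (Fin (l + 2) → Fin n)) → ℝ) (hG : ∀ s, 0 ≤ G s) :
    ∑ H : Fin m → τ × (Fin (l + 2) ↪ Fin n), (∏ j, dw π (l + 2) n (H j)) * G (fun j => fgt (H j))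
      ≤ rat l n ^ m * ∑ s, (∏ j, cw π l n (s j)) * G s := by
  classical
  have h1 : ∀ H : Fin m → τ × (Fin (l + 2) ↪ Fin n),
      (∏ j, dw π (l + 2) n (H j)) * G (fun j => fgt (H j))
      = rat l n ^ m * ((∏ j, cw π l n (fgt (H j))) * G (fun j => fgt (H j))) := by
    intro H
    simp only [dw_eq hn]
    rw [Finset.prod_mul_distrib]
    simp only [Finset.prod_const, Finset.card_univ, Fintype.card_fin]
    ring
  have hr : 0 ≤ rat l n := by unfold rat; positivity
  rw [Finset.sum_congr rfl fun H _ => h1 H, ← Finset.mul_sum]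
  apply mul_le_mul_of_nonneg_left _ (pow_nonneg hr _)
  have hinj : Function.Injective (fun (H : Fin m → τ × (Fin (l + 2) ↪ Fin n)) (j : Fin m) =>
      fgt (H j)) := by
    intro H H' h
    funext j
    exact fgt_injective (congrFun h j)
  have h2 : ∑ H : Fin m → τ × (Fin (l + 2) ↪ Fin n),
      (∏ j, cw π l n (fgt (H j))) * G (fun j => fgt (H j))
      = ∑ s ∈ Finset.univ.map ⟨_, hinj⟩, (∏ j, cw π l n (s j)) * G s := by
    rw [Finset.sum_map]; rfl
  rw [h2]
  exact Finset.sum_le_sum_of_subset_of_nonneg (Finset.subset_univ _)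
    fun s _ _ => mul_nonneg (Finset.prod_nonneg fun j _ => cw_nonneg hπ0 n _) (hG s)

/-- the ratio is bounded -/
lemma rat_pow_le {n m : ℕ} (hn : 2 * (l + 2) ≤ n) (hm : m ≤ n) :
    rat l n ^ m ≤ Real.exp (2 * ((l : ℝ) + 2) ^ 2) := by
  have hn0 : (0 : ℝ) < n := by
    have : 0 < n := by omega
    exact_mod_cast this
  have hK : (0 : ℝ) < (l : ℝ) + 2 := by positivity
  have hnK : (0 : ℝ) < (n : ℝ) - (l + 2) := by
    have : ((2 * (l + 2) : ℕ) : ℝ) ≤ n := by exact_mod_cast hn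
    push_cast at this
    linarith
  have h1 : ((n : ℝ) - (l + 2)) ^ (l + 2) ≤ (n.descFactorial (l + 2) : ℝ) := by
    have h2 := Nat.pow_sub_le_descFactorial n (l + 2)
    have h3 : (((n + 1 - (l + 2)) ^ (l + 2) : ℕ) : ℝ) ≤ (n.descFactorial (l + 2) : ℝ) := by
      exact_mod_cast h2
    refine le_trans ?_ h3
    rw [Nat.cast_pow, Nat.cast_sub (by omega)]
    apply pow_le_pow_left₀ hnK.le
    push_cast; linarith
  have h2 : rat l n ≤ Real.exp (2 * ((l : ℝ) + 2) ^ 2 / n) := by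
    unfold rat
    calc (n : ℝ) ^ (l + 2) / (n.descFactorial (l + 2) : ℝ)
        ≤ (n : ℝ) ^ (l + 2) / ((n : ℝ) - (l + 2)) ^ (l + 2) :=
          div_le_div_of_nonneg_left (by positivity) (by positivity) h1
      _ = (1 + (l + 2) / ((n : ℝ) - (l + 2))) ^ (l + 2) := by
          rw [← div_pow]; congr 1; field_simp; ring
      _ ≤ (Real.exp ((l + 2) / ((n : ℝ) - (l + 2)))) ^ (l + 2) := by
          apply pow_le_pow_left₀ (by positivity)
          have := Real.add_one_le_exp ((l + 2) / ((n : ℝ) - (l + 2)))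
          linarith
      _ = Real.exp ((l + 2 : ℕ) * ((l + 2) / ((n : ℝ) - (l + 2)))) := by rw [← Real.exp_nat_mul]
      _ ≤ Real.exp (2 * ((l : ℝ) + 2) ^ 2 / n) := by
          apply Real.exp_le_exp.mpr
          push_cast
          rw [← mul_div_assoc, div_le_div_iff₀ hnK hn0]
          have : ((2 * (l + 2) : ℕ) : ℝ) ≤ n := by exact_mod_cast hn
          push_cast at this
          nlinarith [mul_pos hK hK]
  have hr : 0 ≤ rat l n := by unfold rat; positivity
  calc rat l n ^ m ≤ (Real.exp (2 * ((l : ℝ) + 2) ^ 2 / n)) ^ m := pow_le_pow_left₀ hr h2 m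
    _ = Real.exp (m * (2 * ((l : ℝ) + 2) ^ 2 / n)) := by rw [← Real.exp_nat_mul]
    _ ≤ Real.exp (2 * ((l : ℝ) + 2) ^ 2) := by
        apply Real.exp_le_exp.mpr
        rw [← mul_div_assoc, div_le_iff₀ hn0]
        have : (m : ℝ) ≤ n := by exact_mod_cast hm
        nlinarith [mul_pos hK hK]

/-! ### products of probabilities -/

lemma sum_prod_fn {ι : Type*} [Fintype ι] {m : ℕ} (f : Fin m → ι → ℝ) :
    ∑ H : Fin m → ι, ∏ j, f j (H j) = ∏ j, ∑ x, f j x := by
  classical
  rw [Finset.prod_univ_sum]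
  simp [Fintype.piFinset_univ]

lemma dw_nonneg (hπ0 : ∀ t, 0 ≤ π t) (k n : ℕ) (x : τ × (Fin k ↪ Fin n)) : 0 ≤ dw π k n x :=
  div_nonneg (hπ0 _) (Nat.cast_nonneg _)

lemma dw_sum (hπ1 : ∑ t, π t = 1) {k n : ℕ} (h : k ≤ n) :
    ∑ x : τ × (Fin k ↪ Fin n), dw π k n x = 1 := by
  rw [Fintype.sum_prod_type]
  unfold dw
  have h1 : (Fintype.card (Fin k ↪ Fin n) : ℝ) ≠ 0 := by
    rw [card_emb]
    have := Nat.descFactorial_pos.mpr h
    positivity
  simp only [Finset.sum_const, Finset.card_univ, nsmul_eq_mul]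
  rw [← hπ1]
  refine Finset.sum_congr rfl fun t _ => ?_
  field_simp

lemma dw_total (hπ1 : ∑ t, π t = 1) {k n : ℕ} (h : k ≤ n) (m : ℕ) :
    ∑ H : Fin m → τ × (Fin k ↪ Fin n), ∏ j, dw π k n (H j) = 1 := by
  rw [sum_prod_fn (fun _ => dw π k n)]
  simp [dw_sum hπ1 h]

end rows

end Pool.Agent.H519_UE
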