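import Pool.Agent.H519_UE.Small

/-!
# The theorem over a field
-/

set_option linter.all false

namespace Pool.Agent.H519_UE

open scoped BigOperators
open Filter Topology

variable {F : Type*} [Field F]

section rows

variable {l : ℕ} {τ : Type*} [Fintype τ] {π : τ → ℝ} {a : τ → Fin (l + 2) → F}

variable (a) in
/-- the span of all rows of an instance -/
noncomputable def rowSpan {n m : ℕ} (H : Fin m → τ × (Fin (l + 2) → Fin n)) : FSub F :=
  FSub.zero.addF (fun j => rowv a (H j))

variable (a) in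
/-- row `j` lies in the span of the other rows -/
def InOthers {n m : ℕ} (H : Fin m → τ × (Fin (l + 2) → Fin n)) (j : Fin m) : Prop :=
  rowv a (H j) ∈ Submodule.span F (Set.range fun i : {i : Fin m // i ≠ j} => rowv a (H i.1))

lemma e_apply (i v : ℕ) : (e i : ℕ →₀ F) v = if i = v then 1 else 0 := by
  unfold e; rw [Finsupp.single_apply]

/-- coefficients of a row with distinct variables -/
lemma rowv_coeff {n : ℕ} (x : τ × (Fin (l + 2) ↪ Fin n)) (v : Fin n) :
    (∀ i, x.2 i = v → rowv a (fgt x) (v : ℕ) = a x.1 i) ∧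
    ((∀ i, x.2 i ≠ v) → rowv a (fgt x) (v : ℕ) = 0) := by
  have h : rowv a (fgt x) (v : ℕ) = ∑ j, a x.1 j * (if x.2 j = v then 1 else 0) := by
    unfold rowv fgt
    rw [Finsupp.finset_sum_apply]
    refine Finset.sum_congr rfl fun j _ => ?_
    rw [Finsupp.smul_apply, e_apply, smul_eq_mul]
    congr 1
    by_cases h : x.2 j = v
    · rw [if_pos h, if_pos (by show ((x.2 j : Fin n) : ℕ) = v; rw [h])]
    · rw [if_neg h, if_neg (fun h' => h (Fin.ext h'))]
  constructor
  · intro i hi
    rw [h, Finset.sum_eq_single i]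
    · rw [if_pos hi, mul_one]
    · intro j _ hj
      rw [if_neg, mul_zero]
      intro h2
      exact hj (x.2.injective (h2.trans hi.symm))
    · intro h2; exact absurd (Finset.mem_univ i) h2
  · intro hv
    rw [h]
    apply Finset.sum_eq_zero
    intro j _
    rw [if_neg (hv j), mul_zero]

/-- a nontrivial relation between the rows -/
lemma exists_rel {ι : Type*} [Fintype ι] [DecidableEq ι] (v : ι → (ℕ →₀ F)) (j : ι)
    (h : v j ∈ Submodule.span F (Set.range fun i : {i : ι // i ≠ j} => v i.1)) :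
    ∃ y : ι → F, y j ≠ 0 ∧ ∑ i, y i • v i = 0 := by
  rw [Submodule.mem_span_range_iff_exists_fun] at h
  obtain ⟨c, hc⟩ := h
  refine ⟨fun i => if hi : i = j then -1 else c ⟨i, hi⟩, by simp, ?_⟩
  rw [← Finset.add_sum_erase _ _ (Finset.mem_univ j)]
  have h1 : ∑ i ∈ Finset.univ.erase j, (if hi : i = j then (-1 : F) else c ⟨i, hi⟩) • v i
      = ∑ i : {i : ι // i ≠ j}, c i • v i.1 := by
    rw [Finset.sum_subtype (Finset.univ.erase j) (p := fun i => i ≠ j)
      (f := fun i => (if hi : i = j then (-1 : F) else c ⟨i, hi⟩) • v i) (by intro x; simp)]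
    refine Finset.sum_congr rfl fun i _ => ?_
    rw [dif_neg i.2]
  rw [h1, hc]
  simp

lemma mem_of_rel {ι : Type*} [Fintype ι] [DecidableEq ι] (v : ι → (ℕ →₀ F)) (y : ι → F)
    (hy : ∑ i, y i • v i = 0) (j : ι) (hj : y j ≠ 0) :
    v j ∈ Submodule.span F (Set.range fun i : {i : ι // i ≠ j} => v i.1) := by
  rw [← Finset.add_sum_erase _ _ (Finset.mem_univ j)] at hy
  have h1 : v j = (y j)⁻¹ • (- ∑ i ∈ Finset.univ.erase j, y i • v i) := by
    rw [eq_comm, inv_smul_eq_iff₀ hj]
    rw [neg_eq_iff_add_eq_zero, add_comm]; exact hy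
  rw [h1]
  apply Submodule.smul_mem
  apply Submodule.neg_mem
  apply Submodule.sum_mem
  intro i hi
  apply Submodule.smul_mem
  apply Submodule.subset_span
  exact ⟨⟨i, Finset.ne_of_mem_erase hi⟩, rfl⟩

open Classical in
/-- deterministic part: few dependent rows give a small bad set -/
lemma small_of_dep (ha : ∀ t i, a t i ≠ 0) {n m B : ℕ} (H : Fin m → τ × (Fin (l + 2) ↪ Fin n))
    (hdep : ∃ j, InOthers a (fun j => fgt (H j)) j)
    (hB : (Finset.univ.filter (fun j => InOthers a (fun j => fgt (H j)) j)).card ≤ B) :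
    SmallBad B H := by
  obtain ⟨j0, hj0⟩ := hdep
  obtain ⟨y, hyj, hy⟩ := exists_rel (fun j => rowv a (fgt (H j))) j0 hj0
  set C : Finset (Fin m) := Finset.univ.filter (fun j => y j ≠ 0) with hC
  refine ⟨C, ⟨j0, by simp [hC, hyj]⟩, ?_, ?_⟩
  · refine le_trans (Finset.card_le_card ?_) hB
    intro j hj
    rw [hC, Finset.mem_filter] at hj
    rw [Finset.mem_filter]
    exact ⟨Finset.mem_univ _, mem_of_rel (fun j => rowv a (fgt (H j))) y hy j hj.2⟩
  · -- double counting
    have h1 : ∀ j ∈ C, (Finset.univ.map (H j).2).card = l + 2 := by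
      intro j _; rw [Finset.card_map]; simp
    have hsub : ∀ j ∈ C, Finset.univ.map (H j).2 ⊆ cover H C := by
      intro j hj x hx
      unfold cover
      exact Finset.mem_biUnion.mpr ⟨j, hj, hx⟩
    have h2 : (l + 2) * C.card = ∑ v ∈ cover H C, (C.filter (fun j => v ∈ Finset.univ.map (H j).2)).card := by
      calc (l + 2) * C.card = ∑ j ∈ C, (l + 2) := by simp [mul_comm]
        _ = ∑ j ∈ C, (Finset.univ.map (H j).2).card := Finset.sum_congr rfl fun j hj => (h1 j hj).symm
        _ = ∑ j ∈ C, ((cover H C).filter (fun v => v ∈ Finset.univ.map (H j).2)).card := by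
            refine Finset.sum_congr rfl fun j hj => ?_
            congr 1
            ext v
            simp only [Finset.mem_filter]
            exact ⟨fun h => ⟨hsub j hj h, h⟩, fun h => h.2⟩
        _ = _ := by
            simp only [Finset.card_eq_sum_ones, Finset.sum_filter]
            rw [Finset.sum_comm]
    have h3 : ∀ v ∈ cover H C, 2 ≤ (C.filter (fun j => v ∈ Finset.univ.map (H j).2)).card := by
      intro v hv
      unfold cover at hv
      obtain ⟨j1, hj1, hv1⟩ := Finset.mem_biUnion.mp hv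
      by_contra hlt
      push Not at hlt
      have hone : C.filter (fun j => v ∈ Finset.univ.map (H j).2) = {j1} := by
        apply Finset.eq_singleton_iff_unique_mem.mpr
        refine ⟨Finset.mem_filter.mpr ⟨hj1, hv1⟩, fun j hj => ?_⟩
        have hcard : (C.filter (fun j => v ∈ Finset.univ.map (H j).2)).card ≤ 1 := by omega
        exact Finset.card_le_one.mp hcard j hj j1 (Finset.mem_filter.mpr ⟨hj1, hv1⟩)
      have hcoef := congrArg (fun z : ℕ →₀ F => z (v : ℕ)) hy
      simp only [Finsupp.coe_zero, Pi.zero_apply] at hcoef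
      rw [Finsupp.finset_sum_apply, Finset.sum_eq_single j1] at hcoef
      · rw [Finsupp.smul_apply, smul_eq_mul] at hcoef
        obtain ⟨i, _, hi⟩ := Finset.mem_map.mp hv1
        rw [(rowv_coeff (a := a) (H j1) v).1 i hi] at hcoef
        rcases mul_eq_zero.mp hcoef with h | h
        · rw [hC, Finset.mem_filter] at hj1
          exact hj1.2 h
        · exact ha _ _ h
      · intro j _ hj
        rw [Finsupp.smul_apply, smul_eq_mul]
        by_cases hyj : y j = 0
        · rw [hyj, zero_mul]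
        · have : v ∉ Finset.univ.map (H j).2 := by
            intro hmem
            have : j ∈ C.filter (fun j => v ∈ Finset.univ.map (H j).2) :=
              Finset.mem_filter.mpr ⟨Finset.mem_filter.mpr ⟨Finset.mem_univ _, hyj⟩, hmem⟩
            rw [hone] at this
            exact hj (Finset.mem_singleton.mp this)
          rw [(rowv_coeff (a := a) (H j) v).2, mul_zero]
          intro i hi
          exact this (Finset.mem_map.mpr ⟨i, Finset.mem_univ _, hi⟩)
      · intro h; exact absurd (Finset.mem_univ _) h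
    calc 2 * (cover H C).card = ∑ v ∈ cover H C, 2 := by simp [mul_comm]
      _ ≤ ∑ v ∈ cover H C, (C.filter (fun j => v ∈ Finset.univ.map (H j).2)).card :=
          Finset.sum_le_sum h3
      _ = (l + 2) * C.card := h2.symm

variable (hπ0 : ∀ t, 0 ≤ π t) (hπ1 : ∑ t, π t = 1) (ha : ∀ t i, a t i ≠ 0)

lemma addF_ne_eq {n m : ℕ} (s : Fin (m + 1) → τ × (Fin (l + 2) → Fin n)) (j : Fin (m + 1)) :
    Set.range (fun i : {i : Fin (m + 1) // i ≠ j} => rowv a (s i.1))
      = Set.range (fun i : Fin m => rowv a (s (j.succAbove i))) := by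
  ext x
  constructor
  · rintro ⟨⟨i, hi⟩, rfl⟩
    obtain ⟨i', rfl⟩ := Fin.exists_succAbove_eq hi
    exact ⟨i', rfl⟩
  · rintro ⟨i, rfl⟩
    exact ⟨⟨j.succAbove i, Fin.succAbove_ne j i⟩, rfl⟩

open Classical in
/-- expected number of rows in the span of the others, with replacement -/
lemma exp_inOthers (n m : ℕ) :
    ∑ s : Fin (m + 1) → τ × (Fin (l + 2) → Fin n), (∏ j, cw π l n (s j)) *
      ((Finset.univ.filter (fun j => InOthers a s j)).card : ℝ)
      = (m + 1) * (W π a n ^ m) (rin π a n) FSub.zero := by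
  have h1 : ∀ s : Fin (m + 1) → τ × (Fin (l + 2) → Fin n),
      ((Finset.univ.filter (fun j => InOthers a s j)).card : ℝ)
      = ∑ j, (if InOthers a s j then (1 : ℝ) else 0) := by
    intro s; rw [Finset.card_filter]; push_cast; rfl
  simp only [h1, Finset.mul_sum]
  rw [Finset.sum_comm]
  have h2 : ∀ j : Fin (m + 1), ∑ s : Fin (m + 1) → τ × (Fin (l + 2) → Fin n),
      (∏ j, cw π l n (s j)) * (if InOthers a s j then (1 : ℝ) else 0)
      = (W π a n ^ m) (rin π a n) FSub.zero := by
    intro j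
    rw [sum_insertNth j, W_pow_apply]
    refine Finset.sum_congr rfl fun s _ => ?_
    rw [rin_eq, Finset.mul_sum]
    refine Finset.sum_congr rfl fun x _ => ?_
    have h3 : ∏ i, cw π l n ((Fin.insertNth j x s : Fin (m + 1) → τ × (Fin (l + 2) → Fin n)) i)
        = cw π l n x * ∏ i, cw π l n (s i) := by
      rw [Fin.prod_univ_succAbove _ j]
      simp only [Fin.insertNth_apply_same, Fin.insertNth_apply_succAbove]
    have h4 : (if InOthers a (Fin.insertNth j x s : Fin (m + 1) → τ × (Fin (l + 2) → Fin n)) j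
        then (1 : ℝ) else 0) = ind (rowv a x) (FSub.zero.addF (fun j => rowv a (s j))) := by
      unfold InOthers ind
      rw [addF_ne_eq]
      simp only [Fin.insertNth_apply_same, Fin.insertNth_apply_succAbove]
      have : (FSub.zero.addF (fun j => rowv a (s j))).1
          = Submodule.span F (Set.range fun i => rowv a (s i)) := by
        rw [FSub.addF_val]
        show ⊥ ⊔ _ = _
        exact bot_sup_eq _
      rw [this]
    rw [h3, h4]
    ring
  rw [Finset.sum_congr rfl fun j _ => h2 j]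
  simp

open Classical in
include hπ0 hπ1 ha in
/-- **linear independence of the rows, with high probability** -/
theorem rows_indep (hl : 1 ≤ l) {lam η : ℝ} (h0 : 0 < lam) (hη : 0 < η)
    (hlam : lam * (l + 2) < dk (l + 2)) {ε : ℝ} (hε : 0 < ε) :
    ∃ N : ℕ, 0 < N ∧ ∀ n, N ≤ n → ∀ m : ℕ, (m : ℝ) ≤ (lam - η) * n →
      ∑ H : Fin m → τ × (Fin (l + 2) ↪ Fin n), (∏ j, dw π (l + 2) n (H j)) *
        (if ∃ j, InOthers a (fun j => fgt (H j)) j then 1 else 0) ≤ ε := by
  set Cr : ℝ := Real.exp (2 * ((l : ℝ) + 2) ^ 2) with hCr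
  have hCr0 : 0 < Cr := Real.exp_pos _
  set DD : ℝ := DK (l + 2) ^ 2 * ((l + 2 : ℕ) : ℝ) with hDD
  have hDD0 : 0 < DD := by rw [hDD]; unfold DK; positivity
  set β : ℝ := 1 / (4 * DD) with hβ
  have hβ0 : 0 < β := by positivity
  obtain ⟨N1, hN10, hN1⟩ := fresh_small hπ0 hπ1 ha h0 hη hlam
    (show 0 < ε * β / (2 * Cr) by positivity)
  obtain ⟨N2, hN2⟩ := exists_nat_gt (16 * DD / ε)
  refine ⟨max (max N1 N2) (2 * (l + 2)), by positivity, fun n hn m hm => ?_⟩
  have hnN1 : N1 ≤ n := le_trans (le_trans (le_max_left _ _) (le_max_left _ _)) hn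
  have hnN2 : N2 ≤ n := le_trans (le_trans (le_max_right _ _) (le_max_left _ _)) hn
  have hn2 : 2 * (l + 2) ≤ n := le_trans (le_max_right _ _) hn
  have hn0 : 0 < n := by omega
  have hn' : (0 : ℝ) < n := by exact_mod_cast hn0
  have hlR : (0 : ℝ) < (l : ℝ) + 2 := by positivity
  have hlam1 : lam ≤ 1 := by
    have := lam_le_one (l := l) (show 0 < lam * (l + 2) by positivity) hlam
    rwa [mul_div_assoc, div_self hlR.ne', mul_one] at this
  have hmn : m ≤ n := by
    have : (m : ℝ) ≤ n := by nlinarith [mul_pos hη hn']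
    exact_mod_cast this
  set B : ℕ := ⌊β * n⌋₊ with hB
  have hBn : (B : ℝ) ≤ β * n := Nat.floor_le (by positivity)
  have hBn2 : β * n < B + 1 := Nat.lt_floor_add_one _
  have hw : ∀ H : Fin m → τ × (Fin (l + 2) ↪ Fin n), 0 ≤ ∏ j, dw π (l + 2) n (H j) :=
    fun H => Finset.prod_nonneg fun j _ => dw_nonneg hπ0 _ _ _
  -- split
  have h1 : ∀ H : Fin m → τ × (Fin (l + 2) ↪ Fin n),
      (if ∃ j, InOthers a (fun j => fgt (H j)) j then (1 : ℝ) else 0)
      ≤ ((Finset.univ.filter (fun j => InOthers a (fun j => fgt (H j)) j)).card : ℝ) / (B + 1)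
        + (if SmallBad B H then 1 else 0) := by
    intro H
    have hnn : (0 : ℝ) ≤
        ((Finset.univ.filter (fun j => InOthers a (fun j => fgt (H j)) j)).card : ℝ) / (B + 1) := by
      positivity
    have hnn2 : (0 : ℝ) ≤ (if SmallBad B H then 1 else 0) := by split_ifs <;> norm_num
    by_cases hd : ∃ j, InOthers a (fun j => fgt (H j)) j
    · rw [if_pos hd]
      by_cases hc : (Finset.univ.filter (fun j => InOthers a (fun j => fgt (H j)) j)).card ≤ B
      · rw [if_pos (small_of_dep ha H hd hc)]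
        linarith
      · push Not at hc
        have : (1 : ℝ) ≤
          ((Finset.univ.filter (fun j => InOthers a (fun j => fgt (H j)) j)).card : ℝ) / (B + 1) := by
          rw [le_div_iff₀ (by positivity), one_mul]
          exact_mod_cast hc
        linarith
    · rw [if_neg hd]; linarith
  have h2 : ∑ H : Fin m → τ × (Fin (l + 2) ↪ Fin n), (∏ j, dw π (l + 2) n (H j)) *
        (if ∃ j, InOthers a (fun j => fgt (H j)) j then (1 : ℝ) else 0)
      ≤ (∑ H : Fin m → τ × (Fin (l + 2) ↪ Fin n), (∏ j, dw π (l + 2) n (H j)) *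
          ((Finset.univ.filter (fun j => InOthers a (fun j => fgt (H j)) j)).card : ℝ)) / (B + 1)
        + ∑ H : Fin m → τ × (Fin (l + 2) ↪ Fin n), (∏ j, dw π (l + 2) n (H j)) *
          (if SmallBad B H then 1 else 0) := by
    rw [Finset.sum_div, ← Finset.sum_add_distrib]
    refine Finset.sum_le_sum fun H _ => ?_
    have := mul_le_mul_of_nonneg_left (h1 H) (hw H)
    rw [mul_add, ← mul_div_assoc] at this
    exact this
  refine h2.trans ?_
  -- first part
  have h3 : ∑ H : Fin m → τ × (Fin (l + 2) ↪ Fin n), (∏ j, dw π (l + 2) n (H j)) *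
          ((Finset.univ.filter (fun j => InOthers a (fun j => fgt (H j)) j)).card : ℝ)
      ≤ Cr * (n * (ε * β / (2 * Cr))) := by
    refine (transfer hπ0 (by omega) m (fun s =>
      ((Finset.univ.filter (fun j => InOthers a s j)).card : ℝ)) (fun s => by positivity)).trans ?_
    have hr := rat_pow_le (l := l) hn2 hmn
    rcases Nat.eq_zero_or_pos m with hm0 | hm0
    · subst hm0
      simp
      positivity
    · obtain ⟨m', rfl⟩ := Nat.exists_eq_succ_of_ne_zero hm0.ne'
      rw [exp_inOthers]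
      have hm' : (m' : ℝ) ≤ (lam - η) * n := by push_cast at hm; linarith
      have h4 := (hN1 n hnN1 m' hm').1
      have h5 : 0 ≤ (W π a n ^ m') (rin π a n) FSub.zero := by
        have hW := W_isMk (a := a) hπ0 hπ1 hn0
        have := (hW.pow m').pos (fun _ => 0) (rin π a n) (fun S => rin_nonneg hπ0 n S) FSub.zero
        rwa [(hW.pow m').one] at this
      have h6 : ((m' : ℝ) + 1) ≤ n := by exact_mod_cast hmn
      apply mul_le_mul hr _ (by positivity) hCr0.le
      exact mul_le_mul h6 h4 h5 hn'.le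
  have h4 : (∑ H : Fin m → τ × (Fin (l + 2) ↪ Fin n), (∏ j, dw π (l + 2) n (H j)) *
          ((Finset.univ.filter (fun j => InOthers a (fun j => fgt (H j)) j)).card : ℝ)) / (B + 1)
      ≤ ε / 2 := by
    rw [div_le_iff₀ (by positivity)]
    refine h3.trans ?_
    have : Cr * (n * (ε * β / (2 * Cr))) = ε / 2 * (β * n) := by field_simp
    rw [this]
    exact mul_le_mul_of_nonneg_left hBn2.le (by positivity)
  -- second part
  have hBK : 4 * (DD * B) ≤ n := by
    have : 4 * (DD * B) ≤ 4 * (DD * (β * n)) := by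
      apply mul_le_mul_of_nonneg_left _ (by norm_num)
      exact mul_le_mul_of_nonneg_left hBn hDD0.le
    refine this.trans (le_of_eq ?_)
    rw [hβ]; field_simp
  have hD1 : 1 ≤ DK (l + 2) := by
    unfold DK
    have e1 : 1 ≤ Real.exp 1 := Real.one_le_exp (by norm_num)
    have e2 : 1 ≤ Real.exp ((l + 2 : ℕ) : ℝ) := Real.one_le_exp (by positivity)
    have e3 : (1 : ℝ) ≤ ((l + 2 : ℕ) : ℝ) := by
      have : 1 ≤ l + 2 := by omega
      exact_mod_cast this
    have e4 : 1 * 1 ≤ Real.exp 1 * ((l + 2 : ℕ) : ℝ) := mul_le_mul e1 e3 (by norm_num) (by linarith)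
    have e5 : 1 * 1 * 1 ≤ Real.exp 1 * ((l + 2 : ℕ) : ℝ) * Real.exp ((l + 2 : ℕ) : ℝ) :=
      mul_le_mul e4 e2 (by norm_num) (by linarith)
    linarith
  have hKB : (l + 2) * B ≤ 2 * n := by
    have h5 : ((l + 2 : ℕ) : ℝ) * B ≤ DD * B := by
      apply mul_le_mul_of_nonneg_right _ (Nat.cast_nonneg _)
      rw [hDD]
      have : 1 ≤ DK (l + 2) ^ 2 := one_le_pow₀ hD1
      have h6 : (0 : ℝ) ≤ ((l + 2 : ℕ) : ℝ) := Nat.cast_nonneg _
      nlinarith
    have h7 : (0 : ℝ) ≤ DD * B := by positivity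
    have : (((l + 2) * B : ℕ) : ℝ) ≤ ((2 * n : ℕ) : ℝ) := by
      push_cast at h5 ⊢
      linarith
    exact_mod_cast this
  have h5 : ∑ H : Fin m → τ × (Fin (l + 2) ↪ Fin n), (∏ j, dw π (l + 2) n (H j)) *
          (if SmallBad B H then (1 : ℝ) else 0) ≤ 8 * DD / n := by
    refine (prob_smallBad hπ0 hπ1 (by omega) hKB).trans ?_
    exact sum_term_le (K := l + 2) (by omega) hn0 hmn hBK
  have h6 : 8 * DD / n ≤ ε / 2 := by
    have h7 : (N2 : ℝ) ≤ n := by exact_mod_cast hnN2
    rw [div_lt_iff₀ hε] at hN2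
    rw [div_le_iff₀ hn']
    nlinarith
  linarith

open Classical in
include hπ0 hπ1 ha in
/-- **few frozen variables in the model with distinct variables** -/
theorem pins_indep {lam η : ℝ} (h0 : 0 < lam) (hη : 0 < η)
    (hlam : lam * (l + 2) < dk (l + 2)) {ε : ℝ} (hε : 0 < ε) :
    ∃ N : ℕ, 0 < N ∧ ∀ n, N ≤ n → ∀ m : ℕ, (m : ℝ) ≤ (lam - η) * n →
      ∑ H : Fin m → τ × (Fin (l + 2) ↪ Fin n), (∏ j, dw π (l + 2) n (H j)) *
        P n (X n) (rowSpan a (fun j => fgt (H j))) ≤ ε := by
  set Cr : ℝ := Real.exp (2 * ((l : ℝ) + 2) ^ 2) with hCr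
  have hCr0 : 0 < Cr := Real.exp_pos _
  obtain ⟨N1, hN10, hN1⟩ := frozen_small hπ0 hπ1 ha h0 hη hlam
    (show 0 < ε / Cr by positivity)
  refine ⟨max N1 (2 * (l + 2)), by positivity, fun n hn m hm => ?_⟩
  have hnN1 : N1 ≤ n := le_trans (le_max_left _ _) hn
  have hn2 : 2 * (l + 2) ≤ n := le_trans (le_max_right _ _) hn
  have hn0 : 0 < n := by omega
  have hn' : (0 : ℝ) < n := by exact_mod_cast hn0
  have hlR : (0 : ℝ) < (l : ℝ) + 2 := by positivity
  have hlam1 : lam ≤ 1 := by
    have := lam_le_one (l := l) (show 0 < lam * (l + 2) by positivity) hlam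
    rwa [mul_div_assoc, div_self hlR.ne', mul_one] at this
  have hmn : m ≤ n := by
    have : (m : ℝ) ≤ n := by nlinarith [mul_pos hη hn']
    exact_mod_cast this
  have hP := P_isMk (F := F) hn0
  have hW := W_isMk (a := a) hπ0 hπ1 hn0
  have hPX : ∀ R : FSub F, 0 ≤ P n (X n) R := by
    intro R
    have := hP.pos (fun _ => 0) (X n) (fun S => X_nonneg n S) R
    rwa [hP.one] at this
  refine (transfer hπ0 (by omega) m (fun s => P n (X n) (rowSpan a s)) (fun s => hPX _)).trans ?_
  have h1 : ∑ s : Fin m → τ × (Fin (l + 2) → Fin n), (∏ j, cw π l n (s j)) *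
      P n (X n) (rowSpan a s) = (P n * W π a n ^ m : Op F) (X n) FSub.zero := by
    rw [← ((hW.pow m).comm_P n).eq]
    show _ = (W π a n ^ m) (P n (X n)) FSub.zero
    rw [W_pow_apply]
    rfl
  rw [h1]
  have h2 := hN1 n hnN1 m hm
  have h3 : 0 ≤ (P n * W π a n ^ m : Op F) (X n) FSub.zero := by
    have := (hP.mul (hW.pow m)).pos (fun _ => 0) (X n) (fun S => X_nonneg n S) FSub.zero
    rwa [(hP.mul (hW.pow m)).one] at this
  calc rat l n ^ m * (P n * W π a n ^ m : Op F) (X n) FSub.zero ≤ Cr * (ε / Cr) :=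
        mul_le_mul (rat_pow_le hn2 hmn) h2 h3 hCr0.le
    _ = ε := by field_simp

end rows

end Pool.Agent.H519_UE
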