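import Pool.Agent.H519_UE.Step

/-!
# From `n` to `n + 1` variables
-/

set_option linter.all false

namespace Pool.Agent.H519_UE

open scoped BigOperators

variable {F : Type*} [Field F]

/-- the functions `Fin K → Fin (n+1)` which take the value `n` at most once -/
def theta (n l : ℕ) :
    (Fin (l + 2) → Fin n) ⊕ (Fin (l + 2) × (Fin (l + 1) → Fin n)) → (Fin (l + 2) → Fin (n + 1))
  | Sum.inl u => fun j => (u j).castSucc
  | Sum.inr (i, u) => Fin.insertNth i (Fin.last n) (fun j => (u j).castSucc)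

lemma theta_injective (n l : ℕ) : Function.Injective (theta n l) := by
  rintro (u | ⟨i, u⟩) (v | ⟨j, v⟩) h
  · have : u = v := by
      funext x
      have := congrFun h x
      exact Fin.castSucc_injective n this
    rw [this]
  · exfalso
    have := congrFun h j
    simp only [theta, Fin.insertNth_apply_same] at this
    exact (Fin.castSucc_lt_last (u j)).ne this
  · exfalso
    have := congrFun h i
    simp only [theta, Fin.insertNth_apply_same] at this
    exact (Fin.castSucc_lt_last (v i)).ne this.symm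
  · have hij : i = j := by
      by_contra hne
      obtain ⟨i', hi'⟩ := Fin.exists_succAbove_eq hne
      have := congrFun h i
      simp only [theta, Fin.insertNth_apply_same] at this
      rw [← hi', Fin.insertNth_apply_succAbove] at this
      exact (Fin.castSucc_lt_last (v i')).ne this.symm
    subst hij
    have huv : u = v := by
      funext x
      have := congrFun h (i.succAbove x)
      simp only [theta, Fin.insertNth_apply_succAbove] at this
      exact Fin.castSucc_injective n this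
    rw [huv]

/-- sum over all functions, dropping those which take the value `n` at least twice -/
lemma sum_theta (n l : ℕ) (G : (Fin (l + 2) → Fin (n + 1)) → ℝ) (g : ℝ) (hG : ∀ u, g ≤ G u) :
    ∑ u : Fin (l + 2) → Fin n, G (fun j => (u j).castSucc)
      + ∑ i : Fin (l + 2), ∑ u : Fin (l + 1) → Fin n,
          G (Fin.insertNth i (Fin.last n) (fun j => (u j).castSucc))
      + g * (((n : ℝ) + 1) ^ (l + 2) - (n : ℝ) ^ (l + 2) - (l + 2) * (n : ℝ) ^ (l + 1))
      ≤ ∑ u, G u := by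
  classical
  have h1 : ∑ s, (G (theta n l s) - g) ≤ ∑ u, (G u - g) := by
    have e1 : ∑ s, (G (theta n l s) - g)
        = ∑ u ∈ Finset.univ.map ⟨theta n l, theta_injective n l⟩, (G u - g) := by
      rw [Finset.sum_map]; rfl
    rw [e1]
    exact Finset.sum_le_sum_of_subset_of_nonneg (Finset.subset_univ _)
      fun u _ _ => sub_nonneg.mpr (hG u)
  rw [Fintype.sum_sum_type, Fintype.sum_prod_type] at h1
  simp only [theta, Finset.sum_sub_distrib, Finset.sum_const, Finset.card_univ, Fintype.card_pi,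
    Fintype.card_fin, Finset.prod_const, nsmul_eq_mul] at h1
  push_cast at h1
  linarith

section rows

variable {l : ℕ} {τ : Type*} [Fintype τ] {π : τ → ℝ} {a : τ → Fin (l + 2) → F}
  (hπ0 : ∀ t, 0 ≤ π t) (hπ1 : ∑ t, π t = 1) {n : ℕ} (hn : 0 < n)

/-- probability that a row contains the new variable exactly once -/
noncomputable def p1 (l n : ℕ) : ℝ := (l + 2) * (n : ℝ) ^ (l + 1) / ((n : ℝ) + 1) ^ (l + 2)

/-- probability that a row contains the new variable at least twice -/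
noncomputable def p2 (l n : ℕ) : ℝ :=
  (((n : ℝ) + 1) ^ (l + 2) - (n : ℝ) ^ (l + 2) - (l + 2) * (n : ℝ) ^ (l + 1)) / ((n : ℝ) + 1) ^ (l + 2)

lemma p1_nonneg (l n : ℕ) : 0 ≤ p1 l n := by unfold p1; positivity

lemma pow_succ_ge (l n : ℕ) :
    (n : ℝ) ^ (l + 2) + (l + 2) * (n : ℝ) ^ (l + 1) ≤ ((n : ℝ) + 1) ^ (l + 2) := by
  induction l with
  | zero => norm_num; nlinarith
  | succ l ih =>
    have h1 : (0 : ℝ) ≤ (n : ℝ) ^ (l + 1) := by positivity
    have h2 : (0 : ℝ) ≤ (n : ℝ) + 1 := by positivity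
    have h3 := mul_le_mul_of_nonneg_right ih h2
    have hl : (0 : ℝ) ≤ l := Nat.cast_nonneg l
    calc (n : ℝ) ^ (l + 1 + 2) + ((l + 1 : ℕ) + 2) * (n : ℝ) ^ (l + 1 + 1)
        ≤ ((n : ℝ) ^ (l + 2) + (l + 2) * (n : ℝ) ^ (l + 1)) * ((n : ℝ) + 1) := by
          push_cast
          have : ((n : ℝ) ^ (l + 2) + (l + 2) * (n : ℝ) ^ (l + 1)) * ((n : ℝ) + 1)
            = (n : ℝ) ^ (l + 1 + 2) + (l + 1 + 2) * (n : ℝ) ^ (l + 1 + 1)
              + (l + 2) * (n : ℝ) ^ (l + 1) := by ring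
          rw [this]
          nlinarith
      _ ≤ ((n : ℝ) + 1) ^ (l + 2) * ((n : ℝ) + 1) := h3
      _ = ((n : ℝ) + 1) ^ (l + 1 + 2) := by ring

lemma p2_nonneg (l n : ℕ) : 0 ≤ p2 l n := by
  unfold p2
  apply div_nonneg _ (by positivity)
  have := pow_succ_ge l n
  linarith

lemma p1_le_one (l n : ℕ) : p1 l n ≤ 1 := by
  unfold p1
  rw [div_le_one (by positivity)]
  have := pow_succ_ge l n
  have : (0 : ℝ) ≤ (n : ℝ) ^ (l + 2) := by positivity
  linarith

include hπ0 hπ1 hn in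
lemma W_succ_ge (φ : Fn F) (hφ : Monotone φ) (hφL : Lip φ) (R : FSub F) :
    ((1 - p1 l n) • W π a n + p1 l n • V π a n : Op F) φ R - p2 l n ≤ W π a (n + 1) φ R := by
  have hW := W_isMk (a := a) hπ0 hπ1 hn
  have hN : (0 : ℝ) < ((n : ℝ) + 1) ^ (l + 2) := by positivity
  have hn' : (0 : ℝ) < n := by exact_mod_cast hn
  -- first inequality
  have h1 : (n : ℝ) ^ (l + 2) / ((n : ℝ) + 1) ^ (l + 2) * W π a n φ R + p1 l n * V π a n φ R
      + p2 l n * φ R ≤ W π a (n + 1) φ R := by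
    rw [W_apply (n := n + 1), W_apply, V_apply]
    have e1 : (n : ℝ) ^ (l + 2) / ((n : ℝ) + 1) ^ (l + 2) * ∑ t, π t * Wc n (l + 2) (a t) φ R
        + p1 l n * ∑ t, π t * ∑ i : Fin (l + 2),
          (1 / ((l : ℝ) + 2)) * ∑ u : Fin (l + 1) → Fin n, (1 / (n : ℝ) ^ (l + 1)) *
            φ (R.add (∑ j, a t (i.succAbove j) • e (u j : ℕ) + a t i • e n))
        + p2 l n * φ R
        = ∑ t, π t * ((n : ℝ) ^ (l + 2) / ((n : ℝ) + 1) ^ (l + 2) * Wc n (l + 2) (a t) φ R
          + p1 l n * ∑ i : Fin (l + 2),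
          (1 / ((l : ℝ) + 2)) * ∑ u : Fin (l + 1) → Fin n, (1 / (n : ℝ) ^ (l + 1)) *
            φ (R.add (∑ j, a t (i.succAbove j) • e (u j : ℕ) + a t i • e n))
          + p2 l n * φ R) := by
      simp only [mul_add, Finset.sum_add_distrib]
      rw [← Finset.sum_mul, hπ1, one_mul, Finset.mul_sum, Finset.mul_sum]
      congr 2
      · exact Finset.sum_congr rfl fun t _ => by ring
      · exact Finset.sum_congr rfl fun t _ => by ring
    rw [e1]
    refine Finset.sum_le_sum fun t _ => mul_le_mul_of_nonneg_left ?_ (hπ0 t)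
    rw [Wc_apply, Wc_apply]
    have h2 := sum_theta n l (fun u => φ (R.add (∑ j, a t j • e (u j : ℕ)))) (φ R)
      (fun u => hφ (FSub.le_add _ _))
    have h3 : ∀ (i : Fin (l + 2)) (u : Fin (l + 1) → Fin n),
        (∑ j, a t j • (e ((Fin.insertNth i (Fin.last n) (fun j => (u j).castSucc) :
          Fin (l + 2) → Fin (n + 1)) j : ℕ) : ℕ →₀ F))
        = ∑ j, a t (i.succAbove j) • e (u j : ℕ) + a t i • e n := by
      intro i u
      rw [Fin.sum_univ_succAbove _ i]
      simp only [Fin.insertNth_apply_same, Fin.insertNth_apply_succAbove, Fin.val_last,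
        Fin.val_castSucc]
      rw [add_comm]
    simp only [h3, Fin.val_castSucc] at h2
    have h4 := div_le_div_of_nonneg_right h2 hN.le
    have h5 : (∑ u : Fin (l + 2) → Fin (n + 1), φ (R.add (∑ j, a t j • e (u j : ℕ))))
        / ((n : ℝ) + 1) ^ (l + 2)
        = ∑ u : Fin (l + 2) → Fin (n + 1), 1 / (((n + 1 : ℕ) : ℝ)) ^ (l + 2) *
          φ (R.add (∑ j, a t j • e (u j : ℕ))) := by
      rw [← Finset.mul_sum]; push_cast; ring
    rw [← h5]
    refine le_trans (le_of_eq ?_) h4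
    unfold p1 p2
    rw [← Finset.mul_sum, ← Finset.mul_sum]
    have h6 : ∑ i : Fin (l + 2), ∑ u : Fin (l + 1) → Fin n, 1 / (n : ℝ) ^ (l + 1) *
            φ (R.add (∑ j, a t (i.succAbove j) • e (u j : ℕ) + a t i • e n))
        = 1 / (n : ℝ) ^ (l + 1) * ∑ i : Fin (l + 2), ∑ u : Fin (l + 1) → Fin n,
            φ (R.add (∑ j, a t (i.succAbove j) • e (u j : ℕ) + a t i • e n)) := by
      rw [Finset.mul_sum]
      exact Finset.sum_congr rfl fun i _ => by rw [Finset.mul_sum]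
    rw [h6]
    field_simp
  have h7 : W π a n φ R ≤ φ R + 1 := by
    have : ∀ t, Wc n (l + 2) (a t) φ R ≤ φ R + 1 := by
      intro t
      rw [Wc_apply]
      exact avg_le (fun _ => by positivity) (sum_const_one hn _) fun u => hφL _ _
    rw [W_apply]
    exact avg_le hπ0 hπ1 this
  have h8 : p2 l n * (W π a n φ R - 1) ≤ p2 l n * φ R :=
    mul_le_mul_of_nonneg_left (by linarith) (p2_nonneg l n)
  have h9 : (n : ℝ) ^ (l + 2) / ((n : ℝ) + 1) ^ (l + 2) = 1 - p1 l n - p2 l n := by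
    unfold p1 p2; field_simp; ring
  rw [h9] at h1
  simp only [LinearMap.add_apply, LinearMap.smul_apply, Pi.add_apply, Pi.smul_apply, smul_eq_mul]
  linarith

include hπ0 hπ1 hn in
lemma Z_isMk : IsMk ((1 - p1 l n) • W π a n + p1 l n • V π a n : Op F) :=
  (W_isMk hπ0 hπ1 hn).convex (V_isMk hπ0 hπ1 hn) (p1_nonneg l n) (p1_le_one l n)

include hπ0 hπ1 hn in
lemma W_succ_pow_ge (m : ℕ) (φ : Fn F) (hφ : Monotone φ) (hφL : Lip φ) (R : FSub F) :
    (((1 - p1 l n) • W π a n + p1 l n • V π a n) ^ m : Op F) φ R - m * p2 l n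
      ≤ (W π a (n + 1) ^ m : Op F) φ R := by
  induction m generalizing R with
  | zero => simp
  | succ m ih =>
    have hW' := W_isMk (a := a) hπ0 hπ1 (Nat.succ_pos n)
    have hZ := Z_isMk (a := a) hπ0 hπ1 hn
    have h1 := W_succ_ge (a := a) hπ0 hπ1 hn ((W π a (n + 1) ^ m) φ) ((hW'.pow m).mono φ hφ)
      ((hW'.pow m).lip φ hφL) R
    have h2 : ((1 - p1 l n) • W π a n + p1 l n • V π a n : Op F)
        (fun R => (((1 - p1 l n) • W π a n + p1 l n • V π a n) ^ m : Op F) φ R + (- (m * p2 l n))) R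
        ≤ ((1 - p1 l n) • W π a n + p1 l n • V π a n : Op F) ((W π a (n + 1) ^ m) φ) R :=
      hZ.pos _ _ (fun S => by have := ih S; linarith) R
    rw [hZ.add_const] at h2
    rw [pow_succ', pow_succ', Module.End.mul_apply, Module.End.mul_apply]
    push_cast
    linarith

lemma P_succ_ge (hn : 0 < n) (φ : Fn F) (hφ : Monotone φ) (hφL : Lip φ) (R : FSub F) :
    P n φ R - 1 / (n + 1) ≤ P (n + 1) φ R := by
  have hn' : (0 : ℝ) < n := by exact_mod_cast hn
  rw [P_apply, P_apply, Fin.sum_univ_castSucc]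
  simp only [Fin.val_castSucc, Fin.val_last]
  have h1 : ∑ i : Fin n, 1 / (n : ℝ) * φ (R.add (e i)) ≤ φ R + 1 :=
    avg_le (fun _ => by positivity) (by simp; field_simp) fun u => hφL _ _
  have h2 : φ R ≤ φ (R.add (e n)) := hφ (FSub.le_add _ _)
  have h3 : ∑ i : Fin n, 1 / ((n + 1 : ℕ) : ℝ) * φ (R.add (e i))
      = (n : ℝ) / (n + 1) * ∑ i : Fin n, 1 / (n : ℝ) * φ (R.add (e i)) := by
    rw [Finset.mul_sum]
    refine Finset.sum_congr rfl fun i _ => ?_
    push_cast; field_simp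
  rw [h3]
  have h4 : 1 / (((n + 1 : ℕ)) : ℝ) * φ (R.add (e n))
      ≥ 1 / (((n + 1 : ℕ)) : ℝ) * (∑ i : Fin n, 1 / (n : ℝ) * φ (R.add (e i)) - 1) :=
    mul_le_mul_of_nonneg_left (by linarith) (by positivity)
  have h5 : (n : ℝ) / (n + 1) * ∑ i : Fin n, 1 / (n : ℝ) * φ (R.add (e i))
      + 1 / (((n + 1 : ℕ)) : ℝ) * (∑ i : Fin n, 1 / (n : ℝ) * φ (R.add (e i)) - 1)
      = ∑ i : Fin n, 1 / (n : ℝ) * φ (R.add (e i)) - 1 / (n + 1) := by
    push_cast; field_simp; ring
  linarith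

lemma P_succ_pow_ge (hn : 0 < n) (m : ℕ) (φ : Fn F) (hφ : Monotone φ) (hφL : Lip φ) (R : FSub F) :
    (P n ^ m : Op F) φ R - m * (1 / (n + 1)) ≤ (P (n + 1) ^ m : Op F) φ R := by
  induction m generalizing R with
  | zero => simp
  | succ m ih =>
    have hP' := P_isMk (F := F) (Nat.succ_pos n)
    have hP := P_isMk (F := F) hn
    have h1 := P_succ_ge hn ((P (n + 1) ^ m) φ) ((hP'.pow m).mono φ hφ)
      ((hP'.pow m).lip φ hφL) R
    have h2 : (P n : Op F) (fun R => (P n ^ m : Op F) φ R + (- (m * (1 / (n + 1))))) R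
        ≤ (P n : Op F) ((P (n + 1) ^ m) φ) R :=
      hP.pos _ _ (fun S => by have := ih S; linarith) R
    rw [hP.add_const] at h2
    rw [pow_succ', pow_succ', Module.End.mul_apply, Module.End.mul_apply]
    push_cast
    linarith

lemma A_succ_ge (hn : 0 < n) {θ : ℕ} (hθ : 0 < θ) (φ : Fn F) (hφ : Monotone φ) (hφL : Lip φ)
    (R : FSub F) : A n θ φ R - θ / (n + 1) ≤ A (n + 1) θ φ R := by
  have hθ' : (0 : ℝ) < θ := by exact_mod_cast hθ
  rw [A_apply, A_apply]
  have h1 : ∀ t ∈ Finset.range θ, (1 / (θ : ℝ)) * ((P n ^ t) φ R - θ / (n + 1))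
      ≤ (1 / (θ : ℝ)) * (P (n + 1) ^ t) φ R := by
    intro t ht
    apply mul_le_mul_of_nonneg_left _ (by positivity)
    have h2 := P_succ_pow_ge hn t φ hφ hφL R
    have h3 : (t : ℝ) * (1 / (n + 1)) ≤ θ / (n + 1) := by
      rw [mul_one_div]
      apply div_le_div_of_nonneg_right _ (by positivity)
      exact_mod_cast (Finset.mem_range.mp ht).le
    linarith
  refine le_trans (le_of_eq ?_) (Finset.sum_le_sum h1)
  simp only [mul_sub, Finset.sum_sub_distrib, Finset.sum_const, Finset.card_range, nsmul_eq_mul]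
  field_simp

variable (π a) in
/-- the expected rank of `m` random rows with a random number of pins below `θ` -/
noncomputable def er (θ n m : ℕ) : ℝ := (A n θ * W π a n ^ m : Op F) rk FSub.zero

variable (π a) in
/-- the corresponding expectation of a function of the frozen fraction -/
noncomputable def Ex (θ n m : ℕ) (f : ℝ → ℝ) : ℝ :=
  (A n θ * W π a n ^ m : Op F) (fun R => f (X n R)) FSub.zero

include hπ0 hπ1 hn in
/-- vertical increment -/
theorem er_vert (ha : ∀ t i, a t i ≠ 0) {θ : ℕ} (hθ : 0 < θ) (m : ℕ) :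
    er π a θ n m + Ex π a θ n m (fun x => 1 - Real.exp (-(m * p1 l n * x ^ (l + 1)))
        - m * p1 l n * (x ^ (l + 1) - x ^ (l + 2)))
      - 3 * ((l : ℝ) + 2) ^ 2 * ((m * p1 l n) ^ 2 + m * p1 l n) / θ - m * p2 l n - θ / (n + 1)
      ≤ er π a θ (n + 1) m := by
  have hA := A_isMk (F := F) hn hθ
  have hW := W_isMk (a := a) hπ0 hπ1 hn
  have hW' := W_isMk (a := a) hπ0 hπ1 (Nat.succ_pos n)
  have h1 := Z_ge hπ0 hπ1 ha hn hθ m (p1_nonneg l n) (p1_le_one l n)
  have h2 : Ex π a θ n m (fun x => 1 - Real.exp (-(m * p1 l n * x ^ (l + 1)))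
        - m * p1 l n * (x ^ (l + 1) - x ^ (l + 2)))
      ≤ (A n θ * W π a n ^ m : Op F)
          (fun R => 1 - (1 - p1 l n * X n R ^ (l + 1)) ^ m
            - m * p1 l n * (X n R ^ (l + 1) - X n R ^ (l + 2))) FSub.zero := by
    apply (hA.mul (hW.pow m)).pos
    intro R
    have h3 : (1 - p1 l n * X n R ^ (l + 1)) ^ m ≤ Real.exp (-(m * p1 l n * X n R ^ (l + 1))) := by
      have e1 : 1 - p1 l n * X n R ^ (l + 1) ≤ Real.exp (-(p1 l n * X n R ^ (l + 1))) := by
        have := Real.add_one_le_exp (-(p1 l n * X n R ^ (l + 1)))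
        linarith
      have e2 : 0 ≤ 1 - p1 l n * X n R ^ (l + 1) := by
        have : p1 l n * X n R ^ (l + 1) ≤ 1 * 1 :=
          mul_le_mul (p1_le_one l n) (pow_le_one₀ (X_nonneg _ _) (X_le_one _ _))
            (pow_nonneg (X_nonneg _ _) _) (by norm_num)
        linarith
      calc (1 - p1 l n * X n R ^ (l + 1)) ^ m ≤ (Real.exp (-(p1 l n * X n R ^ (l + 1)))) ^ m :=
            pow_le_pow_left₀ e2 e1 m
        _ = Real.exp (-(m * p1 l n * X n R ^ (l + 1))) := by
            rw [← Real.exp_nat_mul]; congr 1; ring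
    linarith
  have h4 := A_succ_ge hn hθ ((W π a (n + 1) ^ m) rk) ((hW'.pow m).mono _ rk_mono)
    ((hW'.pow m).lip _ rk_lip) FSub.zero
  have h5 : (A n θ : Op F) (fun R => (((1 - p1 l n) • W π a n + p1 l n • V π a n) ^ m : Op F) rk R
      + (- (m * p2 l n))) FSub.zero ≤ (A n θ : Op F) ((W π a (n + 1) ^ m) rk) FSub.zero := by
    apply hA.pos
    intro R
    have := W_succ_pow_ge (a := a) hπ0 hπ1 hn m rk rk_mono rk_lip R
    linarith
  rw [hA.add_const] at h5
  unfold er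
  rw [Module.End.mul_apply] at h1
  show _ ≤ A (n + 1) θ ((W π a (n + 1) ^ m) rk) FSub.zero
  have h6 : (A n θ * W π a n ^ m : Op F) rk FSub.zero = A n θ ((W π a n ^ m) rk) FSub.zero := rfl
  have h7 : (A n θ * ((1 - p1 l n) • W π a n + p1 l n • V π a n) ^ m : Op F) rk FSub.zero
    = (A n θ : Op F) ((((1 - p1 l n) • W π a n + p1 l n • V π a n) ^ m : Op F) rk) FSub.zero := rfl
  rw [h7] at h1
  rw [h6]
  linarith

include hπ0 hπ1 hn in
/-- horizontal increment -/
theorem er_horiz (ha : ∀ t i, a t i ≠ 0) {θ : ℕ} (hθ : 0 < θ) (m : ℕ) :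
    er π a θ n m + (1 - Ex π a θ n m (fun x => x ^ (l + 2))) - ((l : ℝ) + 2) ^ 2 / θ
      ≤ er π a θ n (m + 1) := by
  have hA := A_isMk (F := F) hn hθ
  have hW := W_isMk (a := a) hπ0 hπ1 hn
  have hθ' : (0 : ℝ) < θ := by exact_mod_cast hθ
  have hQ : IsMk (A n θ * W π a n ^ m) := hA.mul (hW.pow m)
  have h1 : ∀ S, ((rk + fun _ => 1) - (fun R => X n R ^ (l + 2))
        - ((l : ℝ) + 2) • ((P n ^ (l + 1)) (X n) - X n) : Fn F) S ≤ W π a n rk S := by
    intro S
    exact W_rk_ge hπ0 hπ1 hn ha S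
  have h2 := hQ.pos _ _ h1 FSub.zero
  rw [map_sub, map_sub, map_add, map_smul, map_sub, hQ.one] at h2
  simp only [Pi.add_apply, Pi.smul_apply, Pi.sub_apply, smul_eq_mul] at h2
  have h3 := A_err hn hθ (hW.pow m) (l + 1) FSub.zero
  have h4 : ((l : ℝ) + 2) * ((A n θ * W π a n ^ m : Op F) ((P n ^ (l + 1)) (X n)) FSub.zero
      - (A n θ * W π a n ^ m : Op F) (X n) FSub.zero) ≤ ((l : ℝ) + 2) ^ 2 / θ := by
    have e1 : ((l : ℝ) + 2) * ((A n θ * W π a n ^ m : Op F) ((P n ^ (l + 1)) (X n)) FSub.zero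
      - (A n θ * W π a n ^ m : Op F) (X n) FSub.zero) ≤ ((l : ℝ) + 2) * (((l + 1 : ℕ) : ℝ) / θ) :=
      mul_le_mul_of_nonneg_left (by linarith) (by positivity)
    refine e1.trans ?_
    push_cast
    rw [← mul_div_assoc]
    apply div_le_div_of_nonneg_right _ hθ'.le
    have hl : (0 : ℝ) ≤ l := Nat.cast_nonneg l
    nlinarith
  unfold er Ex
  rw [pow_succ (W π a n) m, ← mul_assoc]
  show _ ≤ (A n θ * W π a n ^ m : Op F) (W π a n rk) FSub.zero
  linarith

include hπ0 hπ1 hn in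
/-- slow variation in `m` -/
theorem Ex_slow {θ : ℕ} (hθ : 0 < θ) (m b : ℕ) (f : ℝ → ℝ) (L : ℝ) (hL : 0 ≤ L)
    (hf : ∀ x y, 0 ≤ x → x ≤ y → y ≤ 1 → f y - f x ≤ L * (y - x)) :
    Ex π a θ n (m + b) f ≤ Ex π a θ n m f + L * (b * (l + 2) / θ) := by
  have hW := W_isMk (a := a) hπ0 hπ1 hn
  have := A_slow_lip hn hθ (hW.pow m) hW (l + 2) (W_slow hπ0 hπ1 hn) b f L hL hf FSub.zero
  unfold Ex
  rw [pow_add, ← mul_assoc]
  push_cast at this
  exact this

include hπ0 hπ1 hn in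
theorem Ex_mono {θ : ℕ} (hθ : 0 < θ) (m : ℕ) (f g : ℝ → ℝ)
    (h : ∀ x, 0 ≤ x → x ≤ 1 → f x ≤ g x) : Ex π a θ n m f ≤ Ex π a θ n m g := by
  have hA := A_isMk (F := F) hn hθ
  have hW := W_isMk (a := a) hπ0 hπ1 hn
  exact (hA.mul (hW.pow m)).pos _ _ (fun R => h _ (X_nonneg _ _) (X_le_one _ _)) _

include hπ0 hπ1 hn in
theorem Ex_const {θ : ℕ} (hθ : 0 < θ) (m : ℕ) (c : ℝ) : Ex π a θ n m (fun _ => c) = c := by
  have hA := A_isMk (F := F) hn hθ
  have hW := W_isMk (a := a) hπ0 hπ1 hn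
  show (A n θ * W π a n ^ m : Op F) (fun R => c) FSub.zero = c
  rw [(hA.mul (hW.pow m)).one]

theorem Ex_add (θ m : ℕ) (f g : ℝ → ℝ) :
    Ex π a θ n m (fun x => f x + g x) = Ex π a θ n m f + Ex π a θ n m g := by
  have : (fun R : FSub F => f (X n R) + g (X n R)) = (fun R => f (X n R)) + fun R => g (X n R) := rfl
  unfold Ex
  rw [this, map_add]; rfl

theorem Ex_smul (θ m : ℕ) (c : ℝ) (f : ℝ → ℝ) :
    Ex π a θ n m (fun x => c * f x) = c * Ex π a θ n m f := by
  have : (fun R : FSub F => c * f (X n R)) = c • (fun R => f (X n R)) := rfl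
  unfold Ex
  rw [this, map_smul]; rfl

end rows

end Pool.Agent.H519_UE
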