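import Pool.Agent.H519_UE.Mod

/-!
# Random solutions of random systems over finite modules
-/

set_option linter.all false

namespace Pool.Agent.H519_UE

open scoped BigOperators
open Filter Topology

section field

variable {F : Type*} [Field F] {l : ℕ} {τ : Type*} [Fintype τ] {π : τ → ℝ}
  {a : τ → Fin (l + 2) → F}
  (hπ0 : ∀ t, 0 ≤ π t) (hπ1 : ∑ t, π t = 1) (ha : ∀ t i, a t i ≠ 0)

open Classical in
include hπ0 hπ1 ha in
/-- field version: most pairs are good, with high probability -/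
theorem good_prob (hl : 1 ≤ l) {lam η : ℝ} (h0 : 0 < lam) (hη : 0 < η)
    (hlam : lam * (l + 2) < dk (l + 2)) {ε : ℝ} (hε : 0 < ε) :
    ∃ N : ℕ, 0 < N ∧ ∀ n, N ≤ n → ∀ m : ℕ, (m : ℝ) ≤ (lam - η) * n →
      ∑ H : Fin m → τ × (Fin (l + 2) ↪ Fin n), (∏ j, dw π (l + 2) n (H j)) *
        (∑ i : Fin n, ∑ j : Fin n, (1 / (n : ℝ)) * ((1 / (n : ℝ)) *
          (if GoodF a H i j then 0 else 1))) ≤ ε := by
  obtain ⟨N1, hN10, hN1⟩ := rows_indep hπ0 hπ1 ha hl h0 hη hlam (show 0 < ε / 2 by positivity)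
  obtain ⟨N2, hN20, hN2⟩ := pins_indep hπ0 hπ1 ha h0 hη hlam (show 0 < ε / 4 by positivity)
  refine ⟨max N1 N2, by positivity, fun n hn m hm => ?_⟩
  have h1 := hN1 n ((le_max_left _ _).trans hn) m hm
  have h2 := hN2 n ((le_max_right _ _).trans hn) m hm
  have hn0 : 0 < n := lt_of_lt_of_le hN10 ((le_max_left _ _).trans hn)
  have hn' : (0 : ℝ) < n := by exact_mod_cast hn0
  have hw : ∀ H : Fin m → τ × (Fin (l + 2) ↪ Fin n), 0 ≤ ∏ j, dw π (l + 2) n (H j) :=
    fun H => Finset.prod_nonneg fun j _ => dw_nonneg hπ0 _ _ _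
  have key : ∀ H : Fin m → τ × (Fin (l + 2) ↪ Fin n),
      (∑ i : Fin n, ∑ j : Fin n, (1 / (n : ℝ)) * ((1 / (n : ℝ)) *
          (if GoodF a H i j then (0 : ℝ) else 1)))
      ≤ (if ∃ j, InOthers a (fun j => fgt (H j)) j then 1 else 0)
        + 2 * P n (X n) (rowSpan a (fun j => fgt (H j))) := by
    intro H
    set R := rowSpan a (fun j => fgt (H j)) with hR
    set D : ℝ := (if ∃ j, InOthers a (fun j => fgt (H j)) j then 1 else 0) with hD
    have p1 : ∀ i j : Fin n, (if GoodF a H i j then (0 : ℝ) else 1)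
        ≤ D + ind (e (i : ℕ)) R + ind (e (j : ℕ)) (R.add (e (i : ℕ))) := by
      intro i j
      have q1 := ind_nonneg (F := F) (e (i : ℕ)) R
      have q2 := ind_nonneg (F := F) (e (j : ℕ)) (R.add (e (i : ℕ)))
      have q3 : 0 ≤ D := by rw [hD]; split_ifs <;> norm_num
      by_cases hg : GoodF a H i j
      · rw [if_pos hg]; linarith
      · rw [if_neg hg]
        by_cases hd : ∃ j, InOthers a (fun j => fgt (H j)) j
        · rw [hD, if_pos hd]; linarith
        · by_cases hi : (e (i : ℕ) : ℕ →₀ F) ∈ R.1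
          · rw [ind_of_mem hi]; linarith
          · by_cases hj : (e (j : ℕ) : ℕ →₀ F) ∈ (R.add (e (i : ℕ))).1
            · rw [ind_of_mem hj]; linarith
            · exfalso
              apply hg
              push Not at hd
              exact ⟨hd, hi, hj⟩
    have p2 : ∑ i : Fin n, ∑ j : Fin n, (1 / (n : ℝ)) * ((1 / (n : ℝ)) *
        (D + ind (e (i : ℕ)) R + ind (e (j : ℕ)) (R.add (e (i : ℕ)))))
        = D + X n R + P n (X n) R := by
      have e1 : ∀ i : Fin n, ∑ j : Fin n, (1 / (n : ℝ)) * ((1 / (n : ℝ)) *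
        (D + ind (e (i : ℕ)) R + ind (e (j : ℕ)) (R.add (e (i : ℕ)))))
        = (1 / (n : ℝ)) * D + (1 / (n : ℝ)) * ind (e (i : ℕ)) R
          + (1 / (n : ℝ)) * X n (R.add (e (i : ℕ))) := by
        intro i
        unfold X
        simp only [mul_add, Finset.sum_add_distrib, Finset.sum_const, Finset.card_univ,
          Fintype.card_fin, nsmul_eq_mul, Finset.mul_sum]
        field_simp
      rw [Finset.sum_congr rfl fun i _ => e1 i, Finset.sum_add_distrib, Finset.sum_add_distrib,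
        P_apply]
      congr 1
      unfold X
      simp only [Finset.sum_const, Finset.card_univ, Fintype.card_fin, nsmul_eq_mul]
      field_simp
    have p3 : X n R ≤ P n (X n) R := (P_isMk hn0).ge _ (X_mono n) R
    calc _ ≤ ∑ i : Fin n, ∑ j : Fin n, (1 / (n : ℝ)) * ((1 / (n : ℝ)) *
        (D + ind (e (i : ℕ)) R + ind (e (j : ℕ)) (R.add (e (i : ℕ))))) := by
          refine Finset.sum_le_sum fun i _ => Finset.sum_le_sum fun j _ => ?_
          apply mul_le_mul_of_nonneg_left _ (by positivity)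
          exact mul_le_mul_of_nonneg_left (p1 i j) (by positivity)
      _ = D + X n R + P n (X n) R := p2
      _ ≤ _ := by linarith
  calc _ ≤ ∑ H : Fin m → τ × (Fin (l + 2) ↪ Fin n), (∏ j, dw π (l + 2) n (H j)) *
      ((if ∃ j, InOthers a (fun j => fgt (H j)) j then 1 else 0)
        + 2 * P n (X n) (rowSpan a (fun j => fgt (H j)))) :=
        Finset.sum_le_sum fun H _ => mul_le_mul_of_nonneg_left (key H) (hw H)
    _ = ∑ H : Fin m → τ × (Fin (l + 2) ↪ Fin n), (∏ j, dw π (l + 2) n (H j)) *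
      (if ∃ j, InOthers a (fun j => fgt (H j)) j then (1 : ℝ) else 0)
        + 2 * ∑ H : Fin m → τ × (Fin (l + 2) ↪ Fin n), (∏ j, dw π (l + 2) n (H j)) *
          P n (X n) (rowSpan a (fun j => fgt (H j))) := by
        rw [Finset.mul_sum, ← Finset.sum_add_distrib]
        exact Finset.sum_congr rfl fun H _ => by ring
    _ ≤ ε := by linarith

end field

section module

variable {Λ : Type*} [CommRing Λ] [Finite Λ] {l : ℕ} {τ : Type*} [Fintype τ] {π : τ → ℝ}
  {a : τ → Fin (l + 2) → Λ}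
  (hπ0 : ∀ t, 0 ≤ π t) (hπ1 : ∑ t, π t = 1) (ha : ∀ t i, IsUnit (a t i))

/-- goodness modulo all maximal ideals -/
def GoodAll (a : τ → Fin (l + 2) → Λ) {n m : ℕ} (H : Fin m → τ × (Fin (l + 2) ↪ Fin n))
    (i j : Fin n) : Prop :=
  ∀ I : MaximalSpectrum Λ, GoodL a H i j I

/-- the fraction of bad pairs, for one badness predicate -/
noncomputable def fracBad {n : ℕ} (G : Fin n → Fin n → Prop) : ℝ :=
  open Classical in
  ∑ i : Fin n, ∑ j : Fin n, (1 / (n : ℝ)) * ((1 / (n : ℝ)) * (if G i j then 0 else 1))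

lemma fracBad_nonneg {n : ℕ} (G : Fin n → Fin n → Prop) : 0 ≤ fracBad G := by
  unfold fracBad
  refine Finset.sum_nonneg fun i _ => Finset.sum_nonneg fun j _ => ?_
  refine mul_nonneg (by positivity) (mul_nonneg (by positivity) ?_)
  split_ifs <;> norm_num

lemma fracBad_forall {n : ℕ} {ι : Type*} [Fintype ι] (G : ι → Fin n → Fin n → Prop) :
    fracBad (fun i j => ∀ t, G t i j) ≤ ∑ t, fracBad (G t) := by
  classical
  unfold fracBad
  have hsw : ∀ f : ι → Fin n → Fin n → ℝ,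
      ∑ t, ∑ i, ∑ j, f t i j = ∑ i, ∑ j, ∑ t, f t i j := by
    intro f
    rw [Finset.sum_comm]
    refine Finset.sum_congr rfl fun i _ => ?_
    rw [Finset.sum_comm]
  rw [hsw]
  refine Finset.sum_le_sum fun i _ => ?_
  refine Finset.sum_le_sum fun j _ => ?_
  rw [← Finset.mul_sum, ← Finset.mul_sum]
  apply mul_le_mul_of_nonneg_left _ (by positivity)
  apply mul_le_mul_of_nonneg_left _ (by positivity)
  by_cases h : ∀ t, G t i j
  · rw [if_pos h]
    exact Finset.sum_nonneg fun I _ => by split_ifs <;> norm_num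
  · rw [if_neg h]
    push Not at h
    obtain ⟨I, hI⟩ := h
    calc (1 : ℝ) = (if G I i j then (0 : ℝ) else 1) := by rw [if_neg hI]
      _ ≤ _ := Finset.single_le_sum (f := fun I => (if G I i j then (0 : ℝ) else 1))
        (fun I _ => by split_ifs <;> norm_num) (Finset.mem_univ I)

include hπ0 hπ1 ha in
/-- ring version -/
theorem goodL_prob (hl : 1 ≤ l) {lam η : ℝ} (h0 : 0 < lam) (hη : 0 < η)
    (hlam : lam * (l + 2) < dk (l + 2)) {ε : ℝ} (hε : 0 < ε) :
    ∃ N : ℕ, 0 < N ∧ ∀ n, N ≤ n → ∀ m : ℕ, (m : ℝ) ≤ (lam - η) * n →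
      ∑ H : Fin m → τ × (Fin (l + 2) ↪ Fin n), (∏ j, dw π (l + 2) n (H j)) *
        fracBad (GoodAll a H) ≤ ε := by
  classical
  haveI : Fintype (MaximalSpectrum Λ) := Fintype.ofFinite _
  set c : ℝ := (Fintype.card (MaximalSpectrum Λ) : ℝ) + 1 with hc
  have hc0 : 0 < c := by positivity
  have hI : ∀ I : MaximalSpectrum Λ, ∃ N : ℕ, 0 < N ∧ ∀ n, N ≤ n → ∀ m : ℕ,
      (m : ℝ) ≤ (lam - η) * n →
      ∑ H : Fin m → τ × (Fin (l + 2) ↪ Fin n), (∏ j, dw π (l + 2) n (H j)) *
        fracBad (fun i j => GoodL a H i j I) ≤ ε / c := by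
    intro I
    haveI := I.isMaximal
    letI := Ideal.Quotient.field I.asIdeal
    have hane : ∀ t i, Ideal.Quotient.mk I.asIdeal (a t i) ≠ 0 := by
      intro t i h
      exact ((ha t i).map (Ideal.Quotient.mk I.asIdeal)).ne_zero h
    obtain ⟨N, hN0, hN⟩ := good_prob (F := Λ ⧸ I.asIdeal)
      (a := fun t s => Ideal.Quotient.mk I.asIdeal (a t s)) hπ0 hπ1 hane hl h0 hη hlam
      (show 0 < ε / c by positivity)
    refine ⟨N, hN0, fun n hn m hm => ?_⟩
    have := hN n hn m hm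
    unfold GoodL fracBad
    convert this using 2
  choose N hN0 hN using hI
  refine ⟨∑ I, N I + 1, by omega, fun n hn m hm => ?_⟩
  have hle : ∀ I, N I ≤ n := by
    intro I
    have := Finset.single_le_sum (f := N) (fun i _ => Nat.zero_le _) (Finset.mem_univ I)
    omega
  have hw : ∀ H : Fin m → τ × (Fin (l + 2) ↪ Fin n), 0 ≤ ∏ j, dw π (l + 2) n (H j) :=
    fun H => Finset.prod_nonneg fun j _ => dw_nonneg hπ0 _ _ _
  calc _ ≤ ∑ H : Fin m → τ × (Fin (l + 2) ↪ Fin n), (∏ j, dw π (l + 2) n (H j)) *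
        ∑ I, fracBad (fun i j => GoodL a H i j I) :=
        Finset.sum_le_sum fun H _ => mul_le_mul_of_nonneg_left
          (fracBad_forall fun I i j => GoodL a H i j I) (hw H)
    _ = ∑ I, ∑ H : Fin m → τ × (Fin (l + 2) ↪ Fin n), (∏ j, dw π (l + 2) n (H j)) *
        fracBad (fun i j => GoodL a H i j I) := by
        rw [Finset.sum_comm]
        refine Finset.sum_congr rfl fun H _ => ?_
        rw [Finset.mul_sum]
    _ ≤ ∑ I : MaximalSpectrum Λ, ε / c := Finset.sum_le_sum fun I _ => hN I n (hle I) m hm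
    _ ≤ ε := by
        rw [Finset.sum_const, Finset.card_univ, nsmul_eq_mul, hc, ← mul_div_assoc,
          div_le_iff₀ (by positivity)]
        nlinarith

end module

end Pool.Agent.H519_UE
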