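import Pool.Agent.H519_UE.Field

/-!
# From fields to finite modules over finite commutative rings
-/

set_option linter.all false

namespace Pool.Agent.H519_UE

open scoped BigOperators
open Filter Topology

section good

variable {F : Type*} [Field F] {l : ℕ} {τ : Type*}

/-- the rows together with the pins `i`, `j` are linearly independent -/
def GoodF (a : τ → Fin (l + 2) → F) {n m : ℕ} (H : Fin m → τ × (Fin (l + 2) ↪ Fin n))
    (i j : Fin n) : Prop :=
  (∀ s, ¬ InOthers a (fun s => fgt (H s)) s) ∧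
  (e (i : ℕ) : ℕ →₀ F) ∉ (rowSpan a (fun s => fgt (H s))).1 ∧
  (e (j : ℕ) : ℕ →₀ F) ∉ ((rowSpan a (fun s => fgt (H s))).add (e (i : ℕ))).1

lemma rowSpan_val (a : τ → Fin (l + 2) → F) {n m : ℕ} (H : Fin m → τ × (Fin (l + 2) → Fin n)) :
    (rowSpan a H).1 = Submodule.span F (Set.range fun s => rowv a (H s)) := by
  unfold rowSpan
  rw [FSub.addF_val]
  show ⊥ ⊔ _ = _
  exact bot_sup_eq _

/-- every relation is trivial -/
lemma GoodF.rel {a : τ → Fin (l + 2) → F} {n m : ℕ} {H : Fin m → τ × (Fin (l + 2) ↪ Fin n)}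
    {i j : Fin n} (h : GoodF a H i j) (y : Fin m → F) (α β : F)
    (hrel : ∑ s, y s • rowv a (fgt (H s)) + α • e (i : ℕ) + β • e (j : ℕ) = 0) :
    y = 0 ∧ α = 0 ∧ β = 0 := by
  classical
  obtain ⟨h1, h2, h3⟩ := h
  have hsum : ∑ s, y s • rowv a (fgt (H s)) ∈ (rowSpan a (fun s => fgt (H s))).1 := by
    rw [rowSpan_val]
    exact Submodule.sum_mem _ fun s _ => Submodule.smul_mem _ _ (Submodule.subset_span ⟨s, rfl⟩)
  have hβ : β = 0 := by
    by_contra hne
    apply h3
    have h4 : β • (e (j : ℕ) : ℕ →₀ F) = -(∑ s, y s • rowv a (fgt (H s)) + α • e (i : ℕ)) := by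
      rw [eq_neg_iff_add_eq_zero, add_comm]; exact hrel
    have h5 : β • (e (j : ℕ) : ℕ →₀ F) ∈ ((rowSpan a (fun s => fgt (H s))).add (e (i : ℕ))).1 := by
      rw [h4]
      apply Submodule.neg_mem
      apply Submodule.add_mem
      · exact (FSub.le_add _ _) hsum
      · exact Submodule.smul_mem _ _ (FSub.mem_add _ _)
    have h6 := Submodule.smul_mem _ β⁻¹ h5
    rwa [smul_smul, inv_mul_cancel₀ hne, one_smul] at h6
  subst hβ
  rw [zero_smul, add_zero] at hrel
  have hα : α = 0 := by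
    by_contra hne
    apply h2
    have h4 : α • (e (i : ℕ) : ℕ →₀ F) = -(∑ s, y s • rowv a (fgt (H s))) := by
      rw [eq_neg_iff_add_eq_zero, add_comm]; exact hrel
    have h5 : α • (e (i : ℕ) : ℕ →₀ F) ∈ (rowSpan a (fun s => fgt (H s))).1 := by
      rw [h4]
      exact Submodule.neg_mem _ hsum
    have h6 := Submodule.smul_mem _ α⁻¹ h5
    rwa [smul_smul, inv_mul_cancel₀ hne, one_smul] at h6
  subst hα
  rw [zero_smul, add_zero] at hrel
  refine ⟨?_, rfl, rfl⟩
  funext s
  by_contra hne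
  exact h1 s (mem_of_rel (fun s => rowv a (fgt (H s))) y hrel s hne)

end good

section module

variable {Λ : Type*} [CommRing Λ] {G : Type*} [AddCommGroup G] [Module Λ G] {l : ℕ} {τ : Type*}

/-- values of all constraints and of two variables -/
def evMap (a : τ → Fin (l + 2) → Λ) {n m : ℕ} (H : Fin m → τ × (Fin (l + 2) ↪ Fin n))
    (i j : Fin n) : (Fin n → G) →ₗ[Λ] (Fin m → G) × G × G :=
  LinearMap.prod (LinearMap.pi fun s => ∑ t, a (H s).1 t • LinearMap.proj ((H s).2 t))
    (LinearMap.prod (LinearMap.proj i) (LinearMap.proj j))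

lemma evMap_apply (a : τ → Fin (l + 2) → Λ) {n m : ℕ} (H : Fin m → τ × (Fin (l + 2) ↪ Fin n))
    (i j : Fin n) (x : Fin n → G) :
    evMap a H i j x = (fun s => ∑ t, a (H s).1 t • x ((H s).2 t), x i, x j) := by
  unfold evMap
  ext s <;> simp

/-- goodness modulo every maximal ideal -/
def GoodL (a : τ → Fin (l + 2) → Λ) {n m : ℕ} (H : Fin m → τ × (Fin (l + 2) ↪ Fin n))
    (i j : Fin n) (I : MaximalSpectrum Λ) : Prop :=
  haveI := I.isMaximal
  letI := Ideal.Quotient.field I.asIdeal
  GoodF (F := Λ ⧸ I.asIdeal) (fun t s => Ideal.Quotient.mk I.asIdeal (a t s)) H i j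

theorem evMap_surjective [Finite G] (a : τ → Fin (l + 2) → Λ) {n m : ℕ}
    (H : Fin m → τ × (Fin (l + 2) ↪ Fin n)) (i j : Fin n)
    (hgood : ∀ I : MaximalSpectrum Λ, GoodL a H i j I) :
    Function.Surjective (evMap (G := G) a H i j) := by
  classical
  rw [← LinearMap.range_eq_top]
  rcases eq_top_or_exists_le_coatom (LinearMap.range (evMap (G := G) a H i j)) with h | ⟨N, hN, hle⟩
  · exact h
  exfalso
  have hs : IsSimpleModule Λ (((Fin m → G) × G × G) ⧸ N) := isSimpleModule_iff_isCoatom.mpr hN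
  obtain ⟨I, hI, ⟨eq⟩⟩ := isSimpleModule_iff_quot_maximal.mp hs
  have hg := hgood ⟨I, hI⟩
  unfold GoodL at hg
  letI := Ideal.Quotient.field I
  -- the functional
  set φ : ((Fin m → G) × G × G) →ₗ[Λ] (Λ ⧸ I) := eq.toLinearMap ∘ₗ N.mkQ with hφ
  have hφ0 : ∀ x, φ (evMap a H i j x) = 0 := by
    intro x
    have : evMap a H i j x ∈ N := hle ⟨x, rfl⟩
    rw [hφ, LinearMap.comp_apply, Submodule.mkQ_apply, (Submodule.Quotient.mk_eq_zero N).mpr this]
    simp
  have hφne : ∃ z, φ z ≠ 0 := by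
    by_contra hall
    push Not at hall
    have hN' : N = ⊤ := by
      rw [Submodule.eq_top_iff']
      intro z
      have := hall z
      rw [hφ, LinearMap.comp_apply] at this
      have h2 : N.mkQ z = 0 := by
        have h3 : eq.toLinearMap (N.mkQ z) = eq (N.mkQ z) := rfl
        rw [h3] at this
        exact eq.map_eq_zero_iff.mp this
      exact (Submodule.Quotient.mk_eq_zero N).mp h2
    exact hN.1 hN'
  -- components
  set f1 : Fin m → G → Λ ⧸ I := fun s g => φ (Pi.single s g, 0, 0) with hf1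
  set f2 : G → Λ ⧸ I := fun g => φ (0, g, 0) with hf2
  set f3 : G → Λ ⧸ I := fun g => φ (0, 0, g) with hf3
  have hdec : ∀ (y : Fin m → G) (g g' : G), φ (y, g, g') = ∑ s, f1 s (y s) + f2 g + f3 g' := by
    intro y g g'
    have h1 : (y, g, g') = ∑ s, ((Pi.single s (y s), 0, 0) : (Fin m → G) × G × G)
        + (0, g, 0) + (0, 0, g') := by
      have h2 : ∑ s, ((Pi.single s (y s), 0, 0) : (Fin m → G) × G × G) = (y, 0, 0) := by
        have h3 : ∑ s, ((Pi.single s (y s), 0, 0) : (Fin m → G) × G × G)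
            = (∑ s, Pi.single s (y s), 0, 0) := by
          ext1
          · rw [Prod.fst_sum]
          · rw [Prod.snd_sum]; simp
        rw [h3, Finset.univ_sum_single]
      rw [h2]; simp
    rw [h1, map_add, map_add, map_sum]
  have hf1s : ∀ s (c : Λ) (g : G), f1 s (c • g) = Ideal.Quotient.mk I c * f1 s g := by
    intro s c g
    have : ((Pi.single s (c • g), 0, 0) : (Fin m → G) × G × G) = c • (Pi.single s g, 0, 0) := by
      ext1
      · simp [Pi.single_smul]
      · simp
    rw [hf1]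
    simp only
    rw [this, map_smul, Algebra.smul_def]
    rfl
  have hφ00 : φ ((0 : Fin m → G), (0 : G), (0 : G)) = 0 := map_zero φ
  have hf10 : ∀ s, f1 s 0 = 0 := by
    intro s; rw [hf1]; simp [hφ00]
  have hf1sum : ∀ s (T : Finset (Fin (l + 2))) (z : Fin (l + 2) → G),
      f1 s (∑ t ∈ T, z t) = ∑ t ∈ T, f1 s (z t) := by
    intro s T z
    have h2 : ∀ z1 z2 : G, f1 s (z1 + z2) = f1 s z1 + f1 s z2 := by
      intro z1 z2
      rw [hf1]; simp only
      rw [← map_add]
      congr 1
      ext1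
      · simp [Pi.single_add]
      · simp
    induction T using Finset.induction_on with
    | empty => simp [hf10]
    | insert t T ht ih => rw [Finset.sum_insert ht, Finset.sum_insert ht, h2, ih]
  -- the relation for every g
  have hrel : ∀ g : G, ∑ s, f1 s g • rowv (F := Λ ⧸ I)
        (fun t s => Ideal.Quotient.mk I (a t s)) (fgt (H s))
      + f2 g • e (i : ℕ) + f3 g • e (j : ℕ) = 0 := by
    intro g
    apply Finsupp.ext
    intro v
    simp only [Finsupp.coe_add, Pi.add_apply, Finsupp.coe_zero, Pi.zero_apply, Finsupp.smul_apply,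
      Finsupp.finset_sum_apply, smul_eq_mul]
    by_cases hv : v < n
    · have h0 := hφ0 (Pi.single ⟨v, hv⟩ g)
      rw [evMap_apply, hdec] at h0
      have e1 : ∀ w : Fin n, ((Pi.single (⟨v, hv⟩ : Fin n) g : Fin n → G) w)
          = if (w : ℕ) = v then g else 0 := by
        intro w
        by_cases hw : w = ⟨v, hv⟩
        · subst hw; simp
        · rw [Pi.single_eq_of_ne hw, if_neg]
          intro h; exact hw (Fin.ext h)
      have e2 : f2 ((Pi.single (⟨v, hv⟩ : Fin n) g : Fin n → G) i) = f2 g * (e (i : ℕ) : ℕ →₀ (Λ ⧸ I)) v := by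
        rw [e1, e_apply]
        by_cases h : (i : ℕ) = v
        · rw [if_pos h, if_pos h, mul_one]
        · rw [if_neg h, if_neg h, mul_zero, hf2]; simp [hφ00]
      have e3 : f3 ((Pi.single (⟨v, hv⟩ : Fin n) g : Fin n → G) j) = f3 g * (e (j : ℕ) : ℕ →₀ (Λ ⧸ I)) v := by
        rw [e1, e_apply]
        by_cases h : (j : ℕ) = v
        · rw [if_pos h, if_pos h, mul_one]
        · rw [if_neg h, if_neg h, mul_zero, hf3]; simp [hφ00]
      have e4 : ∀ s, f1 s (∑ t, a (H s).1 t • (Pi.single (⟨v, hv⟩ : Fin n) g : Fin n → G) ((H s).2 t))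
          = f1 s g * rowv (F := Λ ⧸ I)
        (fun t s => Ideal.Quotient.mk I (a t s)) (fgt (H s)) v := by
        intro s
        rw [hf1sum]
        unfold rowv fgt
        rw [Finsupp.finset_sum_apply, Finset.mul_sum]
        refine Finset.sum_congr rfl fun t _ => ?_
        rw [hf1s, Finsupp.smul_apply, e_apply, e1, smul_eq_mul]
        by_cases h : (((H s).2 t : Fin n) : ℕ) = v
        · rw [if_pos h, if_pos h]; ring
        · rw [if_neg h, if_neg h, hf10]; ring
      rw [e2, e3, Finset.sum_congr rfl fun s _ => e4 s] at h0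
      exact h0
    · have e1 : ∀ w : Fin n, (e (w : ℕ) : ℕ →₀ (Λ ⧸ I)) v = 0 := by
        intro w
        rw [e_apply, if_neg]
        intro h; exact hv (h ▸ w.isLt)
      rw [e1, e1, mul_zero, mul_zero, add_zero, add_zero]
      apply Finset.sum_eq_zero
      intro s _
      unfold rowv fgt
      rw [Finsupp.finset_sum_apply]
      have : ∀ t, ((Ideal.Quotient.mk I (a (H s).1 t)) • (e (((H s).2 t : Fin n) : ℕ) : ℕ →₀ (Λ ⧸ I))) v = 0 := by
        intro t
        rw [Finsupp.smul_apply, e1, smul_zero]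
      rw [Finset.sum_eq_zero fun t _ => this t, mul_zero]
  obtain ⟨⟨y, g, g'⟩, hz⟩ := hφne
  apply hz
  rw [hdec]
  have h1 : ∀ s, f1 s (y s) = 0 := by
    intro s
    have := (GoodF.rel hg _ _ _ (hrel (y s))).1
    exact congrFun this s
  rw [Finset.sum_eq_zero fun s _ => h1 s, (GoodF.rel hg _ _ _ (hrel g)).2.1,
    (GoodF.rel hg _ _ _ (hrel g')).2.2]
  simp

end module

end Pool.Agent.H519_UE
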