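import Mathlib

/-!
# Random uniquely extendable constraint systems: the model and the threshold

Everything the main statement uses is defined here.
-/

namespace Pool.Agent.H519_UE

open scoped BigOperators

/-! ### Constraint functions -/

/-- A `k`-ary constraint function on the spin set `Ω`; `ψ x = true` means `x ⊨ ψ`. -/
abbrev Con (k : ℕ) (Ω : Type) := (Fin k → Ω) → Bool

/-- `ψ` is uniquely extendable: for every position `i` and every choice of the other `k - 1`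
entries there is exactly one spin in position `i` for which the resulting tuple satisfies `ψ`. -/
def IsUE {k : ℕ} {Ω : Type} (ψ : Con k Ω) : Prop :=
  ∀ (i : Fin k) (x : Fin k → Ω), ∃! s : Ω, ψ (Function.update x i s) = true

/-- The concatenation `σ η`: the first `d` entries are those of `σ`, the remaining `k - d` entries
are those of `η`. -/
def glue {k : ℕ} {Ω : Type} (d : ℕ) (σ η : Fin k → Ω) : Fin k → Ω :=
  fun i => if (i : ℕ) < d then σ i else η i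

/-- `Ψ` is reducible: for all `d ≤ k`, if `σ η ⊨ ψ`, `σ' η ⊨ ψ` and `σ η' ⊨ ψ'` then
`σ' η' ⊨ ψ'`, for all `ψ, ψ'` in `Ψ`. -/
def Reducible {k : ℕ} {Ω : Type} (Ψ : Set (Con k Ω)) : Prop :=
  ∀ d ≤ k, ∀ σ σ' η η' : Fin k → Ω, ∀ ψ ∈ Ψ, ∀ ψ' ∈ Ψ,
    ψ (glue d σ η) = true → ψ (glue d σ' η) = true → ψ' (glue d σ η') = true →
      ψ' (glue d σ' η') = true

/-- All functions obtained from members of `Ψ` by permuting the `k` positions. -/
def permClosure {k : ℕ} {Ω : Type} (Ψ : Set (Con k Ω)) : Set (Con k Ω) :=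
  {ψ | ∃ ψ₀ ∈ Ψ, ∃ θ : Equiv.Perm (Fin k), ψ = fun x => ψ₀ (x ∘ θ)}

/-- The tuple `σ s` with first `k - 1` entries `σ` and last entry `s`. -/
def addLast {k : ℕ} {Ω : Type} (σ : Fin (k - 1) → Ω) (s : Ω) : Fin k → Ω :=
  fun i => if h : (i : ℕ) < k - 1 then σ ⟨i, h⟩ else s

/-- Index set of the `(k - 1) ^ i` arguments of the members of `F_i(Ψ)`. -/
def Leaf (k : ℕ) : ℕ → Type
  | 0 => Unit
  | i + 1 => Fin (k - 1) × Leaf k i

/-- `F_i(Ψ)`: `F_0(Ψ)` consists of the identity, and `F_{i+1}(Ψ)` of the functions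
`(σ_1, …, σ_{k-1}) ↦ f_ψ (h_1 σ_1, …, h_{k-1} σ_{k-1})` with `ψ ∈ Ψ` and `h_j ∈ F_i(Ψ)`, where
`f_ψ` is the map with `σ (f_ψ σ) ⊨ ψ` for all `σ`. -/
def treeFn {k : ℕ} {Ω : Type} (Ψ : Set (Con k Ω)) : (i : ℕ) → Set ((Leaf k i → Ω) → Ω)
  | 0 => {fun s => s ()}
  | i + 1 => {g | ∃ ψ ∈ Ψ, ∃ f : (Fin (k - 1) → Ω) → Ω, (∀ σ, ψ (addLast σ (f σ)) = true) ∧
      ∃ h : Fin (k - 1) → ((Leaf k i → Ω) → Ω), (∀ j, h j ∈ treeFn Ψ i) ∧
        g = fun s => f fun j => h j fun x => s (j, x)}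

/-- The function `g` of the variables indexed by `ι` is symmetric. -/
def SymmFn {ι Ω : Type} (g : (ι → Ω) → Ω) : Prop :=
  ∀ (θ : Equiv.Perm ι) (s : ι → Ω), g (s ∘ θ) = g s

/-- `Ψ` is affine: for some abelian group structure on `Ω`, every `ψ ∈ Ψ` is an equation
`A_{ψ,1} x_1 + … + A_{ψ,k} x_k = c_ψ`, where the `A_{ψ,i}` are pairwise commuting automorphisms. -/
def AffineFam {k : ℕ} {Ω : Type} (Ψ : Set (Con k Ω)) : Prop :=
  ∃ (_ : AddCommGroup Ω) (A : Con k Ω → Fin k → (Ω ≃+ Ω)) (c : Con k Ω → Ω),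
    (∀ ψ ∈ Ψ, ∀ ψ' ∈ Ψ, ∀ i i' x, A ψ i (A ψ' i' x) = A ψ' i' (A ψ i x)) ∧
    ∀ ψ ∈ Ψ, ∀ x, ψ x = true ↔ ∑ i, A ψ i (x i) = c ψ

/-! ### The random instance -/

/-- An outcome of `H_n(π, k, m)`: each of the `m` constraints has a function and an ordered
`k`-tuple of distinct variables. -/
abbrev Inst (k : ℕ) (Ω : Type) (n m : ℕ) := Fin m → Con k Ω × (Fin k ↪ Fin n)

open Classical in
/-- Probability of the event `E` for `H_n(π, k, m)`: the `m` constraints are independent, the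
function of each is drawn from `π` and its tuple of variables is uniform and independent. -/
noncomputable def Pr {k : ℕ} {Ω : Type} [Fintype Ω] [DecidableEq Ω] (π : Con k Ω → ℝ) (n m : ℕ)
    (E : Inst k Ω n m → Prop) : ℝ :=
  ∑ H : Inst k Ω n m, if E H then ∏ j, (π (H j).1 / (Fintype.card (Fin k ↪ Fin n) : ℝ)) else 0

/-- The set of solutions. -/
def Sol {k : ℕ} {Ω : Type} [Fintype Ω] [DecidableEq Ω] {n m : ℕ} (H : Inst k Ω n m) :
    Finset (Fin n → Ω) :=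
  Finset.univ.filter fun x => ∀ j, (H j).1 (fun i => x ((H j).2 i)) = true

/-- `P[x_u = σ, x_v = s]` for a uniformly random solution `x` and independent uniformly random
variables `u`, `v`. -/
noncomputable def pairProb {k : ℕ} {Ω : Type} [Fintype Ω] [DecidableEq Ω] {n m : ℕ}
    (H : Inst k Ω n m) (σ s : Ω) : ℝ :=
  (∑ x ∈ Sol H, ∑ u : Fin n, ∑ v : Fin n, if x u = σ ∧ x v = s then (1 : ℝ) else 0)
    / (((Sol H).card : ℝ) * (n : ℝ) ^ 2)

/-! ### The threshold -/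

/-- `ρ_{k,d} = sup {x ∈ [0,1] : x = 1 - exp (-d x^{k-1})}` -/
noncomputable def rho (k : ℕ) (d : ℝ) : ℝ :=
  sSup {x : ℝ | 0 ≤ x ∧ x ≤ 1 ∧ x = 1 - Real.exp (-(d * x ^ (k - 1)))}

/-- `d_k = inf {d > 0 : ρ_{k,d} - d ρ_{k,d}^{k-1} + (1 - 1/k) d ρ_{k,d}^k < 0}` -/
noncomputable def dk (k : ℕ) : ℝ :=
  sInf {d : ℝ | 0 < d ∧
    rho k d - d * rho k d ^ (k - 1) + (1 - 1 / (k : ℝ)) * d * rho k d ^ k < 0}

end Pool.Agent.H519_UE
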