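import Pool.Agent.H519_UE.Main
import Pool.Agent.H519_UE.Model

/-!
# The theorem for systems of equations over a finite module
-/

set_option linter.all false

namespace Pool.Agent.H519_UE

open scoped BigOperators
open Filter Topology

section count

variable {Λ : Type*} [CommRing Λ] {l : ℕ} {Ω : Type} [Fintype Ω] [DecidableEq Ω]
  [AddCommGroup Ω] [Module Λ Ω] {π : Con (l + 2) Ω → ℝ}
  {a : Con (l + 2) Ω → Fin (l + 2) → Λ} {c : Con (l + 2) Ω → Ω}

lemma mem_Sol_iff (hsupp : ∀ ψ, π ψ ≠ 0 → ∀ x, ψ x = true ↔ ∑ i, a ψ i • x i = c ψ)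
    {n m : ℕ} (H : Inst (l + 2) Ω n m) (hH : ∀ j, π (H j).1 ≠ 0) (x : Fin n → Ω) :
    x ∈ Sol H ↔ ∀ j, ∑ i, a (H j).1 i • x ((H j).2 i) = c (H j).1 := by
  unfold Sol
  rw [Finset.mem_filter]
  constructor
  · rintro ⟨-, h⟩ j
    exact (hsupp _ (hH j) _).mp (h j)
  · intro h
    exact ⟨Finset.mem_univ _, fun j => (hsupp _ (hH j) _).mpr (h j)⟩

/-- the number of solutions with prescribed values at `u`, `v` -/
def cnt {k n m : ℕ} (H : Inst k Ω n m) (u v : Fin n) (σ s : Ω) : ℕ :=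
  ((Sol H).filter fun x => x u = σ ∧ x v = s).card

omit [AddCommGroup Ω] in
lemma cnt_sum {k n m : ℕ} (H : Inst k Ω n m) (u v : Fin n) :
    ∑ p : Ω × Ω, cnt H u v p.1 p.2 = (Sol H).card := by
  classical
  unfold cnt
  rw [Finset.card_eq_sum_card_fiberwise (f := fun x : Fin n → Ω => (x u, x v)) (t := Finset.univ)
    (fun _ _ => Finset.mem_coe.mpr (Finset.mem_univ _))]
  refine Finset.sum_congr rfl fun p _ => ?_
  congr 1
  ext x
  simp only [Finset.mem_filter, Prod.ext_iff]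

lemma cnt_le (hsupp : ∀ ψ, π ψ ≠ 0 → ∀ x, ψ x = true ↔ ∑ i, a ψ i • x i = c ψ)
    {n m : ℕ} (H : Inst (l + 2) Ω n m) (hH : ∀ j, π (H j).1 ≠ 0) (u v : Fin n)
    (hg : Function.Surjective (evMap (G := Ω) a H u v)) (σ s σ' s' : Ω) :
    cnt H u v σ s ≤ cnt H u v σ' s' := by
  obtain ⟨z, hz⟩ := hg (0, σ' - σ, s' - s)
  rw [evMap_apply] at hz
  have hz1 : ∀ j, ∑ t, a (H j).1 t • z ((H j).2 t) = 0 := fun j => congrFun (congrArg Prod.fst hz) j
  have hz2 : z u = σ' - σ := congrArg (fun p => p.2.1) hz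
  have hz3 : z v = s' - s := congrArg (fun p => p.2.2) hz
  unfold cnt
  apply Finset.card_le_card_of_injOn (fun x => x + z)
  · intro x hx
    simp only [Finset.coe_filter, Set.mem_setOf_eq] at hx ⊢
    obtain ⟨h1, h2, h3⟩ := hx
    refine ⟨?_, ?_, ?_⟩
    · rw [mem_Sol_iff hsupp H hH] at h1 ⊢
      intro j
      simp only [Pi.add_apply, smul_add, Finset.sum_add_distrib, hz1 j, add_zero]
      exact h1 j
    · rw [Pi.add_apply, h2, hz2]; abel
    · rw [Pi.add_apply, h3, hz3]; abel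
  · intro x _ y _ h
    exact add_right_cancel h

lemma cnt_eq (hsupp : ∀ ψ, π ψ ≠ 0 → ∀ x, ψ x = true ↔ ∑ i, a ψ i • x i = c ψ)
    {n m : ℕ} (H : Inst (l + 2) Ω n m) (hH : ∀ j, π (H j).1 ≠ 0) (u v : Fin n)
    (hg : Function.Surjective (evMap (G := Ω) a H u v)) (σ s : Ω) :
    Fintype.card Ω ^ 2 * cnt H u v σ s = (Sol H).card := by
  rw [← cnt_sum H u v]
  have : ∀ p : Ω × Ω, cnt H u v p.1 p.2 = cnt H u v σ s := fun p =>
    le_antisymm (cnt_le hsupp H hH u v hg _ _ _ _) (cnt_le hsupp H hH u v hg _ _ _ _)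
  rw [Finset.sum_congr rfl fun p _ => this p, Finset.sum_const, Finset.card_univ,
    Fintype.card_prod, smul_eq_mul, sq]

lemma Sol_nonempty (hsupp : ∀ ψ, π ψ ≠ 0 → ∀ x, ψ x = true ↔ ∑ i, a ψ i • x i = c ψ)
    {n m : ℕ} (H : Inst (l + 2) Ω n m) (hH : ∀ j, π (H j).1 ≠ 0) (u v : Fin n)
    (hg : Function.Surjective (evMap (G := Ω) a H u v)) : (Sol H).Nonempty := by
  obtain ⟨z, hz⟩ := hg (fun j => c (H j).1, 0, 0)
  rw [evMap_apply] at hz
  refine ⟨z, ?_⟩
  rw [mem_Sol_iff hsupp H hH]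
  exact fun j => congrFun (congrArg Prod.fst hz) j

omit [AddCommGroup Ω] in
lemma pairProb_eq {k n m : ℕ} (H : Inst k Ω n m) (σ s : Ω) :
    pairProb H σ s = ∑ u : Fin n, ∑ v : Fin n, (1 / (n : ℝ)) * ((1 / (n : ℝ)) *
      ((cnt H u v σ s : ℝ) / ((Sol H).card : ℝ))) := by
  unfold pairProb cnt
  have h1 : ∑ x ∈ Sol H, ∑ u : Fin n, ∑ v : Fin n, (if x u = σ ∧ x v = s then (1 : ℝ) else 0)
      = ∑ u : Fin n, ∑ v : Fin n, (((Sol H).filter fun x => x u = σ ∧ x v = s).card : ℝ) := by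
    rw [Finset.sum_comm]
    refine Finset.sum_congr rfl fun u _ => ?_
    rw [Finset.sum_comm]
    refine Finset.sum_congr rfl fun v _ => ?_
    rw [Finset.sum_boole]
  rw [h1, Finset.sum_div]
  refine Finset.sum_congr rfl fun u _ => ?_
  rw [Finset.sum_div]
  refine Finset.sum_congr rfl fun v _ => ?_
  by_cases h : ((Sol H).card : ℝ) = 0
  · rw [h]; simp
  · have hn : (n : ℝ) ≠ 0 := by
      have := u.pos
      positivity
    field_simp

lemma pairProb_close (hsupp : ∀ ψ, π ψ ≠ 0 → ∀ x, ψ x = true ↔ ∑ i, a ψ i • x i = c ψ)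
    {n m : ℕ} (hn : 0 < n) (H : Inst (l + 2) Ω n m) (hH : ∀ j, π (H j).1 ≠ 0)
    (hS : (Sol H).Nonempty) (hq : 0 < Fintype.card Ω)
    (G : Fin n → Fin n → Prop) (hG : ∀ u v, G u v → Function.Surjective (evMap (G := Ω) a H u v))
    (σ s : Ω) :
    |pairProb H σ s - 1 / (Fintype.card Ω : ℝ) ^ 2| ≤ fracBad G := by
  classical
  have hn' : (0 : ℝ) < n := by exact_mod_cast hn
  have hq' : (1 : ℝ) ≤ (Fintype.card Ω : ℝ) ^ 2 := by
    have : (1 : ℝ) ≤ (Fintype.card Ω : ℝ) := by exact_mod_cast hq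
    nlinarith
  have hS' : (0 : ℝ) < ((Sol H).card : ℝ) := by exact_mod_cast hS.card_pos
  have h1 : (1 : ℝ) / (Fintype.card Ω : ℝ) ^ 2 = ∑ u : Fin n, ∑ v : Fin n, (1 / (n : ℝ)) *
      ((1 / (n : ℝ)) * (1 / (Fintype.card Ω : ℝ) ^ 2)) := by
    simp only [Finset.sum_const, Finset.card_univ, Fintype.card_fin, nsmul_eq_mul]
    field_simp
  rw [pairProb_eq, h1, ← Finset.sum_sub_distrib]
  unfold fracBad
  refine (Finset.abs_sum_le_sum_abs _ _).trans (Finset.sum_le_sum fun u _ => ?_)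
  rw [← Finset.sum_sub_distrib]
  refine (Finset.abs_sum_le_sum_abs _ _).trans (Finset.sum_le_sum fun v _ => ?_)
  rw [← mul_sub, ← mul_sub, abs_mul, abs_mul, abs_of_nonneg (show (0 : ℝ) ≤ 1 / (n : ℝ) by positivity)]
  apply mul_le_mul_of_nonneg_left _ (by positivity)
  apply mul_le_mul_of_nonneg_left _ (by positivity)
  by_cases hg : G u v
  · rw [if_pos hg]
    have h2 := cnt_eq hsupp H hH u v (hG u v hg) σ s
    have h3 : (Fintype.card Ω : ℝ) ^ 2 * (cnt H u v σ s : ℝ) = ((Sol H).card : ℝ) := by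
      exact_mod_cast h2
    rw [← h3]
    have h4 : (cnt H u v σ s : ℝ) ≠ 0 := by
      intro h
      rw [h, mul_zero] at h3
      linarith
    have h5 : (cnt H u v σ s : ℝ) / ((Fintype.card Ω : ℝ) ^ 2 * (cnt H u v σ s : ℝ))
        = 1 / (Fintype.card Ω : ℝ) ^ 2 := by
      field_simp
    rw [h5, sub_self, abs_zero]
  · rw [if_neg hg]
    have h2 : (cnt H u v σ s : ℝ) ≤ ((Sol H).card : ℝ) := by
      unfold cnt
      exact_mod_cast Finset.card_filter_le _ _
    have h3 : (cnt H u v σ s : ℝ) / ((Sol H).card : ℝ) ≤ 1 := by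
      rw [div_le_one hS']; exact h2
    have h4 : 0 ≤ (cnt H u v σ s : ℝ) / ((Sol H).card : ℝ) := by positivity
    have h5 : (1 : ℝ) / (Fintype.card Ω : ℝ) ^ 2 ≤ 1 := by
      rw [div_le_one (by positivity)]; exact hq'
    have h6 : (0 : ℝ) ≤ 1 / (Fintype.card Ω : ℝ) ^ 2 := by positivity
    rw [abs_le]
    constructor <;> linarith

end count

section main

variable {Λ : Type*} [CommRing Λ] [Finite Λ] {l : ℕ} {Ω : Type} [Fintype Ω] [DecidableEq Ω]
  [AddCommGroup Ω] [Module Λ Ω] {π : Con (l + 2) Ω → ℝ}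
  {a : Con (l + 2) Ω → Fin (l + 2) → Λ} {c : Con (l + 2) Ω → Ω}

theorem module_main (hl : 1 ≤ l) (hπ0 : ∀ ψ, 0 ≤ π ψ) (hπ1 : ∑ ψ, π ψ = 1)
    (ha : ∀ t i, IsUnit (a t i))
    (hsupp : ∀ ψ, π ψ ≠ 0 → ∀ x, ψ x = true ↔ ∑ i, a ψ i • x i = c ψ)
    {ε δ η : ℝ} (hε : 0 < ε) (hδ : 0 < δ) (hη : 0 < η) :
    ∃ N : ℕ, ∀ n, N ≤ n → ∀ m : ℕ, (m : ℝ) < (dk (l + 2) / ((l + 2 : ℕ) : ℝ) - ε) * n →
      1 - η ≤ Pr π n m (fun H => (Sol H).Nonempty ∧ ∀ σ s : Ω,
        |pairProb H σ s - 1 / (Fintype.card Ω : ℝ) ^ 2| ≤ δ) := by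
  classical
  have hk0 : (0 : ℝ) < ((l + 2 : ℕ) : ℝ) := by positivity
  have hk : ((l + 2 : ℕ) : ℝ) = (l : ℝ) + 2 := by push_cast; ring
  by_cases hcase : dk (l + 2) / ((l + 2 : ℕ) : ℝ) - ε ≤ 0
  · refine ⟨0, fun n _ m hm => ?_⟩
    exfalso
    have h1 : (0 : ℝ) ≤ m := Nat.cast_nonneg m
    have h2 : (0 : ℝ) ≤ n := Nat.cast_nonneg n
    nlinarith [mul_nonneg h2 (neg_nonneg.mpr hcase)]
  push Not at hcase
  set lam : ℝ := dk (l + 2) / ((l + 2 : ℕ) : ℝ) - ε / 2 with hlam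
  have hlam0 : 0 < lam := by linarith
  have hlam1 : lam * ((l : ℝ) + 2) < dk (l + 2) := by
    rw [hlam, sub_mul, ← hk, div_mul_cancel₀ _ hk0.ne']
    nlinarith
  set δ' : ℝ := min δ (1 / 2) with hδ'
  have hδ'0 : 0 < δ' := lt_min hδ (by norm_num)
  obtain ⟨N, hN0, hN⟩ := goodL_prob (a := a) hπ0 hπ1 ha hl hlam0 (show 0 < ε / 2 by positivity)
    hlam1 (show 0 < η * δ' by positivity)
  refine ⟨max N (l + 2), fun n hn m hm => ?_⟩
  have hnN : N ≤ n := (le_max_left _ _).trans hn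
  have hnk : l + 2 ≤ n := (le_max_right _ _).trans hn
  have hn0 : 0 < n := by omega
  have hmm : (m : ℝ) ≤ (lam - ε / 2) * n := by
    have : lam - ε / 2 = dk (l + 2) / ((l + 2 : ℕ) : ℝ) - ε := by rw [hlam]; ring
    rw [this]; exact hm.le
  have hb := hN n hnN m hmm
  have htot := dw_total (π := π) hπ1 hnk m
  have hw : ∀ H : Inst (l + 2) Ω n m, 0 ≤ ∏ j, dw π (l + 2) n (H j) :=
    fun H => Finset.prod_nonneg fun j _ => dw_nonneg hπ0 _ _ _
  have key : ∀ H : Inst (l + 2) Ω n m, ∏ j, dw π (l + 2) n (H j)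
      ≤ (if ((Sol H).Nonempty ∧ ∀ σ s : Ω,
        |pairProb H σ s - 1 / (Fintype.card Ω : ℝ) ^ 2| ≤ δ) then
          ∏ j, (π (H j).1 / (Fintype.card (Fin (l + 2) ↪ Fin n) : ℝ)) else 0)
        + (1 / δ') * ((∏ j, dw π (l + 2) n (H j)) * fracBad (GoodAll a H)) := by
    intro H
    have hf := fracBad_nonneg (GoodAll a H)
    have h0 : 0 ≤ (1 / δ') * ((∏ j, dw π (l + 2) n (H j)) * fracBad (GoodAll a H)) :=
      mul_nonneg (by positivity) (mul_nonneg (hw H) hf)
    split_ifs with hE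
    · have : ∏ j, dw π (l + 2) n (H j)
          = ∏ j, (π (H j).1 / (Fintype.card (Fin (l + 2) ↪ Fin n) : ℝ)) := rfl
      linarith
    · rw [zero_add]
      by_cases hz : ∃ j, π (H j).1 = 0
      · obtain ⟨j, hj⟩ := hz
        have : ∏ j, dw π (l + 2) n (H j) = 0 := by
          apply Finset.prod_eq_zero (Finset.mem_univ j)
          unfold dw
          rw [hj, zero_div]
        rw [this]; simp
      · push Not at hz
        have hsmall : δ' < fracBad (GoodAll a H) := by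
          by_contra hle
          push Not at hle
          apply hE
          have hex : ∃ u v, GoodAll a H u v := by
            by_contra hno
            push Not at hno
            have h1 : fracBad (GoodAll a H) = 1 := by
              unfold fracBad
              have hn' : (n : ℝ) ≠ 0 := by positivity
              have : ∀ i j : Fin n, (1 / (n : ℝ)) * ((1 / (n : ℝ)) *
                (if GoodAll a H i j then (0 : ℝ) else 1)) = (1 / (n : ℝ)) * (1 / (n : ℝ)) := by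
                intro i j
                rw [if_neg (hno i j), mul_one]
              simp only [this, Finset.sum_const, Finset.card_univ, Fintype.card_fin, nsmul_eq_mul]
              field_simp
            have h2 : δ' ≤ 1 / 2 := min_le_right _ _
            linarith
          obtain ⟨u, v, huv⟩ := hex
          have hS := Sol_nonempty hsupp H hz u v (evMap_surjective a H u v huv)
          have hq : 0 < Fintype.card Ω := by
            haveI : Nonempty Ω := ⟨0⟩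
            exact Fintype.card_pos
          refine ⟨hS, fun σ s => ?_⟩
          exact (pairProb_close hsupp hn0 H hz hS hq (GoodAll a H)
            (fun u v h => evMap_surjective a H u v h) σ s).trans (hle.trans (min_le_left _ _))
        have h1 : 1 ≤ (1 / δ') * fracBad (GoodAll a H) := by
          rw [one_div, ← div_eq_inv_mul, le_div_iff₀ hδ'0]; linarith
        calc ∏ j, dw π (l + 2) n (H j) = (∏ j, dw π (l + 2) n (H j)) * 1 := (mul_one _).symm
          _ ≤ (∏ j, dw π (l + 2) n (H j)) * ((1 / δ') * fracBad (GoodAll a H)) :=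
            mul_le_mul_of_nonneg_left h1 (hw H)
          _ = _ := by ring
  have hsum := Finset.sum_le_sum fun (H : Inst (l + 2) Ω n m) (_ : H ∈ Finset.univ) => key H
  rw [Finset.sum_add_distrib, ← Finset.mul_sum] at hsum
  have hPr : Pr π n m (fun H => (Sol H).Nonempty ∧ ∀ σ s : Ω,
        |pairProb H σ s - 1 / (Fintype.card Ω : ℝ) ^ 2| ≤ δ)
      = ∑ H : Inst (l + 2) Ω n m, (if ((Sol H).Nonempty ∧ ∀ σ s : Ω,
        |pairProb H σ s - 1 / (Fintype.card Ω : ℝ) ^ 2| ≤ δ) then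
          ∏ j, (π (H j).1 / (Fintype.card (Fin (l + 2) ↪ Fin n) : ℝ)) else 0) := by
    unfold Pr
    refine Finset.sum_congr rfl fun H _ => ?_
    congr 1
  rw [hPr]
  have htot' : ∑ H : Inst (l + 2) Ω n m, ∏ j, dw π (l + 2) n (H j) = 1 := htot
  have hb' : (1 / δ') * ∑ H : Inst (l + 2) Ω n m, (∏ j, dw π (l + 2) n (H j)) *
        fracBad (GoodAll a H) ≤ η := by
    rw [one_div, ← div_eq_inv_mul, div_le_iff₀ hδ'0]
    exact hb
  linarith

end main

end Pool.Agent.H519_UE
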