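import Mathlib

/-!
# Averaging operators on functionals of finite dimensional subspaces

`FSub F` is the set of finite dimensional subspaces of `ℕ →₀ F`.  For a vector `v`, the operator
`T v` sends a functional `φ` to `R ↦ φ (R + span v)`.  All these operators commute.  Random linear
systems are encoded by products of convex combinations of these operators.
-/

set_option linter.all false

namespace Pool.Agent.H519_UE

open scoped BigOperators

variable {F : Type*} [Field F]

/-- finite dimensional subspaces of `ℕ →₀ F` -/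
def FSub (F : Type*) [Field F] : Type _ :=
  {R : Submodule F (ℕ →₀ F) // FiniteDimensional F R}

instance : PartialOrder (FSub F) := inferInstanceAs (PartialOrder {R : Submodule F (ℕ →₀ F) // FiniteDimensional F R})

/-- the zero subspace -/
noncomputable def FSub.zero : FSub F := ⟨⊥, inferInstance⟩

/-- adjoin a vector -/
noncomputable def FSub.add (R : FSub F) (v : ℕ →₀ F) : FSub F :=
  ⟨R.1 ⊔ Submodule.span F {v}, by
    haveI := R.2
    infer_instance⟩

@[simp] lemma FSub.add_val (R : FSub F) (v : ℕ →₀ F) :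
    (R.add v).1 = R.1 ⊔ Submodule.span F {v} := rfl

lemma FSub.le_iff (R S : FSub F) : R ≤ S ↔ R.1 ≤ S.1 := Iff.rfl

lemma FSub.le_add (R : FSub F) (v : ℕ →₀ F) : R ≤ R.add v := by
  rw [FSub.le_iff]; exact le_sup_left

lemma FSub.add_mono {R S : FSub F} (h : R ≤ S) (v : ℕ →₀ F) : R.add v ≤ S.add v := by
  rw [FSub.le_iff] at h ⊢
  exact sup_le_sup_right h _

lemma FSub.add_comm (R : FSub F) (v w : ℕ →₀ F) : (R.add v).add w = (R.add w).add v := by
  apply Subtype.ext
  simp only [FSub.add_val]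
  exact sup_right_comm _ _ _

lemma FSub.mem_add (R : FSub F) (v : ℕ →₀ F) : v ∈ (R.add v).1 := by
  rw [FSub.add_val]
  exact Submodule.mem_sup_right (Submodule.mem_span_singleton_self v)

/-- functionals -/
abbrev Fn (F : Type*) [Field F] := FSub F → ℝ

/-- operators -/
abbrev Op (F : Type*) [Field F] := Module.End ℝ (Fn F)

/-- the translation operator -/
noncomputable def T (v : ℕ →₀ F) : Op F := LinearMap.funLeft ℝ ℝ (fun R : FSub F => R.add v)

lemma T_apply (v : ℕ →₀ F) (φ : Fn F) (R : FSub F) : T v φ R = φ (R.add v) := rfl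

lemma T_comm (v w : ℕ →₀ F) : Commute (T v : Op F) (T w) := by
  show T v * T w = T w * T v
  apply LinearMap.ext; intro φ; funext R
  show φ ((R.add v).add w) = φ ((R.add w).add v)
  rw [FSub.add_comm]

/-- weighted average of translation operators -/
noncomputable def Av {ι : Type*} [Fintype ι] (c : ι → ℝ) (v : ι → (ℕ →₀ F)) : Op F :=
  ∑ i, c i • T (v i)

lemma Av_apply {ι : Type*} [Fintype ι] (c : ι → ℝ) (v : ι → (ℕ →₀ F)) (φ : Fn F) (R : FSub F) :
    Av c v φ R = ∑ i, c i * φ (R.add (v i)) := by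
  simp [Av, LinearMap.sum_apply, Finset.sum_apply, T_apply]

/-- a functional which grows by at most one when a vector is adjoined -/
def Lip (φ : Fn F) : Prop := ∀ R v, φ (R.add v) ≤ φ R + 1

/-- Markov operators built from translations -/
structure IsMk (Q : Op F) : Prop where
  pos : ∀ φ ψ : Fn F, (∀ R, φ R ≤ ψ R) → ∀ R, Q φ R ≤ Q ψ R
  one : ∀ c : ℝ, Q (fun _ => c) = fun _ => c
  mono : ∀ φ : Fn F, Monotone φ → Monotone (Q φ)
  ge : ∀ φ : Fn F, Monotone φ → ∀ R, φ R ≤ Q φ R
  lip : ∀ φ : Fn F, Lip φ → Lip (Q φ)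
  comm : ∀ v, Commute Q (T v)

lemma IsMk.T (v : ℕ →₀ F) : IsMk (T v : Op F) where
  pos φ ψ h R := h _
  one c := rfl
  mono φ h R S hRS := h (FSub.add_mono hRS v)
  ge φ h R := h (FSub.le_add R v)
  lip φ h R w := by
    show φ ((R.add w).add v) ≤ φ (R.add v) + 1
    rw [FSub.add_comm]; exact h _ _
  comm w := T_comm v w

lemma IsMk.id : IsMk (1 : Op F) where
  pos φ ψ h R := h R
  one c := rfl
  mono φ h := h
  ge φ h R := le_refl _
  lip φ h := h
  comm w := Commute.one_left _

lemma IsMk.mul {Q Q' : Op F} (h : IsMk Q) (h' : IsMk Q') : IsMk (Q * Q') where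
  pos φ ψ hle R := h.pos _ _ (h'.pos _ _ hle) R
  one c := by
    show Q (Q' _) = _
    rw [h'.one, h.one]
  mono φ hφ := h.mono _ (h'.mono _ hφ)
  ge φ hφ R := by
    show φ R ≤ Q (Q' φ) R
    exact (h'.ge φ hφ R).trans (h.ge _ (h'.mono _ hφ) R)
  lip φ hφ := h.lip _ (h'.lip _ hφ)
  comm v := (h.comm v).mul_left (h'.comm v)

lemma IsMk.pow {Q : Op F} (h : IsMk Q) (n : ℕ) : IsMk (Q ^ n) := by
  induction n with
  | zero => rw [pow_zero]; exact IsMk.id
  | succ n ih => rw [pow_succ]; exact ih.mul h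

/-- convex combinations -/
lemma IsMk.sum {ι : Type*} (s : Finset ι) (c : ι → ℝ) (Q : ι → Op F)
    (hc : ∀ i ∈ s, 0 ≤ c i) (hs : ∑ i ∈ s, c i = 1) (hQ : ∀ i ∈ s, IsMk (Q i)) :
    IsMk (∑ i ∈ s, c i • Q i) := by
  have happ : ∀ (φ : Fn F) (R : FSub F),
      (∑ i ∈ s, c i • Q i) φ R = ∑ i ∈ s, c i * Q i φ R := by
    intro φ R
    simp [LinearMap.sum_apply, Finset.sum_apply]
  refine ⟨?_, ?_, ?_, ?_, ?_, ?_⟩
  · intro φ ψ h R
    rw [happ, happ]
    exact Finset.sum_le_sum fun i hi => mul_le_mul_of_nonneg_left ((hQ i hi).pos _ _ h R) (hc i hi)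
  · intro a
    funext R
    rw [happ]
    have : ∀ i ∈ s, c i * Q i (fun _ => a) R = c i * a := fun i hi => by rw [(hQ i hi).one]
    rw [Finset.sum_congr rfl this, ← Finset.sum_mul, hs, one_mul]
  · intro φ hφ R S hRS
    rw [happ, happ]
    exact Finset.sum_le_sum fun i hi => mul_le_mul_of_nonneg_left ((hQ i hi).mono _ hφ hRS) (hc i hi)
  · intro φ hφ R
    rw [happ]
    calc φ R = ∑ i ∈ s, c i * φ R := by rw [← Finset.sum_mul, hs, one_mul]
      _ ≤ _ := Finset.sum_le_sum fun i hi =>
        mul_le_mul_of_nonneg_left ((hQ i hi).ge _ hφ R) (hc i hi)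
  · intro φ hφ R v
    rw [happ, happ]
    calc ∑ i ∈ s, c i * Q i φ (R.add v) ≤ ∑ i ∈ s, c i * (Q i φ R + 1) :=
          Finset.sum_le_sum fun i hi => mul_le_mul_of_nonneg_left ((hQ i hi).lip _ hφ R v) (hc i hi)
      _ = ∑ i ∈ s, c i * Q i φ R + 1 := by
          simp only [mul_add, mul_one, Finset.sum_add_distrib, hs]
  · intro v
    exact Commute.sum_left _ _ _ fun i hi => ((hQ i hi).comm v).smul_left (c i)

lemma IsMk.Av {ι : Type*} [Fintype ι] (c : ι → ℝ) (v : ι → (ℕ →₀ F))
    (hc : ∀ i, 0 ≤ c i) (hs : ∑ i, c i = 1) : IsMk (Av c v) :=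
  IsMk.sum _ c (fun i => Pool.Agent.H519_UE.T (v i)) (fun i _ => hc i) hs fun i _ => IsMk.T _

lemma IsMk.convex {Q Q' : Op F} (h : IsMk Q) (h' : IsMk Q') {p : ℝ} (hp0 : 0 ≤ p) (hp1 : p ≤ 1) :
    IsMk ((1 - p) • Q + p • Q') := by
  have := IsMk.sum (F := F) (Finset.univ : Finset (Fin 2)) ![1 - p, p] ![Q, Q']
    (by intro i _; fin_cases i <;> simp <;> linarith)
    (by simp [Fin.sum_univ_two]) (by intro i _; fin_cases i <;> simp [h, h'])
  simpa [Fin.sum_univ_two] using this

/-- anything commuting with translations commutes with averages -/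
lemma IsMk.comm_Av {Q : Op F} (h : IsMk Q) {ι : Type*} [Fintype ι] (c : ι → ℝ)
    (v : ι → (ℕ →₀ F)) : Commute Q (Pool.Agent.H519_UE.Av c v) := by
  unfold Pool.Agent.H519_UE.Av
  exact Commute.sum_right _ _ _ fun i _ => (h.comm (v i)).smul_right (c i)

/-- the rank functional -/
noncomputable def rk : Fn F := fun R => (Module.finrank F R.1 : ℝ)

/-- the basis vectors -/
noncomputable def e (i : ℕ) : ℕ →₀ F := Finsupp.single i 1

open Classical in
lemma rk_add (R : FSub F) (v : ℕ →₀ F) :
    rk (R.add v) = rk R + 1 - (if v ∈ R.1 then 1 else 0) := by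
  haveI := R.2
  by_cases hv : v ∈ R.1
  · have : R.add v = R := by
      apply Subtype.ext
      rw [FSub.add_val]
      exact sup_eq_left.mpr ((Submodule.span_singleton_le_iff_mem _ _).mpr hv)
    rw [this, if_pos hv]; ring
  · have h1 : Module.finrank F (R.add v).1 = Module.finrank F R.1 + 1 := by
      rw [FSub.add_val]
      have hne : v ≠ 0 := fun h => hv (h ▸ R.1.zero_mem)
      have hdisj : R.1 ⊓ Submodule.span F {v} = ⊥ := by
        rw [eq_bot_iff]
        intro x hx
        obtain ⟨hx1, hx2⟩ := Submodule.mem_inf.mp hx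
        obtain ⟨a, rfl⟩ := Submodule.mem_span_singleton.mp hx2
        by_cases ha : a = 0
        · simp [ha]
        · exfalso; apply hv
          have := R.1.smul_mem a⁻¹ hx1
          rwa [smul_smul, inv_mul_cancel₀ ha, one_smul] at this
      have := Submodule.finrank_sup_add_finrank_inf_eq R.1 (Submodule.span F {v})
      rw [hdisj, finrank_bot, add_zero, finrank_span_singleton hne] at this
      exact this
    simp only [rk, h1, hv, if_false]
    push_cast; ring

lemma rk_mono : Monotone (rk : Fn F) := by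
  intro R S h
  haveI := S.2
  unfold rk
  exact_mod_cast Submodule.finrank_mono h

lemma rk_lip : Lip (rk : Fn F) := by
  classical
  intro R v
  rw [rk_add]
  split_ifs <;> linarith

lemma rk_zero : rk (FSub.zero : FSub F) = 0 := by
  have : Module.finrank F (FSub.zero : FSub F).1 = 0 := finrank_bot F _
  simp [rk, this]

end Pool.Agent.H519_UE
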