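import Pool.Agent.H519_UE.Ops

/-!
# Pins and random sparse rows
-/

set_option linter.all false

namespace Pool.Agent.H519_UE

open scoped BigOperators

variable {F : Type*} [Field F]

open Classical in
/-- indicator of the event that `v` lies in the subspace -/
noncomputable def ind (v : ℕ →₀ F) : Fn F := fun R => if v ∈ R.1 then 1 else 0

lemma ind_nonneg (v : ℕ →₀ F) (R : FSub F) : 0 ≤ ind v R := by
  unfold ind; split_ifs <;> norm_num

lemma ind_le_one (v : ℕ →₀ F) (R : FSub F) : ind v R ≤ 1 := by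
  unfold ind; split_ifs <;> norm_num

lemma ind_of_mem {v : ℕ →₀ F} {R : FSub F} (h : v ∈ R.1) : ind v R = 1 := if_pos h
lemma ind_of_not_mem {v : ℕ →₀ F} {R : FSub F} (h : v ∉ R.1) : ind v R = 0 := if_neg h

lemma ind_mono (v : ℕ →₀ F) : Monotone (ind v : Fn F) := by
  intro R S h
  by_cases hv : v ∈ R.1
  · rw [ind_of_mem hv, ind_of_mem (h hv)]
  · rw [ind_of_not_mem hv]; exact ind_nonneg _ _

lemma rk_add' (R : FSub F) (v : ℕ →₀ F) : rk (R.add v) = rk R + 1 - ind v R := by
  classical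
  rw [rk_add]; unfold ind; congr 1

/-- fraction of frozen variables among the first `n` -/
noncomputable def X (n : ℕ) : Fn F := fun R => ∑ i : Fin n, (1 / (n : ℝ)) * ind (e i) R

lemma X_nonneg (n : ℕ) (R : FSub F) : 0 ≤ X n R :=
  Finset.sum_nonneg fun i _ => mul_nonneg (by positivity) (ind_nonneg _ _)

lemma X_le_one (n : ℕ) (R : FSub F) : X n R ≤ 1 := by
  unfold X
  calc _ ≤ ∑ i : Fin n, (1 / (n : ℝ)) * 1 :=
        Finset.sum_le_sum fun i _ => mul_le_mul_of_nonneg_left (ind_le_one _ _) (by positivity)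
    _ ≤ 1 := by
      simp only [mul_one, Finset.sum_const, Finset.card_univ, Fintype.card_fin, nsmul_eq_mul]
      rcases Nat.eq_zero_or_pos n with h | h
      · simp [h]
      · rw [mul_one_div_cancel]; positivity

lemma X_mono (n : ℕ) : Monotone (X n : Fn F) := by
  intro R S h
  exact Finset.sum_le_sum fun i _ => mul_le_mul_of_nonneg_left (ind_mono _ h) (by positivity)

/-- adjoin finitely many vectors -/
noncomputable def FSub.addF {ι : Type*} [Finite ι] (R : FSub F) (s : ι → (ℕ →₀ F)) : FSub F :=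
  ⟨R.1 ⊔ Submodule.span F (Set.range s), by
    haveI := R.2
    haveI : FiniteDimensional F (Submodule.span F (Set.range s)) :=
      FiniteDimensional.span_of_finite F (Set.finite_range s)
    infer_instance⟩

lemma FSub.addF_val {ι : Type*} [Finite ι] (R : FSub F) (s : ι → (ℕ →₀ F)) :
    (R.addF s).1 = R.1 ⊔ Submodule.span F (Set.range s) := rfl

lemma FSub.addF_empty (R : FSub F) (s : Fin 0 → (ℕ →₀ F)) : R.addF s = R := by
  apply Subtype.ext
  rw [FSub.addF_val]
  simp

lemma FSub.le_addF {ι : Type*} [Finite ι] (R : FSub F) (s : ι → (ℕ →₀ F)) : R ≤ R.addF s := by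
  rw [FSub.le_iff, FSub.addF_val]; exact le_sup_left

lemma FSub.mem_addF {ι : Type*} [Finite ι] (R : FSub F) (s : ι → (ℕ →₀ F)) (i : ι) :
    s i ∈ (R.addF s).1 := by
  rw [FSub.addF_val]
  exact Submodule.mem_sup_right (Submodule.subset_span ⟨i, rfl⟩)

lemma range_insertNth {α β : Type*} {l : ℕ} (j : Fin (l + 1)) (x : α) (u : Fin l → α) (f : α → β) :
    Set.range (fun i => f ((Fin.insertNth j x u : Fin (l + 1) → α) i))
      = insert (f x) (Set.range (fun i => f (u i))) := by
  ext y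
  simp only [Set.mem_range, Set.mem_insert_iff]
  constructor
  · rintro ⟨i, rfl⟩
    rcases Fin.eq_self_or_eq_succAbove j i with h | ⟨i', h⟩
    · left; rw [h, Fin.insertNth_apply_same]
    · right; exact ⟨i', by rw [h, Fin.insertNth_apply_succAbove]⟩
  · rintro (h | ⟨i', h⟩)
    · exact ⟨j, by rw [h, Fin.insertNth_apply_same]⟩
    · exact ⟨j.succAbove i', by rw [← h, Fin.insertNth_apply_succAbove]⟩

lemma addF_insertNth {α : Type*} {l : ℕ} (R : FSub F) (f : α → (ℕ →₀ F)) (j : Fin (l + 1)) (x : α)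
    (u : Fin l → α) :
    R.addF (fun i => f ((Fin.insertNth j x u : Fin (l + 1) → α) i))
      = (R.addF (fun i => f (u i))).add (f x) := by
  apply Subtype.ext
  rw [FSub.addF_val, FSub.add_val, FSub.addF_val, range_insertNth, Submodule.span_insert,
    sup_assoc]
  congr 1
  exact sup_comm _ _

/-- splitting a sum over functions on `Fin (l+1)` at coordinate `j` -/
lemma sum_insertNth {α : Type*} [Fintype α] {l : ℕ} (j : Fin (l + 1))
    (G : (Fin (l + 1) → α) → ℝ) :
    ∑ u, G u = ∑ u' : Fin l → α, ∑ x : α, G (Fin.insertNth j x u') := by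
  rw [← Finset.sum_product', Finset.univ_product_univ]
  symm
  exact Fintype.sum_equiv ((Equiv.prodComm _ _).trans (Fin.insertNthEquiv (fun _ => α) j)) _ _
    (fun p => rfl)

/-- one random pin -/
noncomputable def P (n : ℕ) : Op F := Av (fun _ : Fin n => 1 / (n : ℝ)) (fun i => e (i : ℕ))

lemma P_isMk {n : ℕ} (hn : 0 < n) : IsMk (P n : Op F) := by
  apply IsMk.Av
  · intro i; positivity
  · simp; field_simp

lemma P_apply (n : ℕ) (φ : Fn F) (R : FSub F) :
    P n φ R = ∑ i : Fin n, (1 / (n : ℝ)) * φ (R.add (e i)) := Av_apply _ _ _ _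

/-- `l` random pins -/
lemma P_pow_apply (n l : ℕ) (φ : Fn F) (R : FSub F) :
    (P n ^ l) φ R = ∑ u : Fin l → Fin n, (1 / (n : ℝ) ^ l) * φ (R.addF (fun j => e (u j : ℕ))) := by
  induction l generalizing φ R with
  | zero =>
    simp only [pow_zero, Module.End.one_apply, Fintype.sum_unique, div_one, one_mul]
    rw [FSub.addF_empty]
  | succ l ih =>
    rw [pow_succ, Module.End.mul_apply, ih]
    rw [sum_insertNth 0]
    apply Finset.sum_congr rfl
    intro u _
    rw [P_apply, Finset.mul_sum]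
    apply Finset.sum_congr rfl
    intro x _
    rw [addF_insertNth (α := Fin n) R (fun i => (e (i : ℕ) : ℕ →₀ F)) 0 x u]
    rw [pow_succ]
    ring

/-- random row with coefficients `c` -/
noncomputable def Wc (n l : ℕ) (c : Fin l → F) : Op F :=
  Av (fun _ : Fin l → Fin n => 1 / (n : ℝ) ^ l) (fun u => ∑ j, c j • e (u j : ℕ))

lemma Wc_isMk {n : ℕ} (hn : 0 < n) (l : ℕ) (c : Fin l → F) : IsMk (Wc n l c) := by
  apply IsMk.Av
  · intro i; positivity
  · simp; field_simp

lemma Wc_apply (n l : ℕ) (c : Fin l → F) (φ : Fn F) (R : FSub F) :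
    Wc n l c φ R
      = ∑ u : Fin l → Fin n, (1 / (n : ℝ) ^ l) * φ (R.add (∑ j, c j • e (u j : ℕ))) :=
  Av_apply _ _ _ _

lemma Wc_le_P (n l : ℕ) (c : Fin l → F) (φ : Fn F) (hφ : Monotone φ) (R : FSub F) :
    Wc n l c φ R ≤ (P n ^ l) φ R := by
  rw [Wc_apply, P_pow_apply]
  apply Finset.sum_le_sum
  intro u _
  apply mul_le_mul_of_nonneg_left _ (by positivity)
  apply hφ
  rw [FSub.le_iff, FSub.add_val, FSub.addF_val]
  apply sup_le_sup_left
  rw [Submodule.span_singleton_le_iff_mem]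
  exact Submodule.sum_mem _ fun j _ => Submodule.smul_mem _ _ (Submodule.subset_span ⟨j, rfl⟩)

lemma X_pow (n l : ℕ) (R : FSub F) :
    X n R ^ l = ∑ u : Fin l → Fin n, (1 / (n : ℝ) ^ l) * ∏ j, ind (e (u j : ℕ)) R := by
  unfold X
  rw [Fintype.sum_pow]
  apply Finset.sum_congr rfl
  intro u _
  rw [Finset.prod_mul_distrib]
  simp

lemma sum_const_one {n : ℕ} (hn : 0 < n) (l : ℕ) :
    ∑ u : Fin l → Fin n, (1 / (n : ℝ) ^ l) = 1 := by
  simp; field_simp

/-- upper bound for the expected growth of the rank -/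
lemma Wc_rk_le {n : ℕ} (hn : 0 < n) (l : ℕ) (c : Fin l → F) (R : FSub F) :
    Wc n l c rk R ≤ rk R + 1 - X n R ^ l := by
  have h1 : rk R + 1 = ∑ u : Fin l → Fin n, (1 / (n : ℝ) ^ l) * (rk R + 1) := by
    rw [← Finset.sum_mul, sum_const_one hn, one_mul]
  rw [Wc_apply, X_pow, h1, ← Finset.sum_sub_distrib]
  apply Finset.sum_le_sum
  intro u _
  rw [← mul_sub]
  apply mul_le_mul_of_nonneg_left _ (by positivity)
  rw [rk_add']
  have : ∏ j, ind (e (u j : ℕ)) R ≤ ind (∑ j, c j • e (u j : ℕ)) R := by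
    by_cases h : ∀ j, (e (u j : ℕ) : ℕ →₀ F) ∈ R.1
    · rw [ind_of_mem (v := ∑ j, c j • e (u j : ℕ))]
      · exact Finset.prod_le_one (fun j _ => ind_nonneg _ _) (fun j _ => ind_le_one _ _)
      · exact Submodule.sum_mem _ fun j _ => Submodule.smul_mem _ _ (h j)
    · push Not at h
      obtain ⟨j, hj⟩ := h
      rw [Finset.prod_eq_zero (Finset.mem_univ j) (ind_of_not_mem hj)]
      exact ind_nonneg _ _
  linarith

/-- lower bound for the expected growth of the rank -/
lemma Wc_rk_ge {n : ℕ} (hn : 0 < n) (l : ℕ) (c : Fin (l + 1) → F) (hc : ∀ j, c j ≠ 0)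
    (R : FSub F) :
    rk R + 1 - X n R ^ (l + 1) - (l + 1) * ((P n ^ l) (X n) R - X n R) ≤ Wc n (l + 1) c rk R := by
  have h1 : rk R + 1 = ∑ u : Fin (l + 1) → Fin n, (1 / (n : ℝ) ^ (l + 1)) * (rk R + 1) := by
    rw [← Finset.sum_mul, sum_const_one hn, one_mul]
  -- the correction term as a sum
  have h2 : ∀ j : Fin (l + 1), (P n ^ l) (X n) R - X n R
      = ∑ u : Fin (l + 1) → Fin n, (1 / (n : ℝ) ^ (l + 1)) *
          (ind (e (u j : ℕ)) (R.addF (fun i => e (u (j.succAbove i) : ℕ))) - ind (e (u j : ℕ)) R) := by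
    intro j
    rw [P_pow_apply, sum_insertNth j]
    have h3 : X n R = ∑ u : Fin l → Fin n, (1 / (n : ℝ) ^ l) * X n R := by
      rw [← Finset.sum_mul, sum_const_one hn, one_mul]
    rw [h3, ← Finset.sum_sub_distrib]
    apply Finset.sum_congr rfl
    intro u _
    rw [← mul_sub]
    unfold X
    rw [← Finset.sum_sub_distrib, Finset.mul_sum]
    apply Finset.sum_congr rfl
    intro x _
    simp only [Fin.insertNth_apply_same, Fin.insertNth_apply_succAbove]
    rw [pow_succ]
    ring
  have h4 : (l + 1 : ℝ) * ((P n ^ l) (X n) R - X n R)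
      = ∑ u : Fin (l + 1) → Fin n, (1 / (n : ℝ) ^ (l + 1)) * ∑ j : Fin (l + 1),
          (ind (e (u j : ℕ)) (R.addF (fun i => e (u (j.succAbove i) : ℕ))) - ind (e (u j : ℕ)) R) := by
    have : (l + 1 : ℝ) * ((P n ^ l) (X n) R - X n R)
        = ∑ j : Fin (l + 1), ((P n ^ l) (X n) R - X n R) := by
      rw [Finset.sum_const, Finset.card_univ, Fintype.card_fin, nsmul_eq_mul]; push_cast; ring
    rw [this]
    conv_lhs => rw [Finset.sum_congr rfl fun j _ => h2 j]
    rw [Finset.sum_comm]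
    apply Finset.sum_congr rfl
    intro u _
    rw [Finset.mul_sum]
  rw [Wc_apply, X_pow, h1, h4, ← Finset.sum_sub_distrib, ← Finset.sum_sub_distrib]
  apply Finset.sum_le_sum
  intro u _
  rw [← mul_sub, ← mul_sub]
  apply mul_le_mul_of_nonneg_left _ (by positivity)
  rw [rk_add']
  have hnn : ∀ j : Fin (l + 1), 0 ≤
      (ind (e (u j : ℕ)) (R.addF (fun i => e (u (j.succAbove i) : ℕ))) - ind (e (u j : ℕ)) R) := by
    intro j
    have := ind_mono (F := F) (e (u j : ℕ)) (FSub.le_addF R (fun i => e (u (j.succAbove i) : ℕ)))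
    linarith
  have hkey : ind (∑ j, c j • e (u j : ℕ)) R ≤ ∏ j, ind (e (u j : ℕ)) R + ∑ j : Fin (l + 1),
          (ind (e (u j : ℕ)) (R.addF (fun i => e (u (j.succAbove i) : ℕ))) - ind (e (u j : ℕ)) R) := by
    by_cases hw : (∑ j, c j • (e (u j : ℕ) : ℕ →₀ F)) ∈ R.1
    · rw [ind_of_mem hw]
      by_cases h : ∀ j, (e (u j : ℕ) : ℕ →₀ F) ∈ R.1
      · have : ∏ j, ind (e (u j : ℕ)) R = 1 := Finset.prod_eq_one fun j _ => ind_of_mem (h j)
        rw [this]
        have := Finset.sum_nonneg fun j (_ : j ∈ Finset.univ) => hnn j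
        linarith
      · push Not at h
        obtain ⟨j, hj⟩ := h
        have hmem : (e (u j : ℕ) : ℕ →₀ F) ∈ (R.addF (fun i => e (u (j.succAbove i) : ℕ))).1 := by
          have h5 : ∑ j, c j • (e (u j : ℕ) : ℕ →₀ F) = c j • e (u j : ℕ)
              + ∑ i, c (j.succAbove i) • e (u (j.succAbove i) : ℕ) := Fin.sum_univ_succAbove _ j
          have h6 : c j • (e (u j : ℕ) : ℕ →₀ F) = ∑ j, c j • (e (u j : ℕ) : ℕ →₀ F)
              - ∑ i, c (j.succAbove i) • e (u (j.succAbove i) : ℕ) := by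
            rw [h5]; abel
          have h7 : c j • (e (u j : ℕ) : ℕ →₀ F) ∈ (R.addF (fun i => e (u (j.succAbove i) : ℕ))).1 := by
            rw [h6]
            apply Submodule.sub_mem
            · exact (FSub.le_addF R _) hw
            · exact Submodule.sum_mem _ fun i _ => Submodule.smul_mem _ _
                (FSub.mem_addF R (fun i => e (u (j.succAbove i) : ℕ)) i)
          have h8 := Submodule.smul_mem _ (c j)⁻¹ h7
          rwa [smul_smul, inv_mul_cancel₀ (hc j), one_smul] at h8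
        have h9 : ind (e (u j : ℕ)) (R.addF (fun i => e (u (j.succAbove i) : ℕ)))
            - ind (e (u j : ℕ)) R = 1 := by
          rw [ind_of_mem hmem, ind_of_not_mem hj]; ring
        have h10 := Finset.single_le_sum (fun j _ => hnn j) (Finset.mem_univ j)
        have h11 : 0 ≤ ∏ j, ind (e (u j : ℕ)) R := Finset.prod_nonneg fun j _ => ind_nonneg _ _
        linarith
    · rw [ind_of_not_mem hw]
      have h11 : 0 ≤ ∏ j, ind (e (u j : ℕ)) R := Finset.prod_nonneg fun j _ => ind_nonneg _ _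
      have := Finset.sum_nonneg fun j (_ : j ∈ Finset.univ) => hnn j
      linarith
  linarith

/-- average over the number of pins -/
noncomputable def A (n θ : ℕ) : Op F := ∑ t ∈ Finset.range θ, (1 / (θ : ℝ)) • P n ^ t

lemma A_isMk {n θ : ℕ} (hn : 0 < n) (hθ : 0 < θ) : IsMk (A n θ : Op F) := by
  apply IsMk.sum
  · intro i _; positivity
  · simp; field_simp
  · intro i _; exact (P_isMk hn).pow i

lemma A_apply (n θ : ℕ) (φ : Fn F) (R : FSub F) :
    A n θ φ R = ∑ t ∈ Finset.range θ, (1 / (θ : ℝ)) * (P n ^ t) φ R := by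
  simp [A, LinearMap.sum_apply, Finset.sum_apply]

/-- the telescoping estimate -/
lemma A_telescope {n θ : ℕ} (hn : 0 < n) (hθ : 0 < θ) (s : ℕ) (R : FSub F) :
    A n θ ((P n ^ s) (X n)) R - A n θ (X n) R ≤ s / θ := by
  induction s with
  | zero => simp
  | succ s ih =>
    have key : A n θ ((P n ^ (s + 1)) (X n)) R - A n θ ((P n ^ s) (X n)) R ≤ 1 / θ := by
      rw [A_apply, A_apply, ← Finset.sum_sub_distrib]
      have h1 : ∀ t, (P n ^ t) ((P n ^ (s + 1)) (X n)) R = (P n ^ (t + 1 + s)) (X n) R := by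
        intro t
        rw [← Module.End.mul_apply, ← pow_add, show t + (s + 1) = t + 1 + s by ring]
      have h2 : ∀ t, (P n ^ t) ((P n ^ s) (X n)) R = (P n ^ (t + s)) (X n) R := by
        intro t
        rw [← Module.End.mul_apply, ← pow_add]
      simp only [h1, h2, ← mul_sub]
      rw [← Finset.mul_sum, Finset.sum_range_sub (fun t => (P n ^ (t + s)) (X n) R)]
      have h3 : (P n ^ (θ + s)) (X n) R ≤ 1 := by
        have := ((P_isMk (F := F) hn).pow (θ + s)).pos (X n) (fun _ => 1) (fun R => X_le_one n R) R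
        rwa [((P_isMk (F := F) hn).pow (θ + s)).one] at this
      have h4 : 0 ≤ (P n ^ (0 + s)) (X n) R := by
        have := ((P_isMk (F := F) hn).pow (0 + s)).pos (fun _ => 0) (X n) (fun R => X_nonneg n R) R
        rwa [((P_isMk (F := F) hn).pow (0 + s)).one] at this
      calc 1 / (θ : ℝ) * ((P n ^ (θ + s)) (X n) R - (P n ^ (0 + s)) (X n) R)
          ≤ 1 / (θ : ℝ) * 1 := mul_le_mul_of_nonneg_left (by linarith) (by positivity)
        _ = 1 / θ := by ring
    push_cast
    rw [add_div]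
    linarith

end Pool.Agent.H519_UE
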