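import Pool.Agent.H519_UE.Model

/-!
# Reducible and symmetric families are affine
-/

set_option linter.all false

namespace Pool.Agent.H519_UE

open scoped BigOperators

lemma merge_all {K : Type*} [Fintype K] [DecidableEq K] {G X : Type*} [AddCommMonoid G]
    (Φ : (K → G) → X)
    (h : ∀ (y : K → G) (p q : K), p ≠ q →
      Φ y = Φ (Function.update (Function.update y p (y p + y q)) q 0))
    (y : K → G) (p : K) : Φ y = Φ (Function.update (fun _ => 0) p (∑ j, y j)) := by
  have key : ∀ T : Finset K, p ∉ T → Φ y = Φ (fun j => if j = p then y p + ∑ t ∈ T, y t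
      else if j ∈ T then 0 else y j) := by
    intro T
    induction T using Finset.induction_on with
    | empty =>
      intro _
      congr 1
      funext j
      by_cases hj : j = p
      · subst hj; simp
      · simp [hj]
    | insert t T ht ih =>
      intro hp
      rw [Finset.mem_insert, not_or] at hp
      rw [ih hp.2, h _ p t hp.1]
      congr 1
      funext j
      by_cases hjt : j = t
      · subst hjt
        rw [Function.update_self, if_neg (Ne.symm hp.1), if_pos (Finset.mem_insert_self _ _)]
      · rw [Function.update_of_ne hjt]
        by_cases hjp : j = p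
        · subst hjp
          rw [Function.update_self, if_pos rfl, if_pos rfl, if_neg (Ne.symm hp.1), if_neg ht,
            Finset.sum_insert ht]
          rw [add_assoc, add_comm (∑ t ∈ T, y t)]
        · rw [Function.update_of_ne hjp, if_neg hjp, if_neg hjp]
          by_cases hjT : j ∈ T
          · rw [if_pos hjT, if_pos (Finset.mem_insert_of_mem hjT)]
          · rw [if_neg hjT, if_neg]
            rw [Finset.mem_insert, not_or]
            exact ⟨hjt, hjT⟩
  rw [key (Finset.univ.erase p) (Finset.notMem_erase _ _)]
  congr 1
  funext j
  by_cases hjp : j = p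
  · subst hjp
    rw [if_pos rfl, Function.update_self, Finset.add_sum_erase _ _ (Finset.mem_univ _)]
  · rw [if_neg hjp, Function.update_of_ne hjp, if_pos]
    exact Finset.mem_erase.mpr ⟨hjp, Finset.mem_univ _⟩

lemma IsUE.uniq {k : ℕ} {Ω : Type} {ψ : Con k Ω} (h : IsUE ψ) {i : Fin k} {x : Fin k → Ω} {a b : Ω}
    (ha : ψ (Function.update x i a) = true) (hb : ψ (Function.update x i b) = true) : a = b :=
  (h i x).unique ha hb

lemma IsUE.ex {k : ℕ} {Ω : Type} {ψ : Con k Ω} (h : IsUE ψ) (i : Fin k) (x : Fin k → Ω) :
    ∃ s, ψ (Function.update x i s) = true := (h i x).exists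

/-! ### reducible families -/

section red

variable {k : ℕ} {Ω : Type} {Ψ : Set (Con k Ω)}

lemma mem_permClosure_self {ψ : Con k Ω} (h : ψ ∈ Ψ) : ψ ∈ permClosure Ψ :=
  ⟨ψ, h, 1, rfl⟩

lemma red_symm (hk : 3 ≤ k) [Nonempty Ω] (hUE : ∀ ψ ∈ Ψ, IsUE ψ)
    (hred : Reducible (permClosure Ψ)) {ψ : Con k Ω} (hψ : ψ ∈ Ψ) (θ : Equiv.Perm (Fin k))
    (x : Fin k → Ω) : ψ (x ∘ θ) = ψ x := by
  obtain ⟨ω⟩ := ‹Nonempty Ω›
  have hswap : ∀ (i j : Fin k), i ≠ j → ∀ x, ψ (x ∘ Equiv.swap i j) = ψ x := by
    intro i j hij x
    have ht : ∃ t : Fin k, t ≠ i ∧ t ≠ j := by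
      by_contra hno
      push Not at hno
      have h1 : (Finset.univ : Finset (Fin k)) ⊆ {i, j} := by
        intro t _
        rw [Finset.mem_insert, Finset.mem_singleton]
        by_cases h : t = i
        · exact Or.inl h
        · exact Or.inr (hno t h)
      have h2 := Finset.card_le_card h1
      have h3 : ({i, j} : Finset (Fin k)).card ≤ 2 := Finset.card_le_two
      rw [Finset.card_univ, Fintype.card_fin] at h2
      omega
    obtain ⟨t, hti, htj⟩ := ht
    obtain ⟨s, hs⟩ := (hUE ψ hψ).ex t (fun _ => ω)
    set z : Fin k → Ω := Function.update (fun _ => ω) t s with hz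
    have hzs : z ∘ Equiv.swap i j = z := by
      funext u
      rw [Function.comp_apply]
      by_cases hui : u = i
      · subst hui
        rw [Equiv.swap_apply_left, hz, Function.update_of_ne (Ne.symm htj),
          Function.update_of_ne (Ne.symm hti)]
      · by_cases huj : u = j
        · subst huj
          rw [Equiv.swap_apply_right, hz, Function.update_of_ne (Ne.symm htj),
            Function.update_of_ne (Ne.symm hti)]
        · rw [Equiv.swap_apply_of_ne_of_ne hui huj]
    have hψm := mem_permClosure_self hψ
    have hψ' : (fun x => ψ (x ∘ Equiv.swap i j)) ∈ permClosure Ψ := ⟨ψ, hψ, Equiv.swap i j, rfl⟩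
    have hgk : ∀ σ η : Fin k → Ω, glue k σ η = σ := by
      intro σ η
      funext u
      unfold glue
      rw [if_pos u.isLt]
    rw [Bool.eq_iff_iff]
    constructor
    · intro hx
      have := hred k le_rfl z x x x _ hψ' ψ hψm
      simp only [hgk, hzs] at this
      exact this hs hx hs
    · intro hx
      have := hred k le_rfl z x x x ψ hψm _ hψ'
      simp only [hgk, hzs] at this
      exact this hs hx hs
  induction θ using Equiv.Perm.swap_induction_on generalizing x with
  | one => rfl
  | swap_mul f a b hab ih =>
    have : x ∘ (Equiv.swap a b * f : Equiv.Perm (Fin k)) = (x ∘ Equiv.swap a b) ∘ f := rfl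
    rw [this, ih, hswap a b hab]

/-- two pairs are interchangeable in the first two positions once they are so somewhere -/
lemma red_pair {p0 p1 : Fin k} (h0 : (p0 : ℕ) = 0) (h1 : (p1 : ℕ) = 1) (hk : 2 ≤ k)
    (hred : Reducible (permClosure Ψ)) {ψ : Con k Ω} (hψ : ψ ∈ Ψ) {y : Fin k → Ω} {a b c d : Ω}
    (hab : ψ (Function.update (Function.update y p0 a) p1 b) = true)
    (hcd : ψ (Function.update (Function.update y p0 c) p1 d) = true)
    {ψ' : Con k Ω} (hψ' : ψ' ∈ Ψ) (z : Fin k → Ω) :
    ψ' (Function.update (Function.update z p0 a) p1 b)
      = ψ' (Function.update (Function.update z p0 c) p1 d) := by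
  have hg : ∀ (w y : Fin k → Ω) (a b : Ω), glue 2 (Function.update (Function.update w p0 a) p1 b) y
      = Function.update (Function.update y p0 a) p1 b := by
    intro w y a b
    funext u
    unfold glue
    by_cases hu1 : u = p1
    · subst hu1
      rw [if_pos (by omega), Function.update_self, Function.update_self]
    · by_cases hu0 : u = p0
      · subst hu0
        rw [if_pos (by omega), Function.update_of_ne hu1, Function.update_self,
          Function.update_of_ne hu1, Function.update_self]
      · have : ¬ ((u : ℕ) < 2) := by
          intro hlt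
          have : (u : ℕ) = 0 ∨ (u : ℕ) = 1 := by omega
          rcases this with h | h
          · exact hu0 (Fin.ext (by omega))
          · exact hu1 (Fin.ext (by omega))
        rw [if_neg this, Function.update_of_ne hu1, Function.update_of_ne hu0]
  have hm := mem_permClosure_self hψ
  have hm' := mem_permClosure_self hψ'
  rw [Bool.eq_iff_iff]
  constructor
  · intro h
    have := hred 2 hk (Function.update (Function.update z p0 a) p1 b)
      (Function.update (Function.update z p0 c) p1 d) y z ψ hm ψ' hm'
    rw [hg, hg, hg, hg] at this
    exact this hab hcd h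
  · intro h
    have := hred 2 hk (Function.update (Function.update z p0 c) p1 d)
      (Function.update (Function.update z p0 a) p1 b) y z ψ hm ψ' hm'
    rw [hg, hg, hg, hg] at this
    exact this hcd hab h

/-- an abelian group from its operation -/
@[reducible]
noncomputable def mkGroup {Ω : Type} (op : Ω → Ω → Ω) (z : Ω) (hc : ∀ a b, op a b = op b a)
    (hz : ∀ a, op a z = a) (ha : ∀ a b c, op (op a b) c = op a (op b c))
    (hi : ∀ a, ∃ b, op a b = z) : AddCommGroup Ω :=
  letI : Add Ω := ⟨op⟩
  letI : Zero Ω := ⟨z⟩
  letI : Neg Ω := ⟨fun a => (hi a).choose⟩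
  { AddGroup.ofLeftAxioms ha (fun a => (hc z a).trans (hz a))
      (fun a => (hc _ a).trans (hi a).choose_spec) with add_comm := hc }

theorem affine_of_reducible (hk : 4 ≤ k) [Nonempty Ω] (hne : Ψ.Nonempty)
    (hUE : ∀ ψ ∈ Ψ, IsUE ψ) (hred : Reducible (permClosure Ψ)) : AffineFam Ψ := by
  classical
  obtain ⟨ω⟩ := ‹Nonempty Ω›
  obtain ⟨ψ0, hψ0⟩ := hne
  have hsym : ∀ ψ ∈ Ψ, ∀ (θ : Equiv.Perm (Fin k)) (x : Fin k → Ω), ψ (x ∘ θ) = ψ x := by
    intro ψ hψ θ x
    haveI : Nonempty Ω := ⟨ω⟩
    exact red_symm (by omega) hUE hred hψ θ x
  set p0 : Fin k := ⟨0, by omega⟩ with hp0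
  set p1 : Fin k := ⟨1, by omega⟩ with hp1
  set p2 : Fin k := ⟨2, by omega⟩ with hp2
  set p3 : Fin k := ⟨3, by omega⟩ with hp3
  have h01 : p0 ≠ p1 := by rw [hp0, hp1]; simp
  have h02 : p0 ≠ p2 := by rw [hp0, hp2]; simp
  have h03 : p0 ≠ p3 := by rw [hp0, hp3]; simp
  have h12 : p1 ≠ p2 := by rw [hp1, hp2]; simp
  have h13 : p1 ≠ p3 := by rw [hp1, hp3]; simp
  have h23 : p2 ≠ p3 := by rw [hp2, hp3]; simp
  set Z : Fin k → Ω := fun _ => ω with hZ
  -- the operation
  have hop : ∀ a b : Ω, ∃ s : Ω, ∀ ψ ∈ Ψ, ∀ y : Fin k → Ω,
      ψ (Function.update (Function.update y p0 a) p1 b)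
        = ψ (Function.update (Function.update y p0 s) p1 ω) := by
    intro a b
    obtain ⟨t, ht⟩ := (hUE ψ0 hψ0).ex p3 (Function.update (Function.update Z p0 a) p1 b)
    obtain ⟨s, hs⟩ := (hUE ψ0 hψ0).ex p0 (Function.update Z p3 t)
    refine ⟨s, fun ψ hψ y => ?_⟩
    refine red_pair (y := Function.update Z p3 t) rfl rfl (by omega) hred hψ0 ?_ ?_ hψ y
    · rw [Function.update_comm h03.symm, Function.update_comm h13.symm]
      exact ht
    · have : Function.update (Function.update (Function.update Z p3 t) p0 s) p1 ω
          = Function.update (Function.update Z p3 t) p0 s := by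
        apply Function.update_eq_self_iff.mpr
        rw [Function.update_of_ne h01.symm, Function.update_of_ne h13]
      rw [this]; exact hs
  choose op hop using hop
  -- merging the first two positions
  have M01 : ∀ ψ ∈ Ψ, ∀ y : Fin k → Ω, ψ y
      = ψ (Function.update (Function.update y p0 (op (y p0) (y p1))) p1 ω) := by
    intro ψ hψ y
    rw [← hop (y p0) (y p1) ψ hψ y]
    rw [Function.update_eq_self, Function.update_eq_self]
  -- merging any two positions
  have M : ∀ ψ ∈ Ψ, ∀ (y : Fin k → Ω) (p q : Fin k), p ≠ q → ψ y
      = ψ (Function.update (Function.update y p (op (y p) (y q))) q ω) := by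
    intro ψ hψ y p q hpq
    obtain ⟨θ, hθ0, hθ1⟩ : ∃ θ : Equiv.Perm (Fin k), θ p0 = p ∧ θ p1 = q := by
      refine ⟨(Equiv.swap p1 (Equiv.swap p0 p q)).trans (Equiv.swap p0 p), ?_, ?_⟩
      · rw [Equiv.trans_apply, Equiv.swap_apply_of_ne_of_ne h01, Equiv.swap_apply_left]
        intro h
        have := congrArg (Equiv.swap p0 p) h
        rw [Equiv.swap_apply_left, Equiv.swap_apply_self] at this
        exact hpq this
      · rw [Equiv.trans_apply, Equiv.swap_apply_left, Equiv.swap_apply_self]
    rw [← hsym ψ hψ θ y, M01 ψ hψ (y ∘ θ),
      ← hsym ψ hψ θ (Function.update (Function.update y p (op (y p) (y q))) q ω)]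
    congr 1
    funext u
    simp only [Function.comp_apply]
    by_cases hu1 : u = p1
    · subst hu1
      rw [Function.update_self, hθ1, Function.update_self]
    · by_cases hu0 : u = p0
      · subst hu0
        rw [Function.update_of_ne hu1, Function.update_self, hθ0, hθ1,
          Function.update_of_ne hpq, Function.update_self]
      · rw [Function.update_of_ne hu1, Function.update_of_ne hu0, Function.update_of_ne,
          Function.update_of_ne]
        · rfl
        · rw [← hθ0]; exact fun h => hu0 (θ.injective h)
        · rw [← hθ1]; exact fun h => hu1 (θ.injective h)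
  have hU := hUE ψ0 hψ0
  -- group axioms
  have hcomm : ∀ a b, op a b = op b a := by
    intro a b
    obtain ⟨t, ht⟩ := hU.ex p3 (Function.update (Function.update Z p0 a) p1 b)
    set y : Fin k → Ω := Function.update (Function.update (Function.update Z p0 a) p1 b) p3 t with hy
    have hy0 : y p0 = a := by
      rw [hy, Function.update_of_ne h03, Function.update_of_ne h01, Function.update_self]
    have hy1 : y p1 = b := by
      rw [hy, Function.update_of_ne h13, Function.update_self]
    have e1 := M ψ0 hψ0 y p0 p1 h01
    have e2 := M ψ0 hψ0 y p1 p0 h01.symm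
    rw [hy0, hy1, ht] at e1
    rw [hy0, hy1, ht] at e2
    rw [← hsym ψ0 hψ0 (Equiv.swap p0 p1)] at e2
    have e3 : (Function.update (Function.update y p1 (op b a)) p0 ω) ∘ (Equiv.swap p0 p1)
        = Function.update (Function.update y p1 ω) p0 (op b a) := by
      funext u
      rw [Function.comp_apply]
      by_cases hu0 : u = p0
      · subst hu0
        rw [Equiv.swap_apply_left, Function.update_of_ne h01.symm, Function.update_self,
          Function.update_self]
      · by_cases hu1 : u = p1
        · subst hu1
          rw [Equiv.swap_apply_right, Function.update_self, Function.update_of_ne hu0,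
            Function.update_self]
        · rw [Equiv.swap_apply_of_ne_of_ne hu0 hu1, Function.update_of_ne hu0,
            Function.update_of_ne hu1, Function.update_of_ne hu0, Function.update_of_ne hu1]
    rw [e3] at e2
    rw [Function.update_comm h01] at e1
    exact hU.uniq e1.symm e2.symm
  have hzero : ∀ a, op a ω = a := by
    intro a
    obtain ⟨t, ht⟩ := hU.ex p3 (Function.update Z p0 a)
    set y : Fin k → Ω := Function.update (Function.update Z p0 a) p3 t with hy
    have hy0 : y p0 = a := by
      rw [hy, Function.update_of_ne h03, Function.update_self]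
    have hy1 : y p1 = ω := by
      rw [hy, Function.update_of_ne h13, Function.update_of_ne h01.symm]
    have e1 := M ψ0 hψ0 y p0 p1 h01
    rw [hy0, hy1, ht] at e1
    rw [Function.update_comm h01] at e1
    have e2 : Function.update y p1 ω = y := by
      apply Function.update_eq_self_iff.mpr
      rw [hy1]
    rw [e2] at e1
    have e3 : ψ0 (Function.update y p0 a) = true := by
      have : Function.update y p0 a = y := by
        apply Function.update_eq_self_iff.mpr
        rw [hy0]
      rw [this]; exact ht
    exact hU.uniq e1.symm e3
  have hassoc : ∀ a b c, op (op a b) c = op a (op b c) := by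
    intro a b c
    obtain ⟨t, ht⟩ := hU.ex p3 (Function.update (Function.update (Function.update Z p0 a) p1 b) p2 c)
    set y : Fin k → Ω := Function.update
      (Function.update (Function.update (Function.update Z p0 a) p1 b) p2 c) p3 t with hy
    have hy0 : y p0 = a := by
      rw [hy, Function.update_of_ne h03, Function.update_of_ne h02, Function.update_of_ne h01,
        Function.update_self]
    have hy1 : y p1 = b := by
      rw [hy, Function.update_of_ne h13, Function.update_of_ne h12, Function.update_self]
    have hy2 : y p2 = c := by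
      rw [hy, Function.update_of_ne h23, Function.update_self]
    have e1 := M ψ0 hψ0 y p0 p1 h01
    rw [hy0, hy1, ht] at e1
    rw [M ψ0 hψ0 _ p0 p2 h02] at e1
    have e2 := M ψ0 hψ0 y p1 p2 h12
    rw [hy1, hy2, ht] at e2
    rw [M ψ0 hψ0 _ p0 p1 h01] at e2
    have f1 : (Function.update (Function.update y p0 (op a b)) p1 ω) p0 = op a b := by
      rw [Function.update_of_ne h01, Function.update_self]
    have f2 : (Function.update (Function.update y p0 (op a b)) p1 ω) p2 = c := by
      rw [Function.update_of_ne h12.symm, Function.update_of_ne h02.symm, hy2]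
    have f3 : (Function.update (Function.update y p1 (op b c)) p2 ω) p0 = a := by
      rw [Function.update_of_ne h02, Function.update_of_ne h01, hy0]
    have f4 : (Function.update (Function.update y p1 (op b c)) p2 ω) p1 = op b c := by
      rw [Function.update_of_ne h12, Function.update_self]
    rw [f1, f2] at e1
    rw [f3, f4] at e2
    set w : Fin k → Ω := Function.update (Function.update y p1 ω) p2 ω with hw
    have g1 : Function.update (Function.update (Function.update (Function.update y p0 (op a b)) p1 ω)
        p0 (op (op a b) c)) p2 ω = Function.update w p0 (op (op a b) c) := by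
      funext u
      rw [hw]
      by_cases hu0 : u = p0
      · subst hu0
        rw [Function.update_of_ne h02, Function.update_self, Function.update_self]
      · rw [Function.update_of_ne hu0]
        by_cases hu2 : u = p2
        · subst hu2
          rw [Function.update_self, Function.update_self]
        · rw [Function.update_of_ne hu2, Function.update_of_ne hu0, Function.update_of_ne hu2]
          by_cases hu1 : u = p1
          · subst hu1
            rw [Function.update_self, Function.update_self]
          · rw [Function.update_of_ne hu1, Function.update_of_ne hu0, Function.update_of_ne hu1]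
    have g2 : Function.update (Function.update (Function.update (Function.update y p1 (op b c)) p2 ω)
        p0 (op a (op b c))) p1 ω = Function.update w p0 (op a (op b c)) := by
      funext u
      rw [hw]
      by_cases hu0 : u = p0
      · subst hu0
        rw [Function.update_of_ne h01, Function.update_self, Function.update_self]
      · rw [Function.update_of_ne hu0]
        by_cases hu1 : u = p1
        · subst hu1
          rw [Function.update_self, Function.update_of_ne h12, Function.update_self]
        · rw [Function.update_of_ne hu1, Function.update_of_ne hu0]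
          by_cases hu2 : u = p2
          · subst hu2
            rw [Function.update_self, Function.update_self]
          · rw [Function.update_of_ne hu2, Function.update_of_ne hu1, Function.update_of_ne hu2,
              Function.update_of_ne hu1]
    rw [g1] at e1
    rw [g2] at e2
    exact hU.uniq e1.symm e2.symm
  have hinv : ∀ a, ∃ b, op a b = ω := by
    intro a
    obtain ⟨t, ht⟩ := hU.ex p3 Z
    obtain ⟨b, hb⟩ := hU.ex p1 (Function.update (Function.update Z p3 t) p0 a)
    refine ⟨b, ?_⟩
    set y : Fin k → Ω := Function.update (Function.update (Function.update Z p3 t) p0 a) p1 b with hy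
    have hy0 : y p0 = a := by
      rw [hy, Function.update_of_ne h01, Function.update_self]
    have hy1 : y p1 = b := by
      rw [hy, Function.update_self]
    have e1 := M ψ0 hψ0 y p0 p1 h01
    rw [hy0, hy1, hb] at e1
    have g1 : Function.update (Function.update y p0 (op a b)) p1 ω
        = Function.update (Function.update Z p3 t) p0 (op a b) := by
      funext u
      by_cases hu1 : u = p1
      · subst hu1
        rw [Function.update_self, Function.update_of_ne h01.symm, Function.update_of_ne h13]
      · rw [Function.update_of_ne hu1]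
        by_cases hu0 : u = p0
        · subst hu0
          rw [Function.update_self, Function.update_self]
        · rw [Function.update_of_ne hu0, Function.update_of_ne hu0, hy, Function.update_of_ne hu1,
            Function.update_of_ne hu0]
    rw [g1] at e1
    have e2 : ψ0 (Function.update (Function.update Z p3 t) p0 ω) = true := by
      have : Function.update (Function.update Z p3 t) p0 ω = Function.update Z p3 t := by
        apply Function.update_eq_self_iff.mpr
        rw [Function.update_of_ne h03]
      rw [this]; exact ht
    exact hU.uniq e1.symm e2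
  letI G : AddCommGroup Ω := mkGroup op ω hcomm hzero hassoc hinv
  have hadd : ∀ a b : Ω, a + b = op a b := fun a b => rfl
  have h0 : (0 : Ω) = ω := rfl
  have hall : ∀ ψ ∈ Ψ, ∀ y : Fin k → Ω, ψ y = ψ (Function.update (fun _ => 0) p0 (∑ j, y j)) := by
    intro ψ hψ y
    refine merge_all (fun y => ψ y) ?_ y p0
    intro y p q hpq
    exact M ψ hψ y p q hpq
  have hc : ∀ ψ : Con k Ω, ∃ s : Ω, ψ ∈ Ψ → ψ (Function.update (fun _ => 0) p0 s) = true := by
    intro ψ
    by_cases hψ : ψ ∈ Ψ
    · obtain ⟨s, hs⟩ := (hUE ψ hψ).ex p0 (fun _ => 0)
      exact ⟨s, fun _ => hs⟩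
    · exact ⟨0, fun h => absurd h hψ⟩
  choose c hc using hc
  refine ⟨G, fun _ _ => AddEquiv.refl Ω, c, fun _ _ _ _ _ _ _ => rfl, fun ψ hψ x => ?_⟩
  simp only [AddEquiv.refl_apply]
  rw [hall ψ hψ x]
  constructor
  · intro h
    exact (hUE ψ hψ).uniq h (hc ψ hψ)
  · intro h
    rw [h]
    exact hc ψ hψ

end red

end Pool.Agent.H519_UE
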