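import Pool.Agent.H519_UE.Grow

/-!
# Summation along a ray
-/

set_option linter.all false

namespace Pool.Agent.H519_UE

open scoped BigOperators
open Filter Topology

/-- linear interpolation of `a n ·` at `lam * n` -/
noncomputable def bar (a : ℕ → ℕ → ℝ) (lam : ℝ) (n : ℕ) : ℝ :=
  (1 - (lam * n - ⌊lam * n⌋₊)) * a n ⌊lam * n⌋₊ + (lam * n - ⌊lam * n⌋₊) * a n (⌊lam * n⌋₊ + 1)

lemma bar_step (a : ℕ → ℕ → ℝ) (lam : ℝ) (h0 : 0 ≤ lam) (h1 : lam ≤ 1) (n : ℕ) (v h : ℝ)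
    (hv : ∀ i, i ≤ 2 → a n (⌊lam * n⌋₊ + i) + v ≤ a (n + 1) (⌊lam * n⌋₊ + i))
    (hh : ∀ i, i ≤ 1 → a n (⌊lam * n⌋₊ + i) + h ≤ a n (⌊lam * n⌋₊ + i + 1)) :
    bar a lam n + v + lam * h ≤ bar a lam (n + 1) := by
  have hn0 : 0 ≤ lam * n := mul_nonneg h0 (Nat.cast_nonneg n)
  have hf1 := Nat.floor_le hn0
  have hf2 := Nat.lt_floor_add_one (lam * n)
  have hn1 : 0 ≤ lam * ((n + 1 : ℕ) : ℝ) := mul_nonneg h0 (Nat.cast_nonneg _)
  have hg1 := Nat.floor_le hn1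
  have hg2 := Nat.lt_floor_add_one (lam * ((n + 1 : ℕ) : ℝ))
  have hcast : lam * ((n + 1 : ℕ) : ℝ) = lam * n + lam := by push_cast; ring
  have hmono : ⌊lam * n⌋₊ ≤ ⌊lam * ((n + 1 : ℕ) : ℝ)⌋₊ := Nat.floor_mono (by rw [hcast]; linarith)
  have hup : ⌊lam * ((n + 1 : ℕ) : ℝ)⌋₊ ≤ ⌊lam * n⌋₊ + 1 := by
    have h3 : (⌊lam * ((n + 1 : ℕ) : ℝ)⌋₊ : ℝ) < (⌊lam * n⌋₊ : ℝ) + 2 := by linarith
    have h4 : ⌊lam * ((n + 1 : ℕ) : ℝ)⌋₊ < ⌊lam * n⌋₊ + 2 := by exact_mod_cast h3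
    omega
  have v0 := hv 0 (by norm_num)
  have v1 := hv 1 (by norm_num)
  have v2 := hv 2 (by norm_num)
  have q0 := hh 0 (by norm_num)
  have q1 := hh 1 (by norm_num)
  simp only [add_zero] at v0 q0
  have hcases : ⌊lam * ((n + 1 : ℕ) : ℝ)⌋₊ = ⌊lam * n⌋₊ ∨ ⌊lam * ((n + 1 : ℕ) : ℝ)⌋₊ = ⌊lam * n⌋₊ + 1 := by
    omega
  unfold bar
  rcases hcases with hc | hc
  · rw [hc] at hg1 hg2 ⊢
    rw [hcast] at hg1 hg2 ⊢
    generalize ⌊lam * n⌋₊ = j at *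
    generalize hf : lam * n - (j : ℝ) = f at *
    have e1 : lam * n + lam - j = f + lam := by linarith
    rw [e1]
    have hf0 : 0 ≤ f := by linarith
    have hfl : f + lam ≤ 1 := by linarith
    have t1 := mul_le_mul_of_nonneg_left v0 (show 0 ≤ 1 - (f + lam) by linarith)
    have t2 := mul_le_mul_of_nonneg_left v1 (show 0 ≤ f + lam by linarith)
    have t3 := mul_le_mul_of_nonneg_left q0 h0
    nlinarith
  · rw [hc] at hg1 hg2 ⊢
    rw [hcast] at hg1 hg2 ⊢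
    generalize ⌊lam * n⌋₊ = j at *
    generalize hf : lam * n - (j : ℝ) = f at *
    have e1 : lam * n + lam - ((j + 1 : ℕ) : ℝ) = f + lam - 1 := by push_cast; linarith
    rw [e1]
    have hf0 : 0 ≤ f := by linarith
    have hf1' : f ≤ 1 := by linarith
    push_cast at hg1 hg2
    have hfl : 0 ≤ f + lam - 1 := by linarith
    have hfl2 : f + lam - 1 ≤ 1 := by linarith
    have t1 := mul_le_mul_of_nonneg_left v1 (show 0 ≤ 1 - (f + lam - 1) by linarith)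
    have t2 := mul_le_mul_of_nonneg_left v2 (show 0 ≤ f + lam - 1 by linarith)
    have t3 := mul_le_mul_of_nonneg_left q0 (show 0 ≤ 1 - f by linarith)
    have t4 := mul_le_mul_of_nonneg_left q1 (show 0 ≤ f + lam - 1 by linarith)
    have e2 : j + 1 + 1 = j + 2 := by ring
    rw [e2] at *
    nlinarith

/-! ### limits -/

lemma floor_div_tendsto (lam : ℝ) (h0 : 0 ≤ lam) (i : ℕ) :
    Tendsto (fun n : ℕ => ((⌊lam * n⌋₊ + i : ℕ) : ℝ) / n) atTop (𝓝 lam) := by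
  have h1 : Tendsto (fun n : ℕ => ((⌊lam * n⌋₊ : ℕ) : ℝ) / n) atTop (𝓝 lam) :=
    (tendsto_nat_floor_mul_div_atTop h0).comp tendsto_natCast_atTop_atTop
  have h2 : Tendsto (fun n : ℕ => (i : ℝ) / n) atTop (𝓝 0) :=
    tendsto_const_div_atTop_nhds_zero_nat (i : ℝ)
  have h3 := h1.add h2
  rw [add_zero] at h3
  refine h3.congr fun n => ?_
  push_cast; ring

lemma np1_tendsto (l : ℕ) : Tendsto (fun n : ℕ => (n : ℝ) * p1 l n) atTop (𝓝 ((l : ℝ) + 2)) := by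
  have h1 : Tendsto (fun n : ℕ => (n : ℝ) / (n + 1)) atTop (𝓝 1) := tendsto_natCast_div_add_atTop 1
  have h2 := (h1.pow (l + 2)).const_mul ((l : ℝ) + 2)
  simp only [one_pow, mul_one] at h2
  refine h2.congr fun n => ?_
  unfold p1
  rw [div_pow]
  field_simp
  ring

lemma p2_le (l n : ℕ) : p2 l n ≤ ((l : ℝ) + 2) ^ 2 / ((n : ℝ) + 1) ^ 2 := by
  have hN : (0 : ℝ) < (n : ℝ) + 1 := by positivity
  set x : ℝ := 1 / ((n : ℝ) + 1) with hx
  have hx0 : 0 ≤ x := by positivity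
  have hx1 : x ≤ 1 := by
    rw [hx, div_le_one hN]
    have : (0 : ℝ) ≤ n := Nat.cast_nonneg n
    linarith
  have h1 : (n : ℝ) / (n + 1) = 1 - x := by rw [hx]; field_simp; ring
  have h2 : p2 l n = 1 - (1 - x) ^ (l + 2) - (l + 2) * x * (1 - x) ^ (l + 1) := by
    rw [← h1, hx]; unfold p2; rw [div_pow, div_pow]; field_simp; ring
  have h3 : 1 + ((l + 2 : ℕ) : ℝ) * (-x) ≤ (1 + -x) ^ (l + 2) := one_add_mul_le_pow (by linarith) _
  have h4 : 1 + ((l + 1 : ℕ) : ℝ) * (-x) ≤ (1 + -x) ^ (l + 1) := one_add_mul_le_pow (by linarith) _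
  rw [← sub_eq_add_neg] at h3 h4
  push_cast at h3 h4
  have h5 : ((l : ℝ) + 2) ^ 2 / ((n : ℝ) + 1) ^ 2 = ((l : ℝ) + 2) ^ 2 * x ^ 2 := by
    rw [hx]; field_simp
  rw [h2, h5]
  have hl : (0 : ℝ) ≤ l := Nat.cast_nonneg l
  have h6 := mul_le_mul_of_nonneg_left h4 (show 0 ≤ ((l : ℝ) + 2) * x by positivity)
  nlinarith [mul_nonneg hl (sq_nonneg x), sq_nonneg x]

lemma np2_tendsto (l : ℕ) : Tendsto (fun n : ℕ => (n : ℝ) * p2 l n) atTop (𝓝 0) := by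
  have h1 : Tendsto (fun n : ℕ => ((l : ℝ) + 2) ^ 2 / n) atTop (𝓝 0) :=
    tendsto_const_div_atTop_nhds_zero_nat _
  refine squeeze_zero (fun n => mul_nonneg (Nat.cast_nonneg n) (p2_nonneg l n)) (fun n => ?_) h1
  rcases Nat.eq_zero_or_pos n with h | h
  · simp [h]
  · have hn : (0 : ℝ) < n := by exact_mod_cast h
    calc (n : ℝ) * p2 l n ≤ n * (((l : ℝ) + 2) ^ 2 / ((n : ℝ) + 1) ^ 2) :=
          mul_le_mul_of_nonneg_left (p2_le l n) hn.le
      _ ≤ n * (((l : ℝ) + 2) ^ 2 / (n : ℝ) ^ 2) := by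
          apply mul_le_mul_of_nonneg_left _ hn.le
          apply div_le_div_of_nonneg_left (by positivity) (by positivity)
          nlinarith
      _ = ((l : ℝ) + 2) ^ 2 / n := by field_simp

lemma ci_tendsto (l : ℕ) (lam : ℝ) (h0 : 0 ≤ lam) (i : ℕ) :
    Tendsto (fun n : ℕ => ((⌊lam * n⌋₊ + i : ℕ) : ℝ) * p1 l n) atTop (𝓝 (lam * (l + 2))) := by
  have := (floor_div_tendsto lam h0 i).mul (np1_tendsto l)
  refine this.congr' ?_
  filter_upwards [eventually_gt_atTop 0] with n hn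
  have : (n : ℝ) ≠ 0 := by exact_mod_cast hn.ne'
  field_simp

lemma di_tendsto (l : ℕ) (lam : ℝ) (h0 : 0 ≤ lam) (i : ℕ) :
    Tendsto (fun n : ℕ => ((⌊lam * n⌋₊ + i : ℕ) : ℝ) * p2 l n) atTop (𝓝 0) := by
  have := (floor_div_tendsto lam h0 i).mul (np2_tendsto l)
  rw [mul_zero] at this
  refine this.congr' ?_
  filter_upwards [eventually_gt_atTop 0] with n hn
  have : (n : ℝ) ≠ 0 := by exact_mod_cast hn.ne'
  field_simp

/-- the function governing vertical increments -/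
noncomputable def Gc (l : ℕ) (c x : ℝ) : ℝ :=
  1 - Real.exp (-(c * x ^ (l + 1))) - c * (x ^ (l + 1) - x ^ (l + 2))

/-- the function whose sign decides -/
noncomputable def gd (l : ℕ) (d x : ℝ) : ℝ :=
  1 - Real.exp (-(d * x ^ (l + 1))) - d * x ^ (l + 1) + (1 - 1 / ((l : ℝ) + 2)) * d * x ^ (l + 2)

lemma exp_neg_lip {u v : ℝ} (hu : 0 ≤ u) (hv : 0 ≤ v) :
    Real.exp (-u) - Real.exp (-v) ≤ |u - v| := by
  rcases le_total u v with h | h
  · have h1 : Real.exp (-v) = Real.exp (-u) * Real.exp (-(v - u)) := by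
      rw [← Real.exp_add]; congr 1; ring
    have h2 := Real.add_one_le_exp (-(v - u))
    have h3 : Real.exp (-u) ≤ 1 := Real.exp_le_one_iff.mpr (by linarith)
    have h4 := Real.exp_pos (-u)
    rw [h1, abs_of_nonpos (by linarith)]
    have h5 : Real.exp (-u) * (1 - Real.exp (-(v - u))) ≤ 1 * (v - u) :=
      mul_le_mul h3 (by linarith) (by
        have : Real.exp (-(v - u)) ≤ 1 := Real.exp_le_one_iff.mpr (by linarith)
        linarith) (by norm_num)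
    linarith
  · have : Real.exp (-u) ≤ Real.exp (-v) := Real.exp_le_exp.mpr (by linarith)
    have := abs_nonneg (u - v)
    linarith

lemma Gc_close (l : ℕ) {c d x : ℝ} (hc : 0 ≤ c) (hd : 0 ≤ d) (hx0 : 0 ≤ x) (hx1 : x ≤ 1) :
    Gc l d x - 2 * |c - d| ≤ Gc l c x := by
  unfold Gc
  have hy0 : 0 ≤ x ^ (l + 1) := pow_nonneg hx0 _
  have hy1 : x ^ (l + 1) ≤ 1 := pow_le_one₀ hx0 hx1
  have hz0 : 0 ≤ x ^ (l + 2) := pow_nonneg hx0 _
  have hz1 : x ^ (l + 2) ≤ x ^ (l + 1) := pow_le_pow_of_le_one hx0 hx1 (by omega)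
  have h1 := exp_neg_lip (mul_nonneg hc hy0) (mul_nonneg hd hy0)
  have h2 : |c * x ^ (l + 1) - d * x ^ (l + 1)| ≤ |c - d| := by
    rw [← sub_mul, abs_mul, abs_of_nonneg hy0]
    exact mul_le_of_le_one_right (abs_nonneg _) hy1
  have h3 : (c - d) * (x ^ (l + 1) - x ^ (l + 2)) ≤ |c - d| := by
    calc _ ≤ |c - d| * (x ^ (l + 1) - x ^ (l + 2)) :=
          mul_le_mul_of_nonneg_right (le_abs_self _) (by linarith)
      _ ≤ |c - d| * 1 := mul_le_mul_of_nonneg_left (by linarith) (abs_nonneg _)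
      _ = _ := mul_one _
  nlinarith

lemma Gc_lip (l : ℕ) {d x y : ℝ} (hd : 0 ≤ d) (hx0 : 0 ≤ x) (hxy : x ≤ y) (hy1 : y ≤ 1) :
    -Gc l d y - -Gc l d x ≤ (d * (l + 1 : ℕ)) * (y - x) := by
  unfold Gc
  have h1 : x ^ (l + 1) ≤ y ^ (l + 1) := pow_le_pow_left₀ hx0 hxy _
  have h2 : x ^ (l + 2) ≤ y ^ (l + 2) := pow_le_pow_left₀ hx0 hxy _
  have h3 := pow_lip (l + 1) x y hx0 hxy hy1
  have h4 : Real.exp (-(d * y ^ (l + 1))) ≤ Real.exp (-(d * x ^ (l + 1))) :=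
    Real.exp_le_exp.mpr (by nlinarith)
  have h5 := mul_le_mul_of_nonneg_left h3 hd
  have h6 := mul_le_mul_of_nonneg_left h2 hd
  nlinarith

variable {F : Type*} [Field F]

section rows

variable {l : ℕ} {τ : Type*} [Fintype τ] {π : τ → ℝ} {a : τ → Fin (l + 2) → F}
  (hπ0 : ∀ t, 0 ≤ π t) (hπ1 : ∑ t, π t = 1) (ha : ∀ t i, a t i ≠ 0)

/-- total error of one step -/
noncomputable def errf (l : ℕ) (lam : ℝ) (θ n : ℕ) : ℝ :=
  ∑ i ∈ Finset.range 3, (2 * |((⌊lam * n⌋₊ + i : ℕ) : ℝ) * p1 l n - lam * (l + 2)|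
    + 3 * ((l : ℝ) + 2) ^ 2 * ((((⌊lam * n⌋₊ + i : ℕ) : ℝ) * p1 l n) ^ 2
      + ((⌊lam * n⌋₊ + i : ℕ) : ℝ) * p1 l n) / θ + ((⌊lam * n⌋₊ + i : ℕ) : ℝ) * p2 l n)
    + (lam * (l + 2) * (l + 1 : ℕ)) * (2 * (l + 2) / θ) + θ / (n + 1)
    + 2 * ((l : ℝ) + 2) ^ 2 / θ

include hπ0 hπ1 ha in
lemma ray_step {lam : ℝ} (h0 : 0 ≤ lam) (h1 : lam ≤ 1)
    (hg : ∀ x, 0 ≤ x → x ≤ 1 → 0 ≤ gd l (lam * (l + 2)) x) {n θ : ℕ} (hn : 0 < n) (hθ : 0 < θ) :
    bar (er π a θ) lam n + lam - errf l lam θ n ≤ bar (er π a θ) lam (n + 1) := by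
  set d : ℝ := lam * (l + 2) with hd
  have hd0 : 0 ≤ d := by positivity
  set j := ⌊lam * n⌋₊ with hj
  have hθ' : (0 : ℝ) < θ := by exact_mod_cast hθ
  -- per-level error
  set E : ℕ → ℝ := fun i => 2 * |((j + i : ℕ) : ℝ) * p1 l n - d|
    + 3 * ((l : ℝ) + 2) ^ 2 * ((((j + i : ℕ) : ℝ) * p1 l n) ^ 2
      + ((j + i : ℕ) : ℝ) * p1 l n) / θ + ((j + i : ℕ) : ℝ) * p2 l n with hE
  have hE0 : ∀ i, 0 ≤ E i := by
    intro i
    have := p1_nonneg l n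
    have := p2_nonneg l n
    simp only [hE]; positivity
  have hEle : ∀ i, i ≤ 2 → E i ≤ ∑ i ∈ Finset.range 3, E i := by
    intro i hi
    exact Finset.single_le_sum (f := E) (fun i _ => hE0 i) (Finset.mem_range.mpr (by omega))
  set v : ℝ := Ex π a θ n j (Gc l d) - (∑ i ∈ Finset.range 3, E i)
    - (d * (l + 1 : ℕ)) * (2 * (l + 2) / θ) - θ / (n + 1) with hv
  set h : ℝ := 1 - Ex π a θ n j (fun x => x ^ (l + 2)) - 2 * ((l : ℝ) + 2) ^ 2 / θ with hh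
  have hstep := bar_step (er π a θ) lam h0 h1 n v h ?_ ?_
  · -- conclude
    have h2 : Ex π a θ n j (Gc l d) - lam * Ex π a θ n j (fun x => x ^ (l + 2)) ≥ 0 := by
      have e1 : Ex π a θ n j (fun x => Gc l d x + (-lam) * x ^ (l + 2))
          = Ex π a θ n j (Gc l d) + (-lam) * Ex π a θ n j (fun x => x ^ (l + 2)) := by
        rw [Ex_add, Ex_smul]
      have e2 : Ex π a θ n j (fun _ => 0) ≤ Ex π a θ n j (fun x => Gc l d x + (-lam) * x ^ (l + 2)) := by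
        apply Ex_mono hπ0 hπ1 hn hθ
        intro x hx0 hx1
        have := hg x hx0 hx1
        unfold gd at this
        unfold Gc
        have e3 : (1 - 1 / ((l : ℝ) + 2)) * d * x ^ (l + 2) = d * x ^ (l + 2) - lam * x ^ (l + 2) := by
          rw [hd]; field_simp
        rw [e3] at this
        linarith
      rw [Ex_const hπ0 hπ1 hn hθ, e1] at e2
      linarith
    have h3 : errf l lam θ n = ∑ i ∈ Finset.range 3, E i
        + (d * (l + 1 : ℕ)) * (2 * (l + 2) / θ) + θ / (n + 1) + 2 * ((l : ℝ) + 2) ^ 2 / θ := rfl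
    rw [h3]
    have h4 : lam * (2 * ((l : ℝ) + 2) ^ 2 / θ) ≤ 2 * ((l : ℝ) + 2) ^ 2 / θ :=
      mul_le_of_le_one_left (by positivity) h1
    rw [hv, hh] at hstep
    linarith
  · intro i hi
    have e1 := er_vert hπ0 hπ1 hn ha hθ (j + i)
    have e2 : Ex π a θ n (j + i) (fun x => Gc l d x + (- (2 * |((j + i : ℕ) : ℝ) * p1 l n - d|)))
        ≤ Ex π a θ n (j + i) (fun x => 1 - Real.exp (-(((j + i : ℕ) : ℝ) * p1 l n * x ^ (l + 1)))
        - ((j + i : ℕ) : ℝ) * p1 l n * (x ^ (l + 1) - x ^ (l + 2))) := by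
      apply Ex_mono hπ0 hπ1 hn hθ
      intro x hx0 hx1
      have := Gc_close l (c := ((j + i : ℕ) : ℝ) * p1 l n) (d := d)
        (mul_nonneg (Nat.cast_nonneg _) (p1_nonneg l n)) hd0 hx0 hx1
      unfold Gc at this ⊢
      linarith
    rw [Ex_add, Ex_const hπ0 hπ1 hn hθ] at e2
    have e3 := Ex_slow (a := a) hπ0 hπ1 hn hθ j i (fun x => - Gc l d x) (d * (l + 1 : ℕ))
      (by positivity) (fun x y hx hxy hy => Gc_lip l hd0 hx hxy hy)
    have e4 : ∀ m, Ex π a θ n m (fun x => - Gc l d x) = - Ex π a θ n m (Gc l d) := by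
      intro m
      have : (fun x => - Gc l d x) = fun x => (-1 : ℝ) * Gc l d x := by funext x; ring
      rw [this, Ex_smul]; ring
    rw [e4, e4] at e3
    have e5 : (d * (l + 1 : ℕ)) * (i * (l + 2) / θ) ≤ (d * (l + 1 : ℕ)) * (2 * (l + 2) / θ) := by
      apply mul_le_mul_of_nonneg_left _ (by positivity)
      apply div_le_div_of_nonneg_right _ hθ'.le
      apply mul_le_mul_of_nonneg_right _ (by positivity)
      exact_mod_cast hi
    have e6 := hEle i hi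
    have e7 : E i = 2 * |((j + i : ℕ) : ℝ) * p1 l n - d|
      + 3 * ((l : ℝ) + 2) ^ 2 * ((((j + i : ℕ) : ℝ) * p1 l n) ^ 2
      + ((j + i : ℕ) : ℝ) * p1 l n) / θ + ((j + i : ℕ) : ℝ) * p2 l n := rfl
    rw [e7] at e6
    rw [hv]
    linarith
  · intro i hi
    have e1 := er_horiz hπ0 hπ1 hn ha hθ (j + i)
    have e3 := Ex_slow (a := a) hπ0 hπ1 hn hθ j i (fun x => x ^ (l + 2)) ((l + 2 : ℕ) : ℝ)
      (by positivity) (fun x y hx hxy hy => pow_lip (l + 2) x y hx hxy hy)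
    have e5 : ((l + 2 : ℕ) : ℝ) * (i * (l + 2) / θ) ≤ ((l : ℝ) + 2) ^ 2 / θ := by
      have hi' : (i : ℝ) ≤ 1 := by exact_mod_cast hi
      have : ((l + 2 : ℕ) : ℝ) * (i * (l + 2) / θ) = (i : ℝ) * (((l : ℝ) + 2) ^ 2 / θ) := by
        push_cast; ring
      rw [this]
      exact mul_le_of_le_one_left (by positivity) hi'
    have e6 : 2 * ((l : ℝ) + 2) ^ 2 / θ = 2 * (((l : ℝ) + 2) ^ 2 / θ) := by ring
    rw [hh, e6]
    linarith

lemma errf_tendsto (lam : ℝ) (h0 : 0 ≤ lam) (θ : ℕ) :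
    Tendsto (fun n => errf l lam θ n) atTop (𝓝 ((9 * ((l : ℝ) + 2) ^ 2 *
      ((lam * (l + 2)) ^ 2 + lam * (l + 2)) + (lam * (l + 2) * (l + 1 : ℕ)) * (2 * (l + 2))
      + 2 * ((l : ℝ) + 2) ^ 2) / θ)) := by
  have h1 : ∀ i, Tendsto (fun n : ℕ => 2 * |((⌊lam * n⌋₊ + i : ℕ) : ℝ) * p1 l n - lam * (l + 2)|
    + 3 * ((l : ℝ) + 2) ^ 2 * ((((⌊lam * n⌋₊ + i : ℕ) : ℝ) * p1 l n) ^ 2
      + ((⌊lam * n⌋₊ + i : ℕ) : ℝ) * p1 l n) / θ + ((⌊lam * n⌋₊ + i : ℕ) : ℝ) * p2 l n) atTop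
      (𝓝 (2 * |lam * (l + 2) - lam * (l + 2)| + 3 * ((l : ℝ) + 2) ^ 2 *
        ((lam * (l + 2)) ^ 2 + lam * (l + 2)) / θ + 0)) := by
    intro i
    have c := ci_tendsto l lam h0 i
    have dd := di_tendsto l lam h0 i
    exact ((((c.sub_const _).abs).const_mul 2).add
      ((((c.pow 2).add c).const_mul _).div_const _)).add dd
  have h2 : Tendsto (fun n : ℕ => (θ : ℝ) / ((n : ℝ) + 1)) atTop (𝓝 0) := by
    have := (tendsto_const_div_atTop_nhds_zero_nat (θ : ℝ)).comp (tendsto_add_atTop_nat 1)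
    refine this.congr fun n => ?_
    simp [Function.comp_def]
  have h3 := (((tendsto_finset_sum (Finset.range 3) fun i _ => h1 i).add_const
    ((lam * (l + 2) * (l + 1 : ℕ)) * (2 * (l + 2) / θ))).add h2).add_const
    (2 * ((l : ℝ) + 2) ^ 2 / θ)
  unfold errf
  convert h3 using 2
  simp only [sub_self, abs_zero, mul_zero, Finset.sum_const, Finset.card_range, nsmul_eq_mul]
  push_cast
  ring

include hπ0 hπ1 in
lemma er_nonneg {n θ : ℕ} (hn : 0 < n) (hθ : 0 < θ) (m : ℕ) : 0 ≤ er π a θ n m := by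
  have hA := A_isMk (F := F) hn hθ
  have hW := W_isMk (a := a) hπ0 hπ1 hn
  have := (hA.mul (hW.pow m)).ge _ rk_mono FSub.zero
  rw [rk_zero] at this
  exact this

include hπ0 hπ1 in
lemma er_mono {n θ : ℕ} (hn : 0 < n) (hθ : 0 < θ) (m : ℕ) : er π a θ n m ≤ er π a θ n (m + 1) := by
  have hA := A_isMk (F := F) hn hθ
  have hW := W_isMk (a := a) hπ0 hπ1 hn
  unfold er
  rw [pow_succ (W π a n) m, ← mul_assoc]
  exact (hA.mul (hW.pow m)).pos _ _ (fun S => hW.ge _ rk_mono S) _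

include hπ0 hπ1 ha in
/-- **asymptotically full rank** (with pins) -/
theorem er_asymp {lam : ℝ} (h0 : 0 ≤ lam) (h1 : lam ≤ 1)
    (hg : ∀ x, 0 ≤ x → x ≤ 1 → 0 ≤ gd l (lam * (l + 2)) x) {ε : ℝ} (hε : 0 < ε) :
    ∃ θ : ℕ, 0 < θ ∧ ∃ N : ℕ, ∀ n, N ≤ n →
      (lam - ε) * n ≤ er π a θ n (⌊lam * n⌋₊ + 1) := by
  set C : ℝ := 9 * ((l : ℝ) + 2) ^ 2 *
      ((lam * (l + 2)) ^ 2 + lam * (l + 2)) + (lam * (l + 2) * (l + 1 : ℕ)) * (2 * (l + 2))
      + 2 * ((l : ℝ) + 2) ^ 2 with hC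
  obtain ⟨θ, hθ⟩ := exists_nat_gt (4 * C / ε)
  have hC0 : 0 < C := by rw [hC]; positivity
  have hθ0 : 0 < θ := by
    have : (0 : ℝ) < θ := lt_trans (by positivity) hθ
    exact_mod_cast this
  have hθ' : (0 : ℝ) < θ := by exact_mod_cast hθ0
  have hCθ : C / θ < ε / 2 := by
    rw [div_lt_iff₀ hε] at hθ
    rw [div_lt_iff₀ hθ']
    nlinarith
  have hev := (errf_tendsto (l := l) lam h0 θ).eventually_lt_const hCθ
  obtain ⟨N1, hN1⟩ := eventually_atTop.mp hev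
  set N2 := max N1 1 with hN2
  have hbar : ∀ i : ℕ, (lam - ε / 2) * i ≤ bar (er π a θ) lam (N2 + i) := by
    intro i
    induction i with
    | zero =>
      simp only [Nat.cast_zero, mul_zero, add_zero]
      have hpos : 0 < N2 := by omega
      unfold bar
      have hf1 := Nat.floor_le (show 0 ≤ lam * N2 by positivity)
      have hf2 := Nat.lt_floor_add_one (lam * N2)
      exact add_nonneg (mul_nonneg (by linarith) (er_nonneg hπ0 hπ1 hpos hθ0 _))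
        (mul_nonneg (by linarith) (er_nonneg hπ0 hπ1 hpos hθ0 _))
    | succ i ih =>
      have hpos : 0 < N2 + i := by omega
      have e1 := ray_step hπ0 hπ1 ha h0 h1 hg hpos hθ0
      have e2 := hN1 (N2 + i) (by omega)
      push_cast
      rw [← add_assoc]
      linarith
  -- pass to integer index
  obtain ⟨N3, hN3⟩ := exists_nat_gt (2 * (lam * N2) / ε)
  refine ⟨θ, hθ0, max N2 N3, fun n hn => ?_⟩
  have hnN2 : N2 ≤ n := (le_max_left _ _).trans hn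
  have hnN3 : N3 ≤ n := (le_max_right _ _).trans hn
  have hpos : 0 < n := by omega
  obtain ⟨i, rfl⟩ := Nat.exists_eq_add_of_le hnN2
  have e1 := hbar i
  have e2 : bar (er π a θ) lam (N2 + i) ≤ er π a θ (N2 + i) (⌊lam * ((N2 + i : ℕ) : ℝ)⌋₊ + 1) := by
    unfold bar
    have hf1 := Nat.floor_le (show 0 ≤ lam * ((N2 + i : ℕ) : ℝ) by positivity)
    have hf2 := Nat.lt_floor_add_one (lam * ((N2 + i : ℕ) : ℝ))
    have hm := er_mono (a := a) hπ0 hπ1 hpos hθ0 ⌊lam * ((N2 + i : ℕ) : ℝ)⌋₊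
    have := mul_le_mul_of_nonneg_left hm
      (show 0 ≤ 1 - (lam * ((N2 + i : ℕ) : ℝ) - ⌊lam * ((N2 + i : ℕ) : ℝ)⌋₊) by linarith)
    linarith
  have e3 : (N3 : ℝ) ≤ ((N2 + i : ℕ) : ℝ) := by exact_mod_cast hnN3
  have e4 : 2 * (lam * N2) ≤ ε * ((N2 + i : ℕ) : ℝ) := by
    rw [div_lt_iff₀ hε] at hN3
    nlinarith
  have e5 : (lam - ε) * ((N2 + i : ℕ) : ℝ) ≤ (lam - ε / 2) * i := by
    have : (0 : ℝ) ≤ ε * N2 := by positivity
    push_cast at e4 ⊢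
    nlinarith
  linarith

end rows

end Pool.Agent.H519_UE
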