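import Pool.Agent.H519_UE.Affine

/-!
# Sanity checks: the threshold is at least one, and the total mass is one
-/

set_option linter.all false

namespace Pool.Agent.H519_UE

open scoped BigOperators

/-- below density one the only fixed point is zero -/
lemma rho_eq_zero {k : ℕ} (hk : 3 ≤ k) {d : ℝ} (hd0 : 0 < d) (hd1 : d < 1) : rho k d = 0 := by
  unfold rho
  have h : {x : ℝ | 0 ≤ x ∧ x ≤ 1 ∧ x = 1 - Real.exp (-(d * x ^ (k - 1)))} = {0} := by
    ext x
    simp only [Set.mem_setOf_eq, Set.mem_singleton_iff]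
    constructor
    · rintro ⟨h0, h1, h2⟩
      by_contra hne
      have hpos : 0 < x := lt_of_le_of_ne h0 (Ne.symm hne)
      have h3 : 1 - d * x ^ (k - 1) ≤ Real.exp (-(d * x ^ (k - 1))) := by
        have := Real.add_one_le_exp (-(d * x ^ (k - 1)))
        linarith
      have h4 : x ^ (k - 1) ≤ x := by
        calc x ^ (k - 1) ≤ x ^ 1 := pow_le_pow_of_le_one h0 h1 (by omega)
          _ = x := pow_one x
      have h5 : d * x ^ (k - 1) ≤ d * x := mul_le_mul_of_nonneg_left h4 hd0.le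
      nlinarith
    · rintro rfl
      refine ⟨le_rfl, zero_le_one, ?_⟩
      rw [zero_pow (by omega)]
      simp
  rw [h, csSup_singleton]

/-- the set defining the threshold is nonempty -/
lemma dk_set_nonempty {k : ℕ} (hk : 3 ≤ k) : {d : ℝ | 0 < d ∧
    rho k d - d * rho k d ^ (k - 1) + (1 - 1 / (k : ℝ)) * d * rho k d ^ k < 0}.Nonempty := by
  have hkR : (3 : ℝ) ≤ k := by exact_mod_cast hk
  refine ⟨(k : ℝ) * 2 ^ k, by positivity, ?_⟩
  set d : ℝ := (k : ℝ) * 2 ^ k with hd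
  have hd0 : 0 < d := by positivity
  -- a fixed point above one half
  have hfix : ∃ x : ℝ, 1 / 2 ≤ x ∧ x ≤ 1 ∧ x = 1 - Real.exp (-(d * x ^ (k - 1))) := by
    have hcont : ContinuousOn (fun x : ℝ => 1 - Real.exp (-(d * x ^ (k - 1))) - x)
        (Set.Icc (1 / 2) 1) := by
      apply Continuous.continuousOn
      fun_prop
    have h1 : (1 : ℝ) - Real.exp (-(d * 1 ^ (k - 1))) - 1 ≤ 0 := by
      have := Real.exp_pos (-(d * 1 ^ (k - 1)))
      linarith
    have h2 : (0 : ℝ) ≤ 1 - Real.exp (-(d * (1 / 2) ^ (k - 1))) - 1 / 2 := by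
      have e1 : d * (1 / 2) ^ (k - 1) = 2 * k := by
        rw [hd]
        obtain ⟨j, rfl⟩ : ∃ j, k = j + 1 := ⟨k - 1, by omega⟩
        rw [Nat.add_sub_cancel, pow_succ, one_div, inv_pow]
        field_simp
      rw [e1]
      have e2 : Real.exp (-(2 * (k : ℝ))) ≤ 1 / 2 := by
        have e3 : (2 : ℝ) ≤ Real.exp (2 * (k : ℝ)) := by
          have := Real.add_one_le_exp (2 * (k : ℝ))
          linarith
        rw [Real.exp_neg, one_div]
        exact inv_anti₀ (by norm_num) e3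
      linarith
    have := intermediate_value_Icc' (by norm_num : (1 / 2 : ℝ) ≤ 1) hcont
    obtain ⟨x, hx, hx0⟩ := this ⟨h1, h2⟩
    refine ⟨x, hx.1, hx.2, ?_⟩
    simp only at hx0
    linarith
  obtain ⟨x, hx1, hx2, hx3⟩ := hfix
  have hbdd : BddAbove {x : ℝ | 0 ≤ x ∧ x ≤ 1 ∧ x = 1 - Real.exp (-(d * x ^ (k - 1)))} :=
    ⟨1, fun y hy => hy.2.1⟩
  have hr1 : 1 / 2 ≤ rho k d := by
    unfold rho
    exact hx1.trans (le_csSup hbdd ⟨by linarith, hx2, hx3⟩)
  have hr2 : rho k d ≤ 1 := by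
    unfold rho
    exact csSup_le ⟨x, by linarith, hx2, hx3⟩ fun y hy => hy.2.1
  set r := rho k d with hr
  have hr0 : 0 < r := by linarith
  obtain ⟨j, rfl⟩ : ∃ j, k = j + 2 := ⟨k - 2, by omega⟩
  have e1 : r ^ (j + 2 - 1) = r ^ j * r := by
    rw [show j + 2 - 1 = j + 1 from rfl, pow_succ]
  have e2 : r ^ (j + 2) = r ^ j * r * r := by
    rw [pow_succ, pow_succ]
  have hj0 : 0 < ((j + 2 : ℕ) : ℝ) := by positivity
  have hpow : (1 / 2 : ℝ) ^ j ≤ r ^ j := pow_le_pow_left₀ (by norm_num) hr1 j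
  have e3 : d * (1 / 2 : ℝ) ^ j = 4 * ((j + 2 : ℕ) : ℝ) := by
    rw [hd, pow_add, one_div, inv_pow]
    field_simp
    norm_num
  have e4 : 4 * ((j + 2 : ℕ) : ℝ) ≤ d * r ^ j := by
    rw [← e3]
    exact mul_le_mul_of_nonneg_left hpow hd0.le
  rw [e1, e2]
  have e5 : (1 - 1 / ((j + 2 : ℕ) : ℝ)) * d * (r ^ j * r * r)
      ≤ (1 - 1 / ((j + 2 : ℕ) : ℝ)) * d * (r ^ j * r) := by
    apply mul_le_mul_of_nonneg_left
    · nlinarith [mul_pos (pow_pos hr0 j) hr0]
    · apply mul_nonneg _ hd0.le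
      rw [sub_nonneg, div_le_one hj0]
      push_cast
      linarith [(Nat.cast_nonneg j : (0 : ℝ) ≤ j)]
  have e6 : (1 / ((j + 2 : ℕ) : ℝ)) * (d * r ^ j) ≥ 4 := by
    rw [ge_iff_le, one_div, ← div_eq_inv_mul, le_div_iff₀ hj0]
    exact e4
  have e7 : (1 / ((j + 2 : ℕ) : ℝ)) * d * (r ^ j * r) ≥ 4 * r := by nlinarith
  nlinarith

/-- the threshold is at least one for `k ≥ 3` -/
theorem one_le_dk {k : ℕ} (hk : 3 ≤ k) : 1 ≤ dk k := by
  unfold dk
  apply le_csInf (dk_set_nonempty hk)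
  rintro d ⟨hd0, hd⟩
  by_contra hlt
  push Not at hlt
  rw [rho_eq_zero hk hd0 hlt, zero_pow (by omega), zero_pow (by omega)] at hd
  simp at hd

/-- the total mass is one -/
theorem Pr_true {k : ℕ} {Ω : Type} [Fintype Ω] [DecidableEq Ω] {π : Con k Ω → ℝ}
    (hπ1 : ∑ ψ, π ψ = 1) {n : ℕ} (h : k ≤ n) (m : ℕ) : Pr π n m (fun _ => True) = 1 := by
  unfold Pr
  simp only [if_true]
  exact dw_total hπ1 h m

end Pool.Agent.H519_UE
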