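import Pool.Agent.H519_UE.Expand

/-!
# Small dependent sets of rows do not exist
-/

set_option linter.all false

namespace Pool.Agent.H519_UE

open scoped BigOperators
open Filter Topology

lemma descFactorial_ratio (t n K : ℕ) (h : t ≤ n) :
    t.descFactorial K * n ^ K ≤ n.descFactorial K * t ^ K := by
  induction K with
  | zero => simp
  | succ K ih =>
    rw [Nat.descFactorial_succ, Nat.descFactorial_succ, pow_succ, pow_succ]
    have h1 : (t - K) * n ≤ (n - K) * t := by
      rcases Nat.lt_or_ge t K with h2 | h2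
      · simp [Nat.sub_eq_zero_of_le h2.le]
      · have h3 : (t - K) * n + K * n = t * n := by
          rw [← add_mul, Nat.sub_add_cancel h2]
        have h4 : (n - K) * t + K * t = n * t := by
          rw [← add_mul, Nat.sub_add_cancel (h2.trans h)]
        have h5 : K * t ≤ K * n := Nat.mul_le_mul_left _ h
        have h6 : t * n = n * t := mul_comm _ _
        omega
    calc (t - K) * t.descFactorial K * (n ^ K * n)
        = (t.descFactorial K * n ^ K) * ((t - K) * n) := by ring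
      _ ≤ (n.descFactorial K * t ^ K) * ((n - K) * t) := Nat.mul_le_mul ih h1
      _ = (n - K) * n.descFactorial K * (t ^ K * t) := by ring

lemma card_emb_into {K n : ℕ} (U : Finset (Fin n)) :
    (Finset.univ.filter (fun u : Fin K ↪ Fin n => ∀ i, u i ∈ U)).card ≤ U.card.descFactorial K := by
  classical
  have h1 : Fintype.card (Fin K ↪ U) = U.card.descFactorial K := by
    rw [Fintype.card_embedding_eq]; simp
  rw [← h1, ← Fintype.card_subtype]
  refine Fintype.card_le_of_injective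
    (fun u : {u : Fin K ↪ Fin n // ∀ i, u i ∈ U} =>
      (⟨fun i => (⟨u.1 i, u.2 i⟩ : U), fun i j hij => u.1.injective (by simpa using hij)⟩ :
        Fin K ↪ U)) ?_
  intro u v h
  apply Subtype.ext
  apply DFunLike.ext
  intro i
  have := DFunLike.congr_fun h i
  exact congrArg Subtype.val this

section rows

variable {τ : Type*} [Fintype τ] {π : τ → ℝ} (hπ0 : ∀ t, 0 ≤ π t) (hπ1 : ∑ t, π t = 1)

/-- variables covered by the rows in `C` -/
def cover {K n m : ℕ} (H : Fin m → τ × (Fin K ↪ Fin n)) (C : Finset (Fin m)) : Finset (Fin n) :=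
  C.biUnion fun j => Finset.univ.map (H j).2

/-- there is a small set of rows covering few variables -/
def SmallBad {K n m : ℕ} (B : ℕ) (H : Fin m → τ × (Fin K ↪ Fin n)) : Prop :=
  ∃ C : Finset (Fin m), C.Nonempty ∧ C.card ≤ B ∧ 2 * (cover H C).card ≤ K * C.card

open Classical in
include hπ0 hπ1 in
/-- probability that a row has all variables in `U` -/
lemma prob_into {K n : ℕ} (hK : K ≤ n) (U : Finset (Fin n)) :
    ∑ x : τ × (Fin K ↪ Fin n), dw π K n x * (if ∀ i, x.2 i ∈ U then 1 else 0)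
      ≤ ((U.card : ℝ) / n) ^ K := by
  rw [Fintype.sum_prod_type]
  have hpos : 0 < n.descFactorial K := Nat.descFactorial_pos.mpr hK
  have hposR : (0 : ℝ) < n.descFactorial K := by exact_mod_cast hpos
  have h1 : ∀ t, ∑ u : Fin K ↪ Fin n, dw π K n (t, u) * (if ∀ i, u i ∈ U then (1 : ℝ) else 0)
      = π t * (((Finset.univ.filter (fun u : Fin K ↪ Fin n => ∀ i, u i ∈ U)).card : ℝ)
        / n.descFactorial K) := by
    intro t
    unfold dw
    rw [card_emb]
    show ∑ u : Fin K ↪ Fin n, π t / (n.descFactorial K : ℝ) *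
      (if ∀ i, u i ∈ U then (1 : ℝ) else 0) = _
    rw [← Finset.mul_sum, Finset.sum_ite, Finset.sum_const_zero, add_zero,
      Finset.sum_const, nsmul_eq_mul, mul_one]
    ring
  simp only [h1]
  rw [← Finset.sum_mul, hπ1, one_mul]
  rcases Nat.eq_zero_or_pos n with h0 | h0
  · subst h0
    have hK0 : K = 0 := by omega
    subst hK0
    simp
  have hn : (0 : ℝ) < n := by exact_mod_cast h0
  rw [div_pow, div_le_div_iff₀ hposR (by positivity)]
  have h2 := card_emb_into (K := K) U
  have h3 : U.card ≤ n := by simpa using Finset.card_le_univ U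
  have h4 := descFactorial_ratio U.card n K h3
  have h5 : (Finset.univ.filter (fun u : Fin K ↪ Fin n => ∀ i, u i ∈ U)).card * n ^ K
      ≤ U.card ^ K * n.descFactorial K :=
    (Nat.mul_le_mul_right _ h2).trans (h4.trans (le_of_eq (mul_comm _ _)))
  exact_mod_cast h5

open Classical in
include hπ0 hπ1 in
lemma prob_all_into {K n m : ℕ} (hK : K ≤ n) (C : Finset (Fin m)) (U : Finset (Fin n)) :
    ∑ H : Fin m → τ × (Fin K ↪ Fin n), (∏ j, dw π K n (H j)) *
      (if ∀ j ∈ C, ∀ i, (H j).2 i ∈ U then 1 else 0) ≤ (((U.card : ℝ) / n) ^ K) ^ C.card := by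
  have h1 : ∀ H : Fin m → τ × (Fin K ↪ Fin n), (∏ j, dw π K n (H j)) *
      (if ∀ j ∈ C, ∀ i, (H j).2 i ∈ U then (1 : ℝ) else 0)
      = ∏ j, (dw π K n (H j) * (if j ∈ C → ∀ i, (H j).2 i ∈ U then 1 else 0)) := by
    intro H
    rw [Finset.prod_mul_distrib]
    congr 1
    by_cases h : ∀ j ∈ C, ∀ i, (H j).2 i ∈ U
    · rw [if_pos h]
      symm
      apply Finset.prod_eq_one
      intro j _
      rw [if_pos (h j)]
    · rw [if_neg h]
      symm
      push Not at h
      obtain ⟨j, hj, i, hi⟩ := h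
      apply Finset.prod_eq_zero (Finset.mem_univ j)
      rw [if_neg]
      intro h2
      exact hi (h2 hj i)
  rw [Finset.sum_congr rfl fun H _ => h1 H,
    sum_prod_fn (fun j x => dw π K n x * (if j ∈ C → ∀ i, x.2 i ∈ U then (1 : ℝ) else 0))]
  have h2 : ∀ j, ∑ x : τ × (Fin K ↪ Fin n), dw π K n x * (if j ∈ C → ∀ i, x.2 i ∈ U then (1 : ℝ) else 0)
      ≤ if j ∈ C then ((U.card : ℝ) / n) ^ K else 1 := by
    intro j
    by_cases hj : j ∈ C
    · simp only [hj, true_imp_iff, if_true]
      exact prob_into hπ0 hπ1 hK U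
    · simp only [hj, false_imp_iff, if_true, if_false, mul_one]
      rw [dw_sum hπ1 hK]
  calc _ ≤ ∏ j, (if j ∈ C then ((U.card : ℝ) / n) ^ K else 1) := by
        apply Finset.prod_le_prod
        · intro j _
          exact Finset.sum_nonneg fun x _ => mul_nonneg (dw_nonneg hπ0 _ _ _)
            (by split_ifs <;> norm_num)
        · intro j _; exact h2 j
    _ = _ := by
        rw [Finset.prod_ite, Finset.prod_const, Finset.prod_const_one, mul_one]
        congr 2
        ext j; simp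

open Classical in
include hπ0 hπ1 in
/-- union bound -/
lemma prob_smallBad {K n m B : ℕ} (hK : K ≤ n) (hB : K * B ≤ 2 * n) :
    ∑ H : Fin m → τ × (Fin K ↪ Fin n), (∏ j, dw π K n (H j)) * (if SmallBad B H then 1 else 0)
      ≤ ∑ s ∈ Finset.Icc 1 B, (m.choose s : ℝ) * (n.choose (K * s / 2) : ℝ) *
        ((((K * s / 2 : ℕ) : ℝ) / n) ^ K) ^ s := by
  have h1 : ∀ H : Fin m → τ × (Fin K ↪ Fin n), (if SmallBad B H then (1 : ℝ) else 0)
      ≤ ∑ s ∈ Finset.Icc 1 B, ∑ C ∈ Finset.powersetCard s (Finset.univ : Finset (Fin m)),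
        ∑ U ∈ Finset.powersetCard (K * s / 2) (Finset.univ : Finset (Fin n)),
          (if ∀ j ∈ C, ∀ i, (H j).2 i ∈ U then (1 : ℝ) else 0) := by
    intro H
    have hnn : ∀ (C : Finset (Fin m)) (U : Finset (Fin n)),
        (0 : ℝ) ≤ (if ∀ j ∈ C, ∀ i, (H j).2 i ∈ U then (1 : ℝ) else 0) := by
      intro C U; split_ifs <;> norm_num
    by_cases hb : SmallBad B H
    · rw [if_pos hb]
      obtain ⟨C, hC, hCB, hcov⟩ := hb
      have hs1 : 1 ≤ C.card := hC.card_pos
      have hcov' : (cover H C).card ≤ K * C.card / 2 := by omega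
      have hle : K * C.card / 2 ≤ n := by
        have : K * C.card ≤ K * B := Nat.mul_le_mul_left _ hCB
        omega
      obtain ⟨U, hU1, hU2⟩ := Finset.exists_superset_card_eq hcov' (by simpa using hle)
      have hall : ∀ j ∈ C, ∀ i, (H j).2 i ∈ U := by
        intro j hj i
        apply hU1
        unfold cover
        rw [Finset.mem_biUnion]
        exact ⟨j, hj, Finset.mem_map_of_mem _ (Finset.mem_univ i)⟩
      calc (1 : ℝ) = (if ∀ j ∈ C, ∀ i, (H j).2 i ∈ U then (1 : ℝ) else 0) := by rw [if_pos hall]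
        _ ≤ ∑ U ∈ Finset.powersetCard (K * C.card / 2) (Finset.univ : Finset (Fin n)),
          (if ∀ j ∈ C, ∀ i, (H j).2 i ∈ U then (1 : ℝ) else 0) :=
            Finset.single_le_sum (f := fun U => (if ∀ j ∈ C, ∀ i, (H j).2 i ∈ U then (1 : ℝ) else 0))
              (fun U _ => hnn C U) (Finset.mem_powersetCard.mpr ⟨Finset.subset_univ _, hU2⟩)
        _ ≤ ∑ C' ∈ Finset.powersetCard C.card (Finset.univ : Finset (Fin m)),
        ∑ U ∈ Finset.powersetCard (K * C.card / 2) (Finset.univ : Finset (Fin n)),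
          (if ∀ j ∈ C', ∀ i, (H j).2 i ∈ U then (1 : ℝ) else 0) :=
            Finset.single_le_sum (f := fun C' =>
              ∑ U ∈ Finset.powersetCard (K * C.card / 2) (Finset.univ : Finset (Fin n)),
                (if ∀ j ∈ C', ∀ i, (H j).2 i ∈ U then (1 : ℝ) else 0))
              (fun C' _ => Finset.sum_nonneg fun U _ => hnn C' U)
              (Finset.mem_powersetCard.mpr ⟨Finset.subset_univ _, rfl⟩)
        _ ≤ _ := Finset.single_le_sum (f := fun s =>
              ∑ C' ∈ Finset.powersetCard s (Finset.univ : Finset (Fin m)),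
              ∑ U ∈ Finset.powersetCard (K * s / 2) (Finset.univ : Finset (Fin n)),
                (if ∀ j ∈ C', ∀ i, (H j).2 i ∈ U then (1 : ℝ) else 0))
              (fun s _ => Finset.sum_nonneg fun C' _ => Finset.sum_nonneg fun U _ => hnn C' U)
              (Finset.mem_Icc.mpr ⟨hs1, hCB⟩)
    · rw [if_neg hb]
      exact Finset.sum_nonneg fun s _ => Finset.sum_nonneg fun C _ =>
        Finset.sum_nonneg fun U _ => hnn C U
  have hw : ∀ H : Fin m → τ × (Fin K ↪ Fin n), 0 ≤ ∏ j, dw π K n (H j) :=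
    fun H => Finset.prod_nonneg fun j _ => dw_nonneg hπ0 _ _ _
  calc _ ≤ ∑ H : Fin m → τ × (Fin K ↪ Fin n), (∏ j, dw π K n (H j)) *
        ∑ s ∈ Finset.Icc 1 B, ∑ C ∈ Finset.powersetCard s (Finset.univ : Finset (Fin m)),
        ∑ U ∈ Finset.powersetCard (K * s / 2) (Finset.univ : Finset (Fin n)),
          (if ∀ j ∈ C, ∀ i, (H j).2 i ∈ U then (1 : ℝ) else 0) :=
        Finset.sum_le_sum fun H _ => mul_le_mul_of_nonneg_left (h1 H) (hw H)
    _ = ∑ s ∈ Finset.Icc 1 B, ∑ C ∈ Finset.powersetCard s (Finset.univ : Finset (Fin m)),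
        ∑ U ∈ Finset.powersetCard (K * s / 2) (Finset.univ : Finset (Fin n)),
        ∑ H : Fin m → τ × (Fin K ↪ Fin n), (∏ j, dw π K n (H j)) *
          (if ∀ j ∈ C, ∀ i, (H j).2 i ∈ U then (1 : ℝ) else 0) := by
        simp only [Finset.mul_sum]
        rw [Finset.sum_comm]
        refine Finset.sum_congr rfl fun s _ => ?_
        rw [Finset.sum_comm]
        refine Finset.sum_congr rfl fun C _ => ?_
        rw [Finset.sum_comm]
    _ ≤ ∑ s ∈ Finset.Icc 1 B, ∑ C ∈ Finset.powersetCard s (Finset.univ : Finset (Fin m)),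
        ∑ U ∈ Finset.powersetCard (K * s / 2) (Finset.univ : Finset (Fin n)),
          ((((K * s / 2 : ℕ) : ℝ) / n) ^ K) ^ s := by
        refine Finset.sum_le_sum fun s _ => Finset.sum_le_sum fun C hC =>
          Finset.sum_le_sum fun U hU => ?_
        have h2 := prob_all_into hπ0 hπ1 hK C U
        rw [(Finset.mem_powersetCard.mp hC).2, (Finset.mem_powersetCard.mp hU).2] at h2
        exact h2
    _ = _ := by
        refine Finset.sum_congr rfl fun s _ => ?_
        simp only [Finset.sum_const, Finset.card_powersetCard, Finset.card_univ, Fintype.card_fin,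
          nsmul_eq_mul]
        ring

end rows

/-! ### numerical estimate -/

lemma pow_self_le (s : ℕ) : (s : ℝ) ^ s ≤ (Nat.factorial s : ℝ) * Real.exp s := by
  have h := Real.pow_div_factorial_le_exp (s : ℝ) (Nat.cast_nonneg s) s
  rw [div_le_iff₀ (by positivity)] at h
  linarith

lemma choose_le (n s : ℕ) (hs : 0 < s) : (n.choose s : ℝ) ≤ (Real.exp 1 * n / s) ^ s := by
  have h1 : (n.choose s : ℝ) ≤ (n : ℝ) ^ s / (Nat.factorial s : ℝ) := Nat.choose_le_pow_div s n
  have h2 := pow_self_le s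
  have hs' : (0 : ℝ) < s := by exact_mod_cast hs
  refine h1.trans ?_
  rw [div_pow, mul_pow, div_le_div_iff₀ (by positivity) (by positivity)]
  have h3 : Real.exp 1 ^ s = Real.exp s := by rw [← Real.exp_nat_mul]; simp
  rw [h3]
  calc (n : ℝ) ^ s * (s : ℝ) ^ s ≤ (n : ℝ) ^ s * ((Nat.factorial s : ℝ) * Real.exp s) :=
        mul_le_mul_of_nonneg_left h2 (by positivity)
    _ = Real.exp s * (n : ℝ) ^ s * (Nat.factorial s : ℝ) := by ring

/-- the constant -/
noncomputable def DK (K : ℕ) : ℝ := Real.exp 1 * K * Real.exp K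

lemma term_le {K n m s : ℕ} (hK : 3 ≤ K) (hn : 0 < n) (hm : m ≤ n) (hs : 1 ≤ s)
    (hsn : K * s ≤ 2 * n) :
    (m.choose s : ℝ) * (n.choose (K * s / 2) : ℝ) * ((((K * s / 2 : ℕ) : ℝ) / n) ^ K) ^ s
      ≤ (DK K ^ 2 * K * s / n) ^ ((s + 1) / 2) := by
  set t := K * s / 2 with ht
  have hn' : (0 : ℝ) < n := by exact_mod_cast hn
  have hs' : (0 : ℝ) < s := by exact_mod_cast hs
  have h3s : 3 * s ≤ K * s := Nat.mul_le_mul_right _ hK
  have ht1 : 1 ≤ t := by omega
  have ht' : (0 : ℝ) < t := by exact_mod_cast ht1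
  have htn : t ≤ n := by omega
  have htn' : (t : ℝ) ≤ n := by exact_mod_cast htn
  have hexp : t + s + (s + 1) / 2 ≤ K * s := by omega
  have htK : (t : ℝ) ≤ K * s := by
    have : t ≤ K * s := by omega
    exact_mod_cast this
  have hK' : (0 : ℝ) < K := by
    have : 0 < K := by omega
    exact_mod_cast this
  set z : ℝ := (t : ℝ) / n with hz
  have hz0 : 0 < z := by positivity
  have hz1 : z ≤ 1 := by rw [hz, div_le_one hn']; exact htn'
  -- the three factors
  have f1 : (m.choose s : ℝ) ≤ (Real.exp 1 * n / s) ^ s := by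
    refine (choose_le m s hs).trans ?_
    apply pow_le_pow_left₀ (by positivity)
    apply div_le_div_of_nonneg_right _ hs'.le
    apply mul_le_mul_of_nonneg_left _ (Real.exp_pos 1).le
    exact_mod_cast hm
  have f2 : (n.choose t : ℝ) ≤ (Real.exp 1 * n / t) ^ t := choose_le n t ht1
  have f3 : (z ^ K) ^ s = z ^ (K * s) := by rw [← pow_mul]
  rw [f3]
  have f4 : z ^ (K * s) ≤ z ^ (t + s + (s + 1) / 2) :=
    pow_le_pow_of_le_one hz0.le hz1 hexp
  have f5 : (Real.exp 1 * n / t) ^ t * z ^ t = Real.exp t := by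
    rw [← mul_pow, hz]
    have : Real.exp 1 * n / t * (t / n) = Real.exp 1 := by field_simp
    rw [this, ← Real.exp_nat_mul]; simp
  have f6 : (Real.exp 1 * n / s) ^ s * z ^ s ≤ (Real.exp 1 * K) ^ s := by
    rw [← mul_pow]
    apply pow_le_pow_left₀ (by positivity)
    rw [hz]
    have : Real.exp 1 * n / s * (t / n) = Real.exp 1 * (t / s) := by field_simp
    rw [this]
    apply mul_le_mul_of_nonneg_left _ (Real.exp_pos 1).le
    rw [div_le_iff₀ hs']
    exact htK
  have f7 : z ^ ((s + 1) / 2) ≤ (K * s / n) ^ ((s + 1) / 2) := by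
    apply pow_le_pow_left₀ hz0.le
    rw [hz]
    exact div_le_div_of_nonneg_right htK hn'.le
  have f8 : Real.exp t ≤ Real.exp K ^ s := by
    rw [← Real.exp_nat_mul]
    apply Real.exp_le_exp.mpr
    rw [mul_comm]; exact htK
  have hD1 : 1 ≤ DK K := by
    unfold DK
    have e1 : 1 ≤ Real.exp 1 := Real.one_le_exp (by norm_num)
    have e2 : 1 ≤ Real.exp K := Real.one_le_exp hK'.le
    have e3 : (1 : ℝ) ≤ K := by
      have : 1 ≤ K := by omega
      exact_mod_cast this
    have e4 : 1 * 1 ≤ Real.exp 1 * K := mul_le_mul e1 e3 (by norm_num) (by linarith)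
    have e5 : 1 * 1 * 1 ≤ Real.exp 1 * K * Real.exp K := mul_le_mul e4 e2 (by norm_num) (by linarith)
    linarith
  calc (m.choose s : ℝ) * (n.choose t : ℝ) * z ^ (K * s)
      ≤ (Real.exp 1 * n / s) ^ s * (Real.exp 1 * n / t) ^ t * z ^ (t + s + (s + 1) / 2) := by
        apply mul_le_mul _ f4 (by positivity) (by positivity)
        exact mul_le_mul f1 f2 (by positivity) (by positivity)
    _ = ((Real.exp 1 * n / s) ^ s * z ^ s) * ((Real.exp 1 * n / t) ^ t * z ^ t)
          * z ^ ((s + 1) / 2) := by rw [pow_add, pow_add]; ring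
    _ ≤ (Real.exp 1 * K) ^ s * Real.exp K ^ s * (K * s / n) ^ ((s + 1) / 2) := by
        rw [f5]
        apply mul_le_mul _ f7 (by positivity) (by positivity)
        exact mul_le_mul f6 f8 (by positivity) (by positivity)
    _ = DK K ^ s * (K * s / n) ^ ((s + 1) / 2) := by
        rw [← mul_pow]; rfl
    _ ≤ DK K ^ (2 * ((s + 1) / 2)) * (K * s / n) ^ ((s + 1) / 2) := by
        apply mul_le_mul_of_nonneg_right _ (by positivity)
        apply pow_le_pow_right₀ hD1
        omega
    _ = (DK K ^ 2 * K * s / n) ^ ((s + 1) / 2) := by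
        rw [pow_mul, ← mul_pow]; congr 1; ring

lemma sum_geom (B : ℕ) : ∑ s ∈ Finset.Icc 1 B, (s : ℝ) * (1 / 2) ^ s ≤ 2 - (B + 2) * (1 / 2) ^ B := by
  induction B with
  | zero => simp
  | succ B ih =>
    rw [Finset.sum_Icc_succ_top (by omega)]
    push_cast
    rw [pow_succ]
    nlinarith

/-- the union bound is `O(1/n)` -/
lemma sum_term_le {K n m B : ℕ} (hK : 3 ≤ K) (hn : 0 < n) (hm : m ≤ n)
    (hB : 4 * (DK K ^ 2 * K * B) ≤ n) :
    ∑ s ∈ Finset.Icc 1 B, (m.choose s : ℝ) * (n.choose (K * s / 2) : ℝ) *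
        ((((K * s / 2 : ℕ) : ℝ) / n) ^ K) ^ s ≤ 8 * (DK K ^ 2 * K) / n := by
  have hn' : (0 : ℝ) < n := by exact_mod_cast hn
  have hK' : (0 : ℝ) < K := by
    have : 0 < K := by omega
    exact_mod_cast this
  have hDpos : 0 < DK K := by unfold DK; positivity
  have hD1 : 1 ≤ DK K := by
    unfold DK
    have e1 : 1 ≤ Real.exp 1 := Real.one_le_exp (by norm_num)
    have e2 : 1 ≤ Real.exp K := Real.one_le_exp hK'.le
    have e3 : (1 : ℝ) ≤ K := by
      have : 1 ≤ K := by omega
      exact_mod_cast this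
    have e4 : 1 * 1 ≤ Real.exp 1 * K := mul_le_mul e1 e3 (by norm_num) (by linarith)
    have e5 : 1 * 1 * 1 ≤ Real.exp 1 * K * Real.exp K := mul_le_mul e4 e2 (by norm_num) (by linarith)
    linarith
  have h1 : ∀ s ∈ Finset.Icc 1 B, (m.choose s : ℝ) * (n.choose (K * s / 2) : ℝ) *
        ((((K * s / 2 : ℕ) : ℝ) / n) ^ K) ^ s ≤ 4 * (DK K ^ 2 * K) / n * (s * (1 / 2) ^ s) := by
    intro s hs
    obtain ⟨hs1, hs2⟩ := Finset.mem_Icc.mp hs
    have hs' : (0 : ℝ) < s := by exact_mod_cast hs1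
    have hsB : (s : ℝ) ≤ B := by exact_mod_cast hs2
    have hKs : DK K ^ 2 * K * s ≤ DK K ^ 2 * K * B := mul_le_mul_of_nonneg_left hsB (by positivity)
    have hKs2 : (K : ℝ) * s ≤ DK K ^ 2 * K * s := by
      have : 1 ≤ DK K ^ 2 := one_le_pow₀ hD1
      nlinarith [mul_pos hK' hs']
    have hsn : K * s ≤ 2 * n := by
      have : ((K * s : ℕ) : ℝ) ≤ ((2 * n : ℕ) : ℝ) := by push_cast; linarith
      exact_mod_cast this
    refine (term_le hK hn hm hs1 hsn).trans ?_
    set y : ℝ := DK K ^ 2 * K * s / n with hy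
    have hy0 : 0 ≤ y := by positivity
    have hy4 : y ≤ 1 / 4 := by rw [hy, div_le_iff₀ hn']; linarith
    obtain ⟨q, hq⟩ : ∃ q, (s + 1) / 2 = q + 1 := ⟨(s + 1) / 2 - 1, by omega⟩
    rw [hq]
    calc y ^ (q + 1) = y * y ^ q := by ring
      _ ≤ y * (1 / 4) ^ q := mul_le_mul_of_nonneg_left (pow_le_pow_left₀ hy0 hy4 q) hy0
      _ = 4 * y * (1 / 2) ^ (2 * (q + 1)) := by
          rw [pow_mul, pow_succ]; norm_num; ring
      _ ≤ 4 * y * (1 / 2) ^ s := by
          apply mul_le_mul_of_nonneg_left _ (by positivity)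
          apply pow_le_pow_of_le_one (by norm_num) (by norm_num)
          omega
      _ = 4 * (DK K ^ 2 * K) / n * (s * (1 / 2) ^ s) := by rw [hy]; ring
  refine (Finset.sum_le_sum h1).trans ?_
  rw [← Finset.mul_sum]
  have h2 : ∑ s ∈ Finset.Icc 1 B, (s : ℝ) * (1 / 2) ^ s ≤ 2 := by
    have := sum_geom B
    have h3 : (0 : ℝ) ≤ (B + 2) * (1 / 2) ^ B := by positivity
    linarith
  calc 4 * (DK K ^ 2 * K) / n * ∑ s ∈ Finset.Icc 1 B, (s : ℝ) * (1 / 2) ^ s
      ≤ 4 * (DK K ^ 2 * K) / n * 2 := mul_le_mul_of_nonneg_left h2 (by positivity)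
    _ = 8 * (DK K ^ 2 * K) / n := by ring

end Pool.Agent.H519_UE
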