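import Pool.Agent.H519_UE.Vertex

/-!
# The two increments of the expected rank
-/

set_option linter.all false

namespace Pool.Agent.H519_UE

open scoped BigOperators

variable {F : Type*} [Field F]

lemma A_slow_lip {n θ : ℕ} (hn : 0 < n) (hθ : 0 < θ) {M Q : Op F} (hM : IsMk M) (hQ : IsMk Q)
    (s : ℕ) (hs : ∀ R, Q (X n) R ≤ (P n ^ s) (X n) R) (b : ℕ) (f : ℝ → ℝ) (L : ℝ) (hL : 0 ≤ L)
    (hf : ∀ x y, 0 ≤ x → x ≤ y → y ≤ 1 → f y - f x ≤ L * (y - x)) (R : FSub F) :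
    (A n θ * M * Q ^ b : Op F) (fun R => f (X n R)) R
      ≤ (A n θ * M : Op F) (fun R => f (X n R)) R + L * (b * s / θ) := by
  have hA := A_isMk (F := F) hn hθ
  have hAM := hA.mul hM
  have h1 : ∀ S, (Q ^ b) (fun R => f (X n R)) S ≤
      ((fun R => f (X n R)) + L • ((Q ^ b) (X n) - X n) : Fn F) S := by
    intro S
    exact (hQ.pow b).lipX n f L hf S
  have h2 := hAM.pos _ _ h1 R
  rw [map_add, map_smul, map_sub] at h2
  have h3 := A_slow hn hθ hM hQ s hs b R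
  show (A n θ * M : Op F) ((Q ^ b) (fun R => f (X n R))) R ≤ _
  have h4 : (A n θ * M : Op F) ((Q ^ b) (X n)) R ≤ (A n θ * M : Op F) (X n) R + b * s / θ := h3
  simp only [Pi.add_apply, Pi.smul_apply, Pi.sub_apply, smul_eq_mul] at h2
  have h5 : L * ((A n θ * M : Op F) ((Q ^ b) (X n)) R - (A n θ * M : Op F) (X n) R)
      ≤ L * (b * s / θ) := mul_le_mul_of_nonneg_left (by linarith) hL
  linarith

lemma pow_lip (m : ℕ) (x y : ℝ) (hx : 0 ≤ x) (hxy : x ≤ y) (hy : y ≤ 1) :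
    y ^ m - x ^ m ≤ m * (y - x) := by
  induction m with
  | zero => simp
  | succ m ih =>
    have h1 : y ^ (m + 1) - x ^ (m + 1) = y * (y ^ m - x ^ m) + x ^ m * (y - x) := by ring
    have h2 : 0 ≤ y ^ m - x ^ m := sub_nonneg.mpr (pow_le_pow_left₀ hx hxy m)
    have h3 : y * (y ^ m - x ^ m) ≤ 1 * (y ^ m - x ^ m) := mul_le_mul_of_nonneg_right hy h2
    have h4 : x ^ m * (y - x) ≤ 1 * (y - x) :=
      mul_le_mul_of_nonneg_right (pow_le_one₀ hx (hxy.trans hy)) (by linarith)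
    push_cast
    nlinarith

lemma X_pow_mono (n m : ℕ) : Monotone (fun R : FSub F => X n R ^ m) := by
  intro R S h
  exact pow_le_pow_left₀ (X_nonneg _ _) (X_mono n h) m

section rows

variable {l : ℕ} {τ : Type*} [Fintype τ] {π : τ → ℝ} {a : τ → Fin (l + 2) → F}
  (hπ0 : ∀ t, 0 ≤ π t) (hπ1 : ∑ t, π t = 1) (ha : ∀ t i, a t i ≠ 0) {n θ : ℕ} (hn : 0 < n)
  (hθ : 0 < θ)

include hπ0 hπ1 ha hn hθ in
lemma U_pow_rk_ge {M : Op F} (hM : IsMk M) (b : ℕ) (R : FSub F) :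
    (A n θ * M : Op F) rk R + b - b * (A n θ * M : Op F) (fun R => X n R ^ (l + 1)) R
      - ((l : ℝ) + 2) ^ 2 * b ^ 2 / θ ≤ (A n θ * M * U π a n ^ b : Op F) rk R := by
  induction b with
  | zero => simp
  | succ b ih =>
    have hA := A_isMk (F := F) hn hθ
    have hU := U_isMk (a := a) hπ0 hπ1 hn
    have hQ : IsMk (A n θ * M * U π a n ^ b) := (hA.mul hM).mul (hU.pow b)
    have h1 : ∀ S, ((rk + fun _ => 1) - (fun R => X n R ^ (l + 1))
        - ((l : ℝ) + 1) • ((P n ^ l) (X n) - X n) : Fn F) S ≤ U π a n rk S := by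
      intro S
      exact U_rk_ge hπ0 hπ1 hn ha S
    have h2 := hQ.pos _ _ h1 R
    rw [map_sub, map_sub, map_add, map_smul, map_sub, hQ.one] at h2
    simp only [Pi.add_apply, Pi.smul_apply, Pi.sub_apply, smul_eq_mul] at h2
    have h3 := A_err hn hθ (hM.mul (hU.pow b)) l R
    rw [← mul_assoc] at h3
    have h4 := A_slow_lip hn hθ hM hU (l + 2) (U_slow hπ0 hπ1 hn) b (fun x => x ^ (l + 1))
      ((l + 1 : ℕ) : ℝ) (by positivity) (fun x y hx hxy hy => pow_lip (l + 1) x y hx hxy hy) R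
    rw [pow_succ (U π a n) b, ← mul_assoc]
    show _ ≤ (A n θ * M * U π a n ^ b : Op F) (U π a n rk) R
    have hθ' : (0 : ℝ) < θ := by exact_mod_cast hθ
    have h5 : ((l : ℝ) + 2) ^ 2 * b ^ 2 / θ + ((l : ℝ) + 1) * (b * (l + 2) / θ) + ((l : ℝ) + 1) * (l / θ)
        ≤ ((l : ℝ) + 2) ^ 2 * (b + 1) ^ 2 / θ := by
      rw [← sub_nonneg]
      have : ((l : ℝ) + 2) ^ 2 * (b + 1) ^ 2 / θ - (((l : ℝ) + 2) ^ 2 * b ^ 2 / θ
          + ((l : ℝ) + 1) * (b * (l + 2) / θ) + ((l : ℝ) + 1) * (l / θ))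
          = (((l : ℝ) + 2) ^ 2 * (2 * b + 1) - ((l : ℝ) + 1) * (b * (l + 2)) - ((l : ℝ) + 1) * l) / θ := by
        field_simp; ring
      rw [this]
      apply div_nonneg _ hθ'.le
      have hl : (0 : ℝ) ≤ l := Nat.cast_nonneg l
      have hb : (0 : ℝ) ≤ b := Nat.cast_nonneg b
      nlinarith [mul_nonneg hl hb, mul_nonneg (mul_nonneg hl hl) hb]
    have h6 : ((l : ℝ) + 1) * ((A n θ * M * U π a n ^ b : Op F) ((P n ^ l) (X n)) R
        - (A n θ * M * U π a n ^ b : Op F) (X n) R) ≤ ((l : ℝ) + 1) * (l / θ) :=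
      mul_le_mul_of_nonneg_left (by linarith) (by positivity)
    push_cast at h4 ⊢
    linarith

include hπ0 hπ1 hn hθ in
lemma W_pow_rk_le {M : Op F} (hM : IsMk M) (b : ℕ) (R : FSub F) :
    (A n θ * M * W π a n ^ b : Op F) rk R ≤ (A n θ * M : Op F) rk R
      + b * (1 - (A n θ * M : Op F) (fun R => X n R ^ (l + 2)) R) := by
  induction b with
  | zero => simp
  | succ b ih =>
    have hA := A_isMk (F := F) hn hθ
    have hW := W_isMk (a := a) hπ0 hπ1 hn
    have hQ : IsMk (A n θ * M * W π a n ^ b) := (hA.mul hM).mul (hW.pow b)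
    have h1 : ∀ S, W π a n rk S ≤ ((rk + fun _ => 1) - (fun R => X n R ^ (l + 2)) : Fn F) S := by
      intro S
      have := W_rk_le (a := a) hπ0 hπ1 hn S
      simp only [Pi.add_apply, Pi.sub_apply]
      linarith
    have h2 := hQ.pos _ _ h1 R
    rw [map_sub, map_add, hQ.one] at h2
    simp only [Pi.add_apply, Pi.sub_apply] at h2
    have h3 : (A n θ * M : Op F) (fun R => X n R ^ (l + 2)) R
        ≤ (A n θ * M * W π a n ^ b : Op F) (fun R => X n R ^ (l + 2)) R :=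
      (hA.mul hM).pos _ _ (fun S => (hW.pow b).ge _ (X_pow_mono n _) S) R
    rw [pow_succ (W π a n) b, ← mul_assoc]
    show (A n θ * M * W π a n ^ b : Op F) (W π a n rk) R ≤ _
    push_cast
    linarith

include hπ0 hπ1 ha hn hθ in
/-- the fixed-`b` comparison -/
lemma V_pow_ge {M : Op F} (hM : IsMk M) (hMl : Low n M) (b : ℕ) :
    (A n θ * M * W π a n ^ b : Op F) rk FSub.zero
      + (A n θ * M * W π a n ^ b : Op F)
          (fun R => 1 - (1 - X n R ^ (l + 1)) ^ b - b * (X n R ^ (l + 1) - X n R ^ (l + 2))) FSub.zero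
      - 3 * ((l : ℝ) + 2) ^ 2 * b ^ 2 / θ
      ≤ (A n θ * M * V π a n ^ b : Op F) rk FSub.zero := by
  have hA := A_isMk (F := F) hn hθ
  have hU := U_isMk (a := a) hπ0 hπ1 hn
  have hV := V_isMk (a := a) hπ0 hπ1 hn
  have hW := W_isMk (a := a) hπ0 hπ1 hn
  have hAM := hA.mul hM
  have hAMl : Low n (A n θ * M) := (Low.A θ).mul hMl
  have hθ' : (0 : ℝ) < θ := by exact_mod_cast hθ
  -- lower bound for the new system
  have h1 : ∀ S, ((fun R => rk (low n R)) + ind (e n) : Fn F) S ≤ rk S := fun S => rk_low n S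
  have h2 := (hAM.mul (hV.pow b)).pos _ _ h1 FSub.zero
  rw [map_add] at h2
  simp only [Pi.add_apply] at h2
  have h3 : (A n θ * M * V π a n ^ b : Op F) (fun R => rk (low n R)) FSub.zero
      = (A n θ * M * U π a n ^ b : Op F) rk FSub.zero := by
    show (A n θ * M : Op F) ((V π a n ^ b) (fun R => rk (low n R))) FSub.zero = _
    have : (V π a n ^ b) (fun R => rk (low n R)) = fun R => (U π a n ^ b) rk (low n R) :=
      funext fun S => V_pow_low b rk S
    rw [this, hAMl, low_zero]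
    rfl
  have h4 : (A n θ * M : Op F) (fun R => 1 - (1 - X n R ^ (l + 1)) ^ b) FSub.zero
      ≤ (A n θ * M * V π a n ^ b : Op F) (ind (e n)) FSub.zero :=
    hAM.pos _ _ (fun S => V_pow_ind hπ0 hπ1 hn ha b S) _
  have h5 := U_pow_rk_ge hπ0 hπ1 ha hn hθ hM b FSub.zero
  have h6 := W_pow_rk_le (a := a) hπ0 hπ1 hn hθ hM b FSub.zero
  -- replace M by M * W^b
  have h7 := A_slow_lip hn hθ hM hW (l + 2) (W_slow hπ0 hπ1 hn) b
    (fun x => 1 - (1 - x ^ (l + 1)) ^ b) (b * (l + 1 : ℕ)) (by positivity) (by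
      intro x y hx hxy hy
      have e1 := pow_lip (l + 1) x y hx hxy hy
      have e2 : x ^ (l + 1) ≤ y ^ (l + 1) := pow_le_pow_left₀ hx hxy _
      have e3 : y ^ (l + 1) ≤ 1 := pow_le_one₀ (hx.trans hxy) hy
      have e4 : 0 ≤ x ^ (l + 1) := pow_nonneg hx _
      have e5 := pow_lip b (1 - y ^ (l + 1)) (1 - x ^ (l + 1)) (by linarith) (by linarith) (by linarith)
      have e6 : (b : ℝ) * (1 - x ^ (l + 1) - (1 - y ^ (l + 1))) ≤ b * ((l + 1 : ℕ) * (y - x)) :=
        mul_le_mul_of_nonneg_left (by linarith) (Nat.cast_nonneg b)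
      linarith) FSub.zero
  have h8 := A_slow_lip hn hθ hM hW (l + 2) (W_slow hπ0 hπ1 hn) b
    (fun x => x ^ (l + 2)) ((l + 2 : ℕ) : ℝ) (by positivity)
    (fun x y hx hxy hy => pow_lip (l + 2) x y hx hxy hy) FSub.zero
  have h9 : (A n θ * M : Op F) (fun R => X n R ^ (l + 1)) FSub.zero
      ≤ (A n θ * M * W π a n ^ b : Op F) (fun R => X n R ^ (l + 1)) FSub.zero :=
    hAM.pos _ _ (fun S => (hW.pow b).ge _ (X_pow_mono n _) S) _
  have h10 : (A n θ * M * W π a n ^ b : Op F)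
      (fun R => 1 - (1 - X n R ^ (l + 1)) ^ b - b * (X n R ^ (l + 1) - X n R ^ (l + 2))) FSub.zero
      = (A n θ * M * W π a n ^ b : Op F) (fun R => 1 - (1 - X n R ^ (l + 1)) ^ b) FSub.zero
        - b * ((A n θ * M * W π a n ^ b : Op F) (fun R => X n R ^ (l + 1)) FSub.zero
          - (A n θ * M * W π a n ^ b : Op F) (fun R => X n R ^ (l + 2)) FSub.zero) := by
    have : (fun R : FSub F => 1 - (1 - X n R ^ (l + 1)) ^ b - b * (X n R ^ (l + 1) - X n R ^ (l + 2)))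
        = (fun R => 1 - (1 - X n R ^ (l + 1)) ^ b)
          - (b : ℝ) • ((fun R => X n R ^ (l + 1)) - (fun R => X n R ^ (l + 2))) := rfl
    rw [this, map_sub, map_smul, map_sub]
    rfl
  rw [h10]
  have hb : (0 : ℝ) ≤ b := Nat.cast_nonneg b
  have h11 : (b : ℝ) * (A n θ * M : Op F) (fun R => X n R ^ (l + 1)) FSub.zero
      ≤ b * (A n θ * M * W π a n ^ b : Op F) (fun R => X n R ^ (l + 1)) FSub.zero :=
    mul_le_mul_of_nonneg_left h9 hb
  have h12 : (b : ℝ) * (A n θ * M * W π a n ^ b : Op F) (fun R => X n R ^ (l + 2)) FSub.zero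
      ≤ b * ((A n θ * M : Op F) (fun R => X n R ^ (l + 2)) FSub.zero
        + ((l + 2 : ℕ) : ℝ) * (b * ((l + 2 : ℕ) : ℝ) / θ)) :=
    mul_le_mul_of_nonneg_left h8 hb
  have h13 : (b : ℝ) * (((l + 2 : ℕ) : ℝ) * (b * ((l + 2 : ℕ) : ℝ) / θ))
      = ((l : ℝ) + 2) ^ 2 * b ^ 2 / θ := by push_cast; field_simp
  have h14 : (b : ℝ) * (l + 1 : ℕ) * (b * ((l + 2 : ℕ) : ℝ) / θ) ≤ ((l : ℝ) + 2) ^ 2 * b ^ 2 / θ := by
    have : (b : ℝ) * (l + 1 : ℕ) * (b * ((l + 2 : ℕ) : ℝ) / θ)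
        = (((l : ℝ) + 1) * (l + 2) * b ^ 2) / θ := by push_cast; field_simp
    rw [this]
    apply div_le_div_of_nonneg_right _ hθ'.le
    have hl : (0 : ℝ) ≤ l := Nat.cast_nonneg l
    nlinarith [mul_nonneg (sq_nonneg (b : ℝ)) hl, sq_nonneg (b : ℝ)]
  have h15 : 3 * ((l : ℝ) + 2) ^ 2 * b ^ 2 / θ = 3 * (((l : ℝ) + 2) ^ 2 * b ^ 2 / θ) := by ring
  rw [h15]
  rw [h3] at h2
  linarith

/-! ### Binomial weights -/

/-- binomial weight -/
noncomputable def bw (m : ℕ) (p : ℝ) (b : ℕ) : ℝ := (m.choose b : ℝ) * (p ^ b * (1 - p) ^ (m - b))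

lemma bw_nonneg (m : ℕ) {p : ℝ} (h0 : 0 ≤ p) (h1 : p ≤ 1) (b : ℕ) : 0 ≤ bw m p b := by
  unfold bw
  have : 0 ≤ 1 - p := by linarith
  positivity

lemma bw_sum_pow (m : ℕ) (p y : ℝ) :
    ∑ b ∈ Finset.range (m + 1), bw m p b * y ^ b = (p * y + (1 - p)) ^ m := by
  rw [add_pow]
  refine Finset.sum_congr rfl fun b _ => ?_
  unfold bw; rw [mul_pow]; ring

lemma bw_sum (m : ℕ) (p : ℝ) : ∑ b ∈ Finset.range (m + 1), bw m p b = 1 := by
  have := bw_sum_pow m p 1
  simpa using this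

lemma bw_eq_bernstein (m : ℕ) (p : ℝ) (b : ℕ) : bw m p b = (bernsteinPolynomial ℝ m b).eval p := by
  unfold bw bernsteinPolynomial
  simp [mul_assoc]

lemma bw_sum_mul (m : ℕ) (p : ℝ) :
    ∑ b ∈ Finset.range (m + 1), bw m p b * b = m * p := by
  have := congrArg (Polynomial.eval p) (bernsteinPolynomial.sum_smul ℝ m)
  rw [Polynomial.eval_finset_sum] at this
  simp only [nsmul_eq_mul, Polynomial.eval_mul, Polynomial.eval_natCast, Polynomial.eval_X,
    ← bw_eq_bernstein] at this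
  rw [← this]
  exact Finset.sum_congr rfl fun b _ => mul_comm _ _

lemma bw_sum_sq (m : ℕ) {p : ℝ} (h0 : 0 ≤ p) :
    ∑ b ∈ Finset.range (m + 1), bw m p b * (b : ℝ) ^ 2 ≤ (m * p) ^ 2 + m * p := by
  have h1 := congrArg (Polynomial.eval p) (bernsteinPolynomial.sum_mul_smul ℝ m)
  rw [Polynomial.eval_finset_sum] at h1
  simp only [nsmul_eq_mul, Polynomial.eval_mul, Polynomial.eval_natCast, Polynomial.eval_X,
    Polynomial.eval_pow, ← bw_eq_bernstein] at h1
  have h2 : ∑ b ∈ Finset.range (m + 1), bw m p b * (b : ℝ) ^ 2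
      = ∑ b ∈ Finset.range (m + 1), ((b * (b - 1) : ℕ) : ℝ) * bw m p b
        + ∑ b ∈ Finset.range (m + 1), bw m p b * b := by
    rw [← Finset.sum_add_distrib]
    refine Finset.sum_congr rfl fun b _ => ?_
    rcases Nat.eq_zero_or_pos b with h | h
    · simp [h]
    · have : ((b * (b - 1) : ℕ) : ℝ) = (b : ℝ) * (b - 1) := by
        push_cast [Nat.cast_sub h]; ring
      rw [this]; ring
  rw [h2, h1, bw_sum_mul]
  have h3 : ((m * (m - 1) : ℕ) : ℝ) ≤ (m : ℝ) ^ 2 := by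
    have : m * (m - 1) ≤ m ^ 2 := by rw [sq]; exact Nat.mul_le_mul_left _ (Nat.sub_le _ _)
    exact_mod_cast this
  have h4 : ((m * (m - 1) : ℕ) : ℝ) * p ^ 2 ≤ (m : ℝ) ^ 2 * p ^ 2 :=
    mul_le_mul_of_nonneg_right h3 (sq_nonneg p)
  nlinarith

include hπ0 hπ1 hn in
lemma comm_W_V : Commute (W π a n) (V π a n) := by
  have hW := W_isMk (a := a) hπ0 hπ1 hn
  unfold V
  exact Commute.sum_right _ _ _ fun t _ =>
    (Commute.sum_right _ _ _ fun i _ => (hW.comm_Av _ _).smul_right _).smul_right _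

lemma W_isLow : Low n (W π a n) := fun φ R => W_low φ R

include hπ0 hπ1 hn in
lemma binom_expand (m : ℕ) (p : ℝ) (M : Op F) (φ : Fn F) (R : FSub F) :
    (M * ((1 - p) • W π a n + p • V π a n) ^ m : Op F) φ R
      = ∑ b ∈ Finset.range (m + 1), bw m p b * (M * W π a n ^ (m - b) * V π a n ^ b : Op F) φ R := by
  have hc : Commute (p • V π a n) ((1 - p) • W π a n) :=
    (((comm_W_V (a := a) hπ0 hπ1 hn).symm).smul_left p).smul_right (1 - p)
  rw [add_comm ((1 - p) • W π a n) (p • V π a n), hc.add_pow, Finset.mul_sum,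
    LinearMap.sum_apply, Finset.sum_apply]
  refine Finset.sum_congr rfl fun b _ => ?_
  have hc2 : Commute (V π a n ^ b) (W π a n ^ (m - b)) :=
    ((comm_W_V (a := a) hπ0 hπ1 hn).symm).pow_pow b (m - b)
  rw [smul_pow, smul_pow, smul_mul_smul_comm, hc2.eq, ← nsmul_eq_mul', mul_smul_comm, mul_smul_comm,
    ← mul_assoc, ← Nat.cast_smul_eq_nsmul ℝ]
  simp only [LinearMap.smul_apply, Pi.smul_apply, smul_eq_mul]
  unfold bw
  ring

include hπ0 hπ1 ha hn hθ in
/-- adding the new variable: the mixture of rows containing and not containing it -/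
lemma Z_ge (m : ℕ) {p : ℝ} (hp0 : 0 ≤ p) (hp1 : p ≤ 1) :
    (A n θ * W π a n ^ m : Op F) rk FSub.zero
      + (A n θ * W π a n ^ m : Op F)
          (fun R => 1 - (1 - p * X n R ^ (l + 1)) ^ m
            - m * p * (X n R ^ (l + 1) - X n R ^ (l + 2))) FSub.zero
      - 3 * ((l : ℝ) + 2) ^ 2 * ((m * p) ^ 2 + m * p) / θ
      ≤ (A n θ * ((1 - p) • W π a n + p • V π a n) ^ m : Op F) rk FSub.zero := by
  have hθ' : (0 : ℝ) < θ := by exact_mod_cast hθ
  have hW := W_isMk (a := a) hπ0 hπ1 hn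
  rw [binom_expand hπ0 hπ1 hn]
  have h1 : ∀ b ∈ Finset.range (m + 1),
      bw m p b * ((A n θ * W π a n ^ m : Op F) rk FSub.zero
        + (A n θ * W π a n ^ m : Op F)
          (fun R => 1 - (1 - X n R ^ (l + 1)) ^ b - b * (X n R ^ (l + 1) - X n R ^ (l + 2))) FSub.zero
        - 3 * ((l : ℝ) + 2) ^ 2 * b ^ 2 / θ)
      ≤ bw m p b * (A n θ * W π a n ^ (m - b) * V π a n ^ b : Op F) rk FSub.zero := by
    intro b hb
    apply mul_le_mul_of_nonneg_left _ (bw_nonneg m hp0 hp1 b)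
    have h2 := V_pow_ge hπ0 hπ1 ha hn hθ (hW.pow (m - b)) (W_isLow.pow _) b
    have h3 : A n θ * W π a n ^ (m - b) * W π a n ^ b = A n θ * W π a n ^ m := by
      rw [mul_assoc, ← pow_add, Nat.sub_add_cancel (Nat.lt_succ_iff.mp (Finset.mem_range.mp hb))]
    rw [h3] at h2
    exact h2
  refine le_trans ?_ (Finset.sum_le_sum h1)
  -- evaluate the left side
  have h4 : (A n θ * W π a n ^ m : Op F)
          (fun R => 1 - (1 - p * X n R ^ (l + 1)) ^ m
            - m * p * (X n R ^ (l + 1) - X n R ^ (l + 2))) FSub.zero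
      = ∑ b ∈ Finset.range (m + 1), bw m p b * (A n θ * W π a n ^ m : Op F)
          (fun R => 1 - (1 - X n R ^ (l + 1)) ^ b - b * (X n R ^ (l + 1) - X n R ^ (l + 2)))
            FSub.zero := by
    have : (fun R : FSub F => 1 - (1 - p * X n R ^ (l + 1)) ^ m
            - m * p * (X n R ^ (l + 1) - X n R ^ (l + 2)))
        = ∑ b ∈ Finset.range (m + 1), bw m p b •
          (fun R : FSub F => 1 - (1 - X n R ^ (l + 1)) ^ b
            - b * (X n R ^ (l + 1) - X n R ^ (l + 2))) := by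
      funext R
      rw [Finset.sum_apply]
      simp only [Pi.smul_apply, smul_eq_mul]
      have e1 := bw_sum m p
      have e2 := bw_sum_pow m p (1 - X n R ^ (l + 1))
      have e3 := bw_sum_mul m p
      have e4 : ∑ b ∈ Finset.range (m + 1), bw m p b * (1 - (1 - X n R ^ (l + 1)) ^ b
            - b * (X n R ^ (l + 1) - X n R ^ (l + 2)))
          = ∑ b ∈ Finset.range (m + 1), bw m p b
            - ∑ b ∈ Finset.range (m + 1), bw m p b * (1 - X n R ^ (l + 1)) ^ b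
            - (∑ b ∈ Finset.range (m + 1), bw m p b * b) * (X n R ^ (l + 1) - X n R ^ (l + 2)) := by
        rw [Finset.sum_mul, ← Finset.sum_sub_distrib, ← Finset.sum_sub_distrib]
        exact Finset.sum_congr rfl fun b _ => by ring
      rw [e4, e1, e2, e3]
      have e5 : p * (1 - X n R ^ (l + 1)) + (1 - p) = 1 - p * X n R ^ (l + 1) := by ring
      rw [e5]
    rw [this, map_sum, Finset.sum_apply]
    refine Finset.sum_congr rfl fun b _ => ?_
    rw [map_smul]; rfl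
  rw [h4]
  have h5 : ∑ b ∈ Finset.range (m + 1), bw m p b * ((A n θ * W π a n ^ m : Op F) rk FSub.zero
        + (A n θ * W π a n ^ m : Op F)
          (fun R => 1 - (1 - X n R ^ (l + 1)) ^ b - b * (X n R ^ (l + 1) - X n R ^ (l + 2))) FSub.zero
        - 3 * ((l : ℝ) + 2) ^ 2 * b ^ 2 / θ)
      = (∑ b ∈ Finset.range (m + 1), bw m p b) * (A n θ * W π a n ^ m : Op F) rk FSub.zero
        + ∑ b ∈ Finset.range (m + 1), bw m p b * (A n θ * W π a n ^ m : Op F)
          (fun R => 1 - (1 - X n R ^ (l + 1)) ^ b - b * (X n R ^ (l + 1) - X n R ^ (l + 2)))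
            FSub.zero
        - (∑ b ∈ Finset.range (m + 1), bw m p b * (b : ℝ) ^ 2) * (3 * ((l : ℝ) + 2) ^ 2 / θ) := by
    rw [Finset.sum_mul, Finset.sum_mul, ← Finset.sum_add_distrib, ← Finset.sum_sub_distrib]
    exact Finset.sum_congr rfl fun b _ => by ring
  rw [h5, bw_sum, one_mul]
  have h6 := bw_sum_sq m hp0
  have h7 : (∑ b ∈ Finset.range (m + 1), bw m p b * (b : ℝ) ^ 2) * (3 * ((l : ℝ) + 2) ^ 2 / θ)
      ≤ ((m * p) ^ 2 + m * p) * (3 * ((l : ℝ) + 2) ^ 2 / θ) :=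
    mul_le_mul_of_nonneg_right h6 (by positivity)
  have h8 : 3 * ((l : ℝ) + 2) ^ 2 * ((m * p) ^ 2 + m * p) / θ
      = ((m * p) ^ 2 + m * p) * (3 * ((l : ℝ) + 2) ^ 2 / θ) := by ring
  rw [h8]
  linarith

end rows

end Pool.Agent.H519_UE
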