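import Pool.Agent.H519_UE.Quasi

/-!
# Families with symmetric depth two trees are affine
-/

set_option linter.all false

namespace Pool.Agent.H519_UE

open scoped BigOperators

section tree

variable {k : ℕ} {Ω : Type} {Ψ : Set (Con k Ω)}

lemma addLast_update_last (hk : 0 < k) (σ : Fin (k - 1) → Ω) (w s : Ω) :
    addLast σ s = Function.update (addLast (k := k) σ w) ⟨k - 1, by omega⟩ s := by
  funext i
  unfold addLast
  by_cases hi : i = ⟨k - 1, by omega⟩
  · subst hi
    rw [Function.update_self, dif_neg (lt_irrefl _)]
  · rw [Function.update_of_ne hi]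
    have : (i : ℕ) < k - 1 := by
      have h1 := i.isLt
      have h2 : (i : ℕ) ≠ k - 1 := fun h => hi (Fin.ext h)
      omega
    rw [dif_pos this, dif_pos this]

lemma addLast_update (σ : Fin (k - 1) → Ω) (j : Fin (k - 1)) (a s : Ω) :
    addLast (Function.update σ j a) s
      = Function.update (addLast (k := k) σ s) ⟨j, by omega⟩ a := by
  funext i
  unfold addLast
  by_cases hi : i = ⟨j, by omega⟩
  · subst hi
    rw [Function.update_self, dif_pos j.isLt, Function.update_self]
  · rw [Function.update_of_ne hi]
    by_cases h : (i : ℕ) < k - 1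
    · rw [dif_pos h, dif_pos h, Function.update_of_ne]
      intro h2
      apply hi
      apply Fin.ext
      have := congrArg Fin.val h2
      exact this
    · rw [dif_neg h, dif_neg h]

/-- the two-level tree function -/
lemma tree_inv (F : Con k Ω → (Fin (k - 1) → Ω) → Ω)
    (hF : ∀ ψ ∈ Ψ, ∀ σ, ψ (addLast σ (F ψ σ)) = true)
    (hsym : ∀ g ∈ treeFn Ψ 2, SymmFn g) (ψ : Con k Ω) (hψ : ψ ∈ Ψ) (χ : Fin (k - 1) → Con k Ω)
    (hχ : ∀ j, χ j ∈ Ψ) (s s' : Fin (k - 1) → Fin (k - 1) → Ω) (j1 i1 j2 i2 : Fin (k - 1))
    (h1 : s' j1 i1 = s j2 i2) (h2 : s' j2 i2 = s j1 i1)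
    (h3 : ∀ j i, ¬ (j = j1 ∧ i = i1) → ¬ (j = j2 ∧ i = i2) → s' j i = s j i) :
    F ψ (fun j => F (χ j) (s' j)) = F ψ (fun j => F (χ j) (s j)) := by
  classical
  have hmem : (fun t : Leaf k 2 → Ω => F ψ fun j => F (χ j) fun i => t (j, (i, ())))
      ∈ treeFn Ψ 2 := by
    refine ⟨ψ, hψ, F ψ, hF ψ hψ, fun j => fun t : Leaf k 1 → Ω => F (χ j) fun i => t (i, ()), ?_,
      rfl⟩
    intro j
    exact ⟨χ j, hχ j, F (χ j), hF _ (hχ j), fun _ => fun t => t (), fun _ => rfl, rfl⟩
  have key := hsym _ hmem
    (Equiv.swap ((j1, (i1, ())) : Leaf k 2) ((j2, (i2, ())) : Leaf k 2))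
    (fun p : Fin (k - 1) × (Fin (k - 1) × Unit) => s p.1 p.2.1)
  simp only [Function.comp_apply] at key
  rw [← key]
  congr 1
  funext j
  congr 1
  funext i
  by_cases hA : j = j1 ∧ i = i1
  · obtain ⟨rfl, rfl⟩ := hA
    rw [Equiv.swap_apply_left]
    exact h1
  · by_cases hB : j = j2 ∧ i = i2
    · obtain ⟨rfl, rfl⟩ := hB
      rw [Equiv.swap_apply_right]
      exact h2
    · rw [Equiv.swap_apply_of_ne_of_ne]
      · exact h3 j i hA hB
      · intro h
        have e1 : j = j1 := congrArg (fun p : Fin (k - 1) × (Fin (k - 1) × Unit) => p.1) h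
        have e2 : i = i1 := congrArg (fun p : Fin (k - 1) × (Fin (k - 1) × Unit) => p.2.1) h
        exact hA ⟨e1, e2⟩
      · intro h
        have e1 : j = j2 := congrArg (fun p : Fin (k - 1) × (Fin (k - 1) × Unit) => p.1) h
        have e2 : i = i2 := congrArg (fun p : Fin (k - 1) × (Fin (k - 1) × Unit) => p.2.1) h
        exact hB ⟨e1, e2⟩

lemma sum_update_add {K : Type*} [Fintype K] [DecidableEq K] {Ω X : Type*} [AddCommMonoid X]
    (g : Ω → X) (y : K → Ω) (p : K) (a : Ω) :
    ∑ j, g (Function.update y p a j) + g (y p) = ∑ j, g (y j) + g a := by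
  rw [← Finset.add_sum_erase _ _ (Finset.mem_univ p),
    ← Finset.add_sum_erase _ (fun j => g (y j)) (Finset.mem_univ p), Function.update_self]
  have : ∑ j ∈ Finset.univ.erase p, g (Function.update y p a j)
      = ∑ j ∈ Finset.univ.erase p, g (y j) := by
    refine Finset.sum_congr rfl fun j hj => ?_
    rw [Function.update_of_ne (Finset.ne_of_mem_erase hj)]
  rw [this]
  abel

end tree

theorem affine_of_symm {k : ℕ} (hk : 3 ≤ k) {Ω : Type} [Finite Ω] [Nonempty Ω]
    {Ψ : Set (Con k Ω)} (hne : Ψ.Nonempty)
    (hUE : ∀ ψ ∈ Ψ, IsUE ψ) (hsym : ∀ g ∈ treeFn Ψ 2, SymmFn g) : AffineFam Ψ := by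
  classical
  obtain ⟨ω⟩ := ‹Nonempty Ω›
  obtain ⟨ψ0, hψ0⟩ := hne
  have hFex : ∀ ψ : Con k Ω, ∃ f : (Fin (k - 1) → Ω) → Ω,
      ψ ∈ Ψ → ∀ σ, ψ (addLast σ (f σ)) = true := by
    intro ψ
    by_cases hψ : ψ ∈ Ψ
    · have : ∀ σ : Fin (k - 1) → Ω, ∃ s, ψ (addLast σ s) = true := by
        intro σ
        obtain ⟨s, hs⟩ := (hUE ψ hψ).ex ⟨k - 1, by omega⟩ (addLast σ ω)
        refine ⟨s, ?_⟩
        rw [addLast_update_last (by omega) σ ω s]
        exact hs
      choose f hf using this
      exact ⟨f, fun _ => hf⟩
    · exact ⟨fun _ => ω, fun h => absurd h hψ⟩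
  choose F hF using hFex
  have hFuniq : ∀ ψ ∈ Ψ, ∀ (σ : Fin (k - 1) → Ω) (s : Ω), ψ (addLast σ s) = true → s = F ψ σ := by
    intro ψ hψ σ s hs
    have h1 := hF ψ hψ σ
    rw [addLast_update_last (by omega) σ ω _] at hs h1
    exact (hUE ψ hψ).uniq hs h1
  have hFinj : ∀ ψ ∈ Ψ, ∀ (j : Fin (k - 1)) (x : Fin (k - 1) → Ω) (a b : Ω),
      F ψ (Function.update x j a) = F ψ (Function.update x j b) → a = b := by
    intro ψ hψ j x a b h
    have h1 := hF ψ hψ (Function.update x j a)
    have h2 := hF ψ hψ (Function.update x j b)
    rw [← h, addLast_update] at h2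
    rw [addLast_update] at h1
    exact (hUE ψ hψ).uniq h1 h2
  have hT := tree_inv F hF hsym
  set c0 : Fin (k - 1) := ⟨0, by omega⟩ with hc0
  set c1 : Fin (k - 1) := ⟨1, by omega⟩ with hc1
  have h01 : c0 ≠ c1 := by rw [hc0, hc1]; simp
  set Z : Fin (k - 1) → Ω := fun _ => ω with hZ
  -- each function is symmetric under transpositions
  have L1 : ∀ ψ ∈ Ψ, ∀ (x x' : Fin (k - 1) → Ω) (i j : Fin (k - 1)), x' i = x j → x' j = x i →
      (∀ t, t ≠ i → t ≠ j → x' t = x t) → F ψ x' = F ψ x := by
    intro ψ hψ x x' i j h1 h2 h3
    have hχ : ∀ j, Function.update (fun _ => ψ0) c0 ψ j ∈ Ψ := by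
      intro j
      by_cases hj : j = c0
      · subst hj; rw [Function.update_self]; exact hψ
      · rw [Function.update_of_ne hj]; exact hψ0
    have key := hT ψ0 hψ0 _ hχ (fun j => if j = c0 then x else Z) (fun j => if j = c0 then x' else Z)
      c0 i c0 j (by simp only [if_pos]; exact h1) (by simp only [if_pos]; exact h2) (by
        intro j' i' hA hB
        by_cases hj : j' = c0
        · subst hj
          simp only [if_pos]
          exact h3 i' (fun h => hA ⟨rfl, h⟩) (fun h => hB ⟨rfl, h⟩)
        · simp only [if_neg hj])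
    have e : ∀ z : Fin (k - 1) → Ω, (fun j => F (Function.update (fun _ => ψ0) c0 ψ j)
        (if j = c0 then z else Z)) = Function.update (fun _ => F ψ0 Z) c0 (F ψ z) := by
      intro z
      funext j
      by_cases hj : j = c0
      · subst hj
        rw [Function.update_self, Function.update_self, if_pos rfl]
      · rw [Function.update_of_ne hj, Function.update_of_ne hj, if_neg hj]
    rw [e, e] at key
    exact hFinj ψ0 hψ0 _ _ _ _ key
  -- the map h
  obtain ⟨h, hh⟩ : ∃ h : Ω ≃ Ω, ∀ a, h a = F ψ0 (Function.update Z c0 a) := by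
    have hinj : Function.Injective fun a => F ψ0 (Function.update Z c0 a) := by
      intro a b hab
      exact hFinj ψ0 hψ0 c0 Z a b hab
    exact ⟨Equiv.ofBijective _ (Finite.injective_iff_bijective.mp hinj), fun a => rfl⟩
  have hhω : h ω = F ψ0 Z := by
    rw [hh]
    congr 1
    apply Function.update_eq_self_iff.mpr
    rfl
  set op : Ω → Ω → Ω := fun a b => h.symm (F ψ0 (Function.update (Function.update Z c0 a) c1 b))
    with hopdef
  have hop : ∀ a b, h (op a b) = F ψ0 (Function.update (Function.update Z c0 a) c1 b) := by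
    intro a b
    rw [hopdef]
    simp only [Equiv.apply_symm_apply]
  -- merging
  have L3 : ∀ ψ ∈ Ψ, ∀ (y : Fin (k - 1) → Ω) (p q : Fin (k - 1)), p ≠ q →
      F ψ (fun j => h (y j))
        = F ψ (fun j => h (Function.update (Function.update y p (op (y p) (y q))) q ω j)) := by
    intro ψ hψ y p q hpq
    have key := hT ψ hψ (fun _ => ψ0) (fun _ => hψ0) (fun j => Function.update Z c0 (y j))
      (fun j => if j = p then Function.update (Function.update Z c0 (y p)) c1 (y q)
        else if j = q then Z else Function.update Z c0 (y j)) p c1 q c0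
      (by
        simp only [if_pos]
        rw [Function.update_self, Function.update_self])
      (by
        simp only [if_neg hpq.symm, if_pos]
        rw [Function.update_of_ne h01.symm])
      (by
        intro j i hA hB
        by_cases hjp : j = p
        · subst hjp
          simp only [if_pos]
          have hi : i ≠ c1 := fun h => hA ⟨rfl, h⟩
          rw [Function.update_of_ne hi]
        · by_cases hjq : j = q
          · subst hjq
            simp only [if_neg hjp, if_pos]
            have hi : i ≠ c0 := fun h => hB ⟨rfl, h⟩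
            rw [Function.update_of_ne hi]
          · simp only [if_neg hjp, if_neg hjq])
    have e1 : (fun j => F ψ0 (Function.update Z c0 (y j))) = fun j => h (y j) := by
      funext j
      rw [hh]
    rw [e1] at key
    rw [← key]
    congr 1
    funext j
    by_cases hjq : j = q
    · subst hjq
      rw [if_neg hpq.symm, if_pos rfl, Function.update_self, hhω]
    · by_cases hjp : j = p
      · subst hjp
        rw [if_pos rfl, Function.update_of_ne hjq, Function.update_self, hop]
      · rw [if_neg hjp, if_neg hjq, Function.update_of_ne hjq, Function.update_of_ne hjp, hh]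
  have hB : ∀ ψ ∈ Ψ, ∀ (y : Fin (k - 1) → Ω) (j : Fin (k - 1)) (a b : Ω),
      F ψ (fun i => h (Function.update y j a i)) = F ψ (fun i => h (Function.update y j b i)) →
        a = b := by
    intro ψ hψ y j a b hab
    have e : ∀ z, (fun i => h (Function.update y j z i))
        = Function.update (fun i => h (y i)) j (h z) := by
      intro z
      funext i
      by_cases hi : i = j
      · subst hi; rw [Function.update_self, Function.update_self]
      · rw [Function.update_of_ne hi, Function.update_of_ne hi]
    rw [e, e] at hab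
    exact h.injective (hFinj ψ hψ _ _ _ _ hab)
  -- group axioms
  have hcomm : ∀ a b, op a b = op b a := by
    intro a b
    apply h.injective
    rw [hop, hop]
    refine L1 ψ0 hψ0 _ _ c0 c1 ?_ ?_ ?_
    · rw [Function.update_of_ne h01, Function.update_self, Function.update_self]
    · rw [Function.update_of_ne h01, Function.update_self, Function.update_self]
    · intro t h0 h1
      rw [Function.update_of_ne h1, Function.update_of_ne h0, Function.update_of_ne h1,
        Function.update_of_ne h0]
  have hzero : ∀ a, op a ω = a := by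
    intro a
    apply h.injective
    rw [hop, hh]
    congr 1
    apply Function.update_eq_self_iff.mpr
    rw [Function.update_of_ne h01.symm]
  have hswap : ∀ a b c, op (op a b) c = op (op c b) a := by
    intro a b c
    -- value of the tree with rows (a, b) and (c)
    have val : ∀ a b c, F ψ0 (fun j => F ψ0 (if j = c0 then
        Function.update (Function.update Z c0 a) c1 b
        else if j = c1 then Function.update Z c0 c else Z))
        = F ψ0 (fun j => h (Function.update Z c0 (op (op a b) c) j)) := by
      intro a b c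
      have e1 := L3 ψ0 hψ0 (Function.update (Function.update Z c0 (op a b)) c1 c) c0 c1 h01
      have e2 : (fun j => F ψ0 (if j = c0 then Function.update (Function.update Z c0 a) c1 b
        else if j = c1 then Function.update Z c0 c else Z))
        = fun j => h (Function.update (Function.update Z c0 (op a b)) c1 c j) := by
        funext j
        by_cases hj1 : j = c1
        · subst hj1
          rw [if_neg h01.symm, if_pos rfl, Function.update_self, hh]
        · by_cases hj0 : j = c0
          · subst hj0
            rw [if_pos rfl, Function.update_of_ne hj1, Function.update_self, hop]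
          · rw [if_neg hj0, if_neg hj1, Function.update_of_ne hj1, Function.update_of_ne hj0, hhω]
      rw [e2, e1]
      congr 1
      funext j
      congr 1
      by_cases hj1 : j = c1
      · subst hj1
        rw [Function.update_self, Function.update_of_ne h01.symm]
      · rw [Function.update_of_ne hj1]
        by_cases hj0 : j = c0
        · subst hj0
          rw [Function.update_self, Function.update_self, Function.update_of_ne h01,
            Function.update_self, Function.update_self]
        · rw [Function.update_of_ne hj0, Function.update_of_ne hj1, Function.update_of_ne hj0,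
            Function.update_of_ne hj0]
    have key := hT ψ0 hψ0 (fun _ => ψ0) (fun _ => hψ0)
      (fun j => if j = c0 then Function.update (Function.update Z c0 a) c1 b
        else if j = c1 then Function.update Z c0 c else Z)
      (fun j => if j = c0 then Function.update (Function.update Z c0 c) c1 b
        else if j = c1 then Function.update Z c0 a else Z) c0 c0 c1 c0
      (by
        simp only [if_pos, if_neg h01.symm]
        rw [Function.update_of_ne h01])
      (by
        simp only [if_pos, if_neg h01.symm]
        rw [Function.update_self, Function.update_of_ne h01, Function.update_self])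
      (by
        intro j i hA hB
        by_cases hj0 : j = c0
        · subst hj0
          simp only [if_pos]
          have hi : i ≠ c0 := fun h => hA ⟨rfl, h⟩
          by_cases hi1 : i = c1
          · subst hi1
            rw [Function.update_self, Function.update_self]
          · rw [Function.update_of_ne hi1, Function.update_of_ne hi, Function.update_of_ne hi1,
              Function.update_of_ne hi]
        · by_cases hj1 : j = c1
          · subst hj1
            simp only [if_neg hj0, if_pos]
            have hi : i ≠ c0 := fun h => hB ⟨rfl, h⟩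
            rw [Function.update_of_ne hi, Function.update_of_ne hi]
          · simp only [if_neg hj0, if_neg hj1])
    rw [val, val] at key
    exact (hB ψ0 hψ0 _ _ _ _ key).symm
  have hassoc : ∀ a b c, op (op a b) c = op a (op b c) := by
    intro a b c
    rw [hswap a b c, hcomm (op c b) a, hcomm c b]
  have hinv : ∀ a, ∃ b, op a b = ω := by
    intro a
    have hinj : Function.Injective fun b =>
        F ψ0 (Function.update (Function.update Z c0 a) c1 b) := by
      intro b b' hbb
      exact hFinj ψ0 hψ0 _ _ _ _ hbb
    obtain ⟨b, hb⟩ := (Finite.injective_iff_bijective.mp hinj).2 (h ω)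
    refine ⟨b, ?_⟩
    apply h.injective
    rw [hop]
    exact hb
  letI G : AddCommGroup Ω := mkGroup op ω hcomm hzero hassoc hinv
  have hadd : ∀ a b : Ω, a + b = op a b := fun a b => rfl
  have h0 : (0 : Ω) = ω := rfl
  set α : Ω ≃ Ω := h.symm with hα
  set B : Con k Ω → Ω → Ω := fun ψ z => F ψ (fun j => h (Function.update Z c0 z j)) with hBdef
  have hBinj : ∀ ψ ∈ Ψ, Function.Injective (B ψ) := fun ψ hψ a b hab => hB ψ hψ _ _ _ _ hab
  have hFB : ∀ ψ ∈ Ψ, ∀ x : Fin (k - 1) → Ω, F ψ x = B ψ (∑ j, α (x j)) := by
    intro ψ hψ x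
    have e1 := merge_all (fun y => F ψ (fun j => h (y j))) (fun y p q hpq => L3 ψ hψ y p q hpq)
      (fun j => α (x j)) c0
    have e0 : F ψ x = F ψ (fun j => h (α (x j))) := by
      congr 1
      funext j
      exact (h.apply_symm_apply (x j)).symm
    rw [e0]
    exact e1
  -- additivity
  have hαadd : ∀ a b : Ω, α a + α b = α (a + b) + α 0 := by
    intro a b
    have e1 : F ψ0 (Function.update (Function.update Z c0 a) c1 b)
        = F ψ0 (Function.update Z c0 (a + b)) := by
      rw [← hop, ← hh]; rfl
    rw [hFB ψ0 hψ0, hFB ψ0 hψ0] at e1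
    have e2 := hBinj ψ0 hψ0 e1
    have e3 := sum_update_add α (Function.update Z c0 a) c1 b
    have e4 := sum_update_add α Z c0 a
    have e5 := sum_update_add α Z c0 (a + b)
    have z1 : (Function.update Z c0 a) c1 = 0 := by
      rw [Function.update_of_ne h01.symm]; rfl
    have z0 : Z c0 = 0 := rfl
    rw [z1, e2] at e3
    rw [z0] at e4 e5
    -- e3 : S(a+b) + α 0 = S a + α b ; e4 : S a + α 0 = S + α a ; e5 : S (a+b) + α 0 = S + α (a+b)
    have e6 : (∑ j, α (Z j) + α (a + b)) + α 0 = (∑ j, α (Z j) + α a) + α b := by
      rw [← e5, e3, ← e4]; abel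
    have e7 : ∑ j, α (Z j) + (α (a + b) + α 0) = ∑ j, α (Z j) + (α a + α b) := by
      rw [← add_assoc, ← add_assoc]; exact e6
    exact (add_left_cancel e7).symm
  set β : Ω ≃+ Ω := AddEquiv.mk' (α.trans (Equiv.subRight (α 0))) (by
    intro a b
    simp only [Equiv.trans_apply, Equiv.subRight_apply]
    have := hαadd a b
    have e : α (a + b) = α a + α b - α 0 := by rw [this]; abel
    rw [e]; abel) with hβ
  have hβα : ∀ a, α a = β a + α 0 := by
    intro a
    have : β a = α a - α 0 := rfl
    rw [this]; abel
  set cst : Ω := ∑ _j : Fin (k - 1), α 0 with hcst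
  set D : Con k Ω → Ω → Ω := fun ψ z => B ψ (β z + cst) with hD
  have hDinj : ∀ ψ ∈ Ψ, Function.Injective (D ψ) := by
    intro ψ hψ a b hab
    have := hBinj ψ hψ hab
    exact β.injective (add_right_cancel this)
  have hFD : ∀ ψ ∈ Ψ, ∀ x : Fin (k - 1) → Ω, F ψ x = D ψ (∑ j, x j) := by
    intro ψ hψ x
    rw [hFB ψ hψ, hD]
    simp only
    congr 1
    rw [Finset.sum_congr rfl fun j _ => hβα (x j), Finset.sum_add_distrib, map_sum]
  have hh' : ∀ a, h a = β.symm a - β.symm (α 0) := by
    intro a
    rw [← map_sub]
    apply α.injective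
    have : α (h a) = a := h.symm_apply_apply a
    rw [this, hβα (β.symm (a - α 0)), AddEquiv.apply_symm_apply]
    abel
  have hsingle : ∀ a : Ω, ∑ j, Function.update Z c0 a j = a := by
    intro a
    have := sum_update_add (fun x : Ω => x) Z c0 a
    have z0 : Z c0 = 0 := rfl
    rw [z0, add_zero] at this
    rw [this]
    have : ∑ j : Fin (k - 1), Z j = 0 := Finset.sum_eq_zero fun j _ => rfl
    rw [this, zero_add]
  have hDadd : ∀ ψ ∈ Ψ, ∀ a, D ψ a = D ψ 0 + β.symm a := by
    intro ψ hψ a
    have hχ : ∀ j, Function.update (fun _ => ψ0) c0 ψ j ∈ Ψ := by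
      intro j
      by_cases hj : j = c0
      · subst hj; rw [Function.update_self]; exact hψ
      · rw [Function.update_of_ne hj]; exact hψ0
    have val : ∀ a b : Ω, F ψ0 (fun j => F (Function.update (fun _ => ψ0) c0 ψ j)
        (if j = c0 then Function.update Z c0 a else if j = c1 then Function.update Z c0 b else Z))
        = D ψ0 (∑ j, Function.update (Function.update (fun _ => h ω) c0 (D ψ a)) c1 (h b) j) := by
      intro a b
      rw [← hFD ψ0 hψ0]
      congr 1
      funext j
      by_cases hj1 : j = c1
      · subst hj1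
        rw [Function.update_self, Function.update_of_ne h01.symm, if_neg h01.symm, if_pos rfl, hh]
      · by_cases hj0 : j = c0
        · subst hj0
          rw [Function.update_self, if_pos rfl, Function.update_of_ne hj1, Function.update_self,
            hFD ψ hψ, hsingle]
        · rw [Function.update_of_ne hj0, Function.update_of_ne hj1, Function.update_of_ne hj0,
            if_neg hj0, if_neg hj1, hhω]
    have key := hT ψ0 hψ0 _ hχ
      (fun j => if j = c0 then Function.update Z c0 a else
        if j = c1 then Function.update Z c0 (0 : Ω) else Z)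
      (fun j => if j = c0 then Function.update Z c0 (0 : Ω) else
        if j = c1 then Function.update Z c0 a else Z) c0 c0 c1 c0
      (by simp only [if_pos, if_neg h01.symm])
      (by simp only [if_pos, if_neg h01.symm])
      (by
        intro j i hA hB
        by_cases hj0 : j = c0
        · subst hj0
          simp only [if_pos]
          have hi : i ≠ c0 := fun h => hA ⟨rfl, h⟩
          rw [Function.update_of_ne hi, Function.update_of_ne hi]
        · by_cases hj1 : j = c1
          · subst hj1
            simp only [if_neg hj0, if_pos]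
            have hi : i ≠ c0 := fun h => hB ⟨rfl, h⟩
            rw [Function.update_of_ne hi, Function.update_of_ne hi]
          · simp only [if_neg hj0, if_neg hj1])
    rw [val, val] at key
    have e1 := hDinj ψ0 hψ0 key
    have s1 : ∀ u v : Ω, ∑ j, Function.update (Function.update (fun _ => h ω) c0 u) c1 v j
        + (h ω + h ω) = ∑ _j : Fin (k - 1), h ω + (u + v) := by
      intro u v
      have t1 := sum_update_add (fun x : Ω => x) (Function.update (fun _ => h ω) c0 u) c1 v
      have t2 := sum_update_add (fun x : Ω => x) (fun _ : Fin (k - 1) => h ω) c0 u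
      rw [Function.update_of_ne h01.symm] at t1
      rw [← add_assoc, t1, add_right_comm, t2]
      abel
    have e2 := s1 (D ψ 0) (h a)
    have e3 := s1 (D ψ a) (h 0)
    rw [e1] at e2
    have e4 := add_left_cancel (e2.symm.trans e3)
    -- D ψ 0 + h a = D ψ a + h 0
    have hz : β.symm (0 : Ω) = 0 := map_zero _
    rw [hh' a, hh' 0, hz] at e4
    have e5 : D ψ a = (D ψ a + (0 - β.symm (α 0))) + β.symm (α 0) := by abel
    rw [e5, ← e4]
    abel
  have hfin : ∀ ψ ∈ Ψ, ∀ x : Fin (k - 1) → Ω, F ψ x = D ψ 0 + β.symm (∑ j, x j) := by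
    intro ψ hψ x
    rw [hFD ψ hψ, hDadd ψ hψ]
  -- conclusion
  obtain ⟨l, rfl⟩ : ∃ l, k = l + 1 := ⟨k - 1, by omega⟩
  refine ⟨G, fun _ i => if (i : ℕ) < l then β.symm else AddEquiv.neg Ω, fun ψ => - D ψ 0, ?_, ?_⟩
  · intro ψ _ ψ' _ i i' x
    simp only
    split_ifs <;> simp
  · intro ψ hψ x
    have hx : x = addLast (k := l + 1) (fun j : Fin (l + 1 - 1) => x (Fin.castSucc j)) (x (Fin.last l)) := by
      funext i
      unfold addLast
      by_cases hi : (i : ℕ) < l + 1 - 1
      · rw [dif_pos hi]; rfl
      · rw [dif_neg hi]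
        congr 1
        apply Fin.ext
        have := i.isLt
        simp only [Fin.val_last]
        omega
    have hiff : ψ x = true ↔ x (Fin.last l) = F ψ (fun j : Fin (l + 1 - 1) => x (Fin.castSucc j)) := by
      constructor
      · intro h
        rw [hx] at h
        exact hFuniq ψ hψ _ _ h
      · intro h
        rw [hx, h]
        exact hF ψ hψ _
    rw [hiff, hfin ψ hψ, Fin.sum_univ_castSucc]
    have e1 : ∀ j : Fin l, (if ((Fin.castSucc j : Fin (l + 1)) : ℕ) < l then β.symm
        else AddEquiv.neg Ω) (x (Fin.castSucc j)) = β.symm (x (Fin.castSucc j)) := by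
      intro j
      rw [if_pos (by simp)]
    have e2 : (if ((Fin.last l : Fin (l + 1)) : ℕ) < l then β.symm
        else AddEquiv.neg Ω) (x (Fin.last l)) = - x (Fin.last l) := by
      rw [if_neg (by simp)]
      rfl
    rw [Finset.sum_congr rfl fun j _ => e1 j, e2, ← map_sum]
    have e3 : (∑ j : Fin (l + 1 - 1), x (Fin.castSucc j)) = ∑ j : Fin l, x (Fin.castSucc j) := rfl
    rw [e3]
    show x (Fin.last l) = D ψ 0 + β.symm (∑ j : Fin l, x (Fin.castSucc j)) ↔
      β.symm (∑ j : Fin l, x (Fin.castSucc j)) + - x (Fin.last l) = - D ψ 0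
    constructor
    · intro h
      rw [h]; abel
    · intro h
      have : x (Fin.last l) = β.symm (∑ j : Fin l, x (Fin.castSucc j)) -
          (β.symm (∑ j : Fin l, x (Fin.castSucc j)) + - x (Fin.last l)) := by abel
      rw [this, h]; abel

end Pool.Agent.H519_UE
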