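import Pool.Agent.H519_UE.Ray
import Pool.Agent.H519_UE.Model

/-!
# The threshold `d_k`
-/

set_option linter.all false

namespace Pool.Agent.H519_UE

open Filter Topology Set

/-- sign function of the derivative -/
noncomputable def sg (l : ℕ) (d x : ℝ) : ℝ := Real.exp (-(d * x ^ (l + 1))) - 1 + x

lemma sg_cont (l : ℕ) (d : ℝ) : Continuous (sg l d) := by
  unfold sg; fun_prop

lemma gd_hasDeriv (l : ℕ) (d x : ℝ) :
    HasDerivAt (gd l d) (d * (l + 1) * x ^ l * sg l d x) x := by
  unfold gd sg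
  have h1 : HasDerivAt (fun x : ℝ => x ^ (l + 1)) (((l + 1 : ℕ) : ℝ) * x ^ l) x := by
    simpa using hasDerivAt_pow (l + 1) x
  have h2 : HasDerivAt (fun x : ℝ => x ^ (l + 2)) (((l + 2 : ℕ) : ℝ) * x ^ (l + 1)) x := by
    simpa using hasDerivAt_pow (l + 2) x
  have h3 := ((((h1.const_mul d).neg.exp).const_sub 1).sub (h1.const_mul d)).add
    (h2.const_mul ((1 - 1 / ((l : ℝ) + 2)) * d))
  refine HasDerivAt.congr_deriv h3 ?_
  simp only [Pi.neg_apply]
  push_cast
  field_simp
  ring

lemma gd_cont (l : ℕ) (d : ℝ) : Continuous (gd l d) := by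
  unfold gd; fun_prop

/-- `log y - (l+1) log (1 - e^{-y}) - log d` -/
noncomputable def Hf (l : ℕ) (d y : ℝ) : ℝ :=
  Real.log y - (l + 1) * Real.log (1 - Real.exp (-y)) - Real.log d

lemma Hf_hasDeriv (l : ℕ) (d : ℝ) {y : ℝ} (hy : 0 < y) :
    HasDerivAt (Hf l d) ((Real.exp y - 1 - (l + 1) * y) / (y * (Real.exp y - 1))) y := by
  have he : Real.exp (-y) < 1 := Real.exp_lt_one_iff.mpr (by linarith)
  have h1 : HasDerivAt (fun y : ℝ => 1 - Real.exp (-y)) (Real.exp (-y)) y := by
    have := (((hasDerivAt_id y).neg).exp).const_sub 1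
    simpa using this
  have h2 := h1.log (by linarith : 1 - Real.exp (-y) ≠ 0)
  have h3 := ((Real.hasDerivAt_log hy.ne').sub (h2.const_mul ((l : ℝ) + 1))).sub_const (Real.log d)
  unfold Hf
  refine HasDerivAt.congr_deriv h3 ?_
  have h4 : Real.exp y * Real.exp (-y) = 1 := by rw [← Real.exp_add]; simp
  have h5 : 1 < Real.exp y := Real.one_lt_exp_iff.mpr hy
  have h6 : Real.exp (-y) / (1 - Real.exp (-y)) = 1 / (Real.exp y - 1) := by
    rw [div_eq_div_iff (by linarith) (by linarith)]
    linarith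
  rw [h6]
  have h7 : Real.exp y - 1 ≠ 0 := by linarith
  field_simp

/-- the numerator of the derivative changes sign only once -/
lemma num_mono (l : ℕ) {y z : ℝ} (hy : 0 < y) (hyz : y ≤ z)
    (h : 0 ≤ Real.exp y - 1 - (l + 1) * y) : 0 ≤ Real.exp z - 1 - (l + 1) * z := by
  -- convexity: exp y ≤ (1 - y/z) exp 0 + (y/z) exp z
  have hz : 0 < z := by linarith
  have hc := (convexOn_exp.2 (mem_univ (0 : ℝ)) (mem_univ z)
    (show (0 : ℝ) ≤ 1 - y / z by rw [sub_nonneg, div_le_one hz]; exact hyz)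
    (show (0 : ℝ) ≤ y / z by positivity) (by ring))
  simp only [smul_eq_mul, mul_zero, zero_add, Real.exp_zero, mul_one] at hc
  have h1 : y / z * z = y := by field_simp
  rw [h1] at hc
  have h2 : 0 ≤ y / z * (Real.exp z - 1) - (l + 1) * y := by nlinarith
  have h3 : y / z * (Real.exp z - 1) - (l + 1) * y = y / z * (Real.exp z - 1 - (l + 1) * z) := by
    field_simp
  rw [h3] at h2
  exact nonneg_of_mul_nonneg_right h2 (by positivity)

lemma Hf_cross (l : ℕ) (d : ℝ) {y1 y2 y3 : ℝ} (h0 : 0 < y1) (h12 : y1 < y2) (h23 : y2 ≤ y3)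
    (hn : Hf l d y1 < 0) (hp : 0 < Hf l d y2) : 0 < Hf l d y3 := by
  have hderiv : ∀ y, 0 < y → HasDerivAt (Hf l d)
      ((Real.exp y - 1 - (l + 1) * y) / (y * (Real.exp y - 1))) y := fun y hy => Hf_hasDeriv l d hy
  obtain ⟨c, hc, hceq⟩ := exists_hasDerivAt_eq_slope (Hf l d)
    (fun y => (Real.exp y - 1 - (l + 1) * y) / (y * (Real.exp y - 1))) h12
    (fun y hy => (hderiv y (by linarith [hy.1])).continuousAt.continuousWithinAt)
    (fun y hy => hderiv y (by linarith [hy.1]))
  have hc0 : 0 < c := by linarith [hc.1]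
  have hcpos : 0 < (Real.exp c - 1 - (l + 1) * c) / (c * (Real.exp c - 1)) := by
    rw [hceq]; apply div_pos <;> linarith
  have hden : 0 < c * (Real.exp c - 1) := by
    have : 1 < Real.exp c := Real.one_lt_exp_iff.mpr hc0
    apply mul_pos hc0; linarith
  have hnum : 0 ≤ Real.exp c - 1 - (l + 1) * c := by
    by_contra hneg
    push Not at hneg
    exact absurd hcpos (not_lt.mpr (div_nonpos_of_nonpos_of_nonneg hneg.le hden.le))
  -- monotone on [c, ∞)
  have hmono : MonotoneOn (Hf l d) (Ici c) := by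
    apply monotoneOn_of_deriv_nonneg (convex_Ici c)
    · intro y hy
      exact (hderiv y (by linarith [mem_Ici.mp hy])).continuousAt.continuousWithinAt
    · intro y hy
      rw [interior_Ici] at hy
      exact (hderiv y (by linarith [mem_Ioi.mp hy])).differentiableAt.differentiableWithinAt
    · intro y hy
      rw [interior_Ici] at hy
      have hy0 : 0 < y := by linarith [mem_Ioi.mp hy]
      rw [(hderiv y hy0).deriv]
      apply div_nonneg (num_mono l hc0 (mem_Ioi.mp hy).le hnum)
      have : 1 < Real.exp y := Real.one_lt_exp_iff.mpr hy0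
      apply mul_nonneg hy0.le; linarith
  have := hmono (mem_Ici.mpr hc.2.le) (mem_Ici.mpr (hc.2.le.trans h23)) h23
  linarith

lemma sg_Hf (l : ℕ) {d x : ℝ} (hd : 0 < d) (hx0 : 0 < x) (hx1 : x < 1) :
    (0 < sg l d x ↔ 0 < Hf l d (-Real.log (1 - x))) ∧
    (sg l d x < 0 ↔ Hf l d (-Real.log (1 - x)) < 0) := by
  have h1 : 0 < 1 - x := by linarith
  have hlog : Real.log (1 - x) < 0 := Real.log_neg h1 (by linarith)
  have hH : Hf l d (-Real.log (1 - x))
      = Real.log (-Real.log (1 - x)) - Real.log (d * x ^ (l + 1)) := by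
    unfold Hf
    rw [neg_neg, Real.exp_log h1, sub_sub_cancel, Real.log_mul hd.ne' (by positivity),
      Real.log_pow]
    push_cast; ring
  have hA : 0 < d * x ^ (l + 1) := by positivity
  have hB : 0 < -Real.log (1 - x) := by linarith
  rw [hH]
  unfold sg
  constructor
  · rw [sub_pos, Real.log_lt_log_iff hA hB]
    constructor
    · intro h
      have h2 : 1 - x < Real.exp (-(d * x ^ (l + 1))) := by linarith
      have h3 := Real.log_lt_log h1 h2
      rw [Real.log_exp] at h3
      linarith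
    · intro h
      have h3 : Real.exp (Real.log (1 - x)) < Real.exp (-(d * x ^ (l + 1))) :=
        Real.exp_lt_exp.mpr (by linarith)
      rw [Real.exp_log h1] at h3
      linarith
  · rw [sub_neg, Real.log_lt_log_iff hB hA]
    constructor
    · intro h
      have h2 : Real.exp (-(d * x ^ (l + 1))) < 1 - x := by linarith
      have h3 := Real.log_lt_log (Real.exp_pos _) h2
      rw [Real.log_exp] at h3
      linarith
    · intro h
      have h3 : Real.exp (-(d * x ^ (l + 1))) < Real.exp (Real.log (1 - x)) :=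
        Real.exp_lt_exp.mpr (by linarith)
      rw [Real.exp_log h1] at h3
      linarith

lemma sg_cross (l : ℕ) {d x1 x2 x3 : ℝ} (hd : 0 < d) (h0 : 0 < x1) (h12 : x1 < x2) (h23 : x2 ≤ x3)
    (h3 : x3 ≤ 1) (hn : sg l d x1 < 0) (hp : 0 < sg l d x2) : 0 < sg l d x3 := by
  rcases eq_or_lt_of_le h3 with h | h
  · rw [h]; unfold sg
    have := Real.exp_pos (-(d * 1 ^ (l + 1)))
    linarith
  · have hx1 : x1 < 1 := by linarith
    have hx2 : x2 < 1 := by linarith
    rw [(sg_Hf l hd (by linarith) h).1]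
    rw [(sg_Hf l hd (by linarith) hx1).2] at hn
    rw [(sg_Hf l hd (by linarith) hx2).1] at hp
    refine Hf_cross l d (y1 := -Real.log (1 - x1)) (y2 := -Real.log (1 - x2)) ?_ ?_ ?_ hn hp
    · have := Real.log_neg (show 0 < 1 - x1 by linarith) (by linarith); linarith
    · have := Real.log_lt_log (show 0 < 1 - x2 by linarith) (show 1 - x2 < 1 - x1 by linarith)
      linarith
    · have := Real.log_le_log (show 0 < 1 - x3 by linarith) (show 1 - x3 ≤ 1 - x2 by linarith)
      linarith

/-- **below the threshold the functional is nonnegative** -/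
theorem gd_nonneg {l : ℕ} {d : ℝ} (hd : 0 < d) (hdk : d < dk (l + 2)) {x : ℝ} (hx0 : 0 ≤ x)
    (hx1 : x ≤ 1) : 0 ≤ gd l d x := by
  by_contra hneg
  push Not at hneg
  have hg0 : gd l d 0 = 0 := by unfold gd; simp
  have hxpos : 0 < x := by
    rcases eq_or_lt_of_le hx0 with h | h
    · exfalso; rw [← h, hg0] at hneg; exact lt_irrefl _ hneg
    · exact h
  -- a point with negative derivative
  obtain ⟨c, hc, hceq⟩ := exists_hasDerivAt_eq_slope (gd l d)
    (fun x => d * (l + 1) * x ^ l * sg l d x) hxpos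
    (gd_cont l d).continuousOn (fun y _ => gd_hasDeriv l d y)
  have hsc : sg l d c < 0 := by
    have h1 : (gd l d x - gd l d 0) / (x - 0) < 0 := by
      apply div_neg_of_neg_of_pos <;> linarith
    rw [← hceq] at h1
    by_contra h2
    push Not at h2
    have : 0 ≤ d * (l + 1) * c ^ l * sg l d c := by
      have := hc.1.le
      positivity
    linarith
  -- the set of zeros
  set S : Set ℝ := {x : ℝ | 0 ≤ x ∧ x ≤ 1 ∧ x = 1 - Real.exp (-(d * x ^ (l + 2 - 1)))} with hS
  have hSsg : ∀ x, x ∈ S ↔ 0 ≤ x ∧ x ≤ 1 ∧ sg l d x = 0 := by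
    intro x
    simp only [hS, mem_setOf_eq, show l + 2 - 1 = l + 1 from rfl]
    unfold sg
    constructor
    · rintro ⟨h1, h2, h3⟩; exact ⟨h1, h2, by linarith⟩
    · rintro ⟨h1, h2, h3⟩; exact ⟨h1, h2, by linarith⟩
  have hSclosed : IsClosed S := by
    have : S = Icc 0 1 ∩ (sg l d) ⁻¹' {0} := by
      ext x; rw [hSsg]; simp [and_assoc]
    rw [this]
    exact isClosed_Icc.inter (isClosed_singleton.preimage (sg_cont l d))
  have hSbdd : BddAbove S := ⟨1, fun x hx => ((hSsg x).mp hx).2.1⟩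
  have hs1 : 0 < sg l d 1 := by
    unfold sg
    have := Real.exp_pos (-(d * 1 ^ (l + 1)))
    linarith
  -- IVT: a zero in (c, 1)
  have hc1 : c < 1 := by linarith [hc.2]
  obtain ⟨z, hz, hz0⟩ : ∃ z ∈ Icc c 1, sg l d z = 0 :=
    intermediate_value_Icc hc1.le (sg_cont l d).continuousOn ⟨hsc.le, hs1.le⟩
  have hzS : z ∈ S := (hSsg z).mpr ⟨by linarith [hz.1, hc.1], hz.2, hz0⟩
  set r := sSup S with hr
  have hrS : r ∈ S := hSclosed.csSup_mem ⟨z, hzS⟩ hSbdd
  obtain ⟨hr0, hr1, hrsg⟩ := (hSsg r).mp hrS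
  have hzr : z ≤ r := le_csSup hSbdd hzS
  have hcz : c < z := lt_of_le_of_ne hz.1 (fun h => by rw [← h] at hz0; linarith)
  have hcr : c < r := lt_of_lt_of_le hcz hzr
  -- sign on [c, r]
  have hB : ∀ y, c ≤ y → y ≤ r → sg l d y ≤ 0 := by
    intro y hcy hyr
    by_contra hpos
    push Not at hpos
    have hcy' : c < y := lt_of_le_of_ne hcy (fun h => by rw [← h] at hpos; linarith)
    have := sg_cross l hd hc.1 hcy' hyr hr1 hsc hpos
    linarith
  -- sign on [r, 1]
  have hC : ∀ y, r ≤ y → y ≤ 1 → 0 ≤ sg l d y := by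
    intro y hry hy1
    by_contra hneg2
    push Not at hneg2
    obtain ⟨w, hw, hw0⟩ : ∃ w ∈ Icc y 1, sg l d w = 0 :=
      intermediate_value_Icc hy1 (sg_cont l d).continuousOn ⟨hneg2.le, hs1.le⟩
    have hyw : y < w := lt_of_le_of_ne hw.1 (fun h => by rw [← h] at hw0; linarith)
    have hwS : w ∈ S := (hSsg w).mpr ⟨by linarith, hw.2, hw0⟩
    have := le_csSup hSbdd hwS
    linarith
  have hgr : gd l d r ≤ gd l d x := by
    rcases le_total x r with hxr | hrx
    · have hanti : AntitoneOn (gd l d) (Icc c r) := by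
        apply antitoneOn_of_deriv_nonpos (convex_Icc c r) (gd_cont l d).continuousOn
        · exact fun y _ => (gd_hasDeriv l d y).differentiableAt.differentiableWithinAt
        · intro y hy
          rw [interior_Icc] at hy
          rw [(gd_hasDeriv l d y).deriv]
          have h1 := hB y hy.1.le hy.2.le
          have h2 : 0 < y := by linarith [hy.1, hc.1]
          have h3 : 0 ≤ d * (l + 1) * y ^ l := by positivity
          exact mul_nonpos_of_nonneg_of_nonpos h3 h1
      exact hanti ⟨hc.2.le, hxr⟩ ⟨hcr.le, le_refl _⟩ hxr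
    · have hmono : MonotoneOn (gd l d) (Icc r 1) := by
        apply monotoneOn_of_deriv_nonneg (convex_Icc r 1) (gd_cont l d).continuousOn
        · exact fun y _ => (gd_hasDeriv l d y).differentiableAt.differentiableWithinAt
        · intro y hy
          rw [interior_Icc] at hy
          rw [(gd_hasDeriv l d y).deriv]
          have h1 := hC y hy.1.le hy.2.le
          have h2 : 0 < y := by linarith [hy.1]
          have h3 : 0 ≤ d * (l + 1) * y ^ l := by positivity
          exact mul_nonneg h3 h1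
      exact hmono ⟨le_refl _, hr1⟩ ⟨hrx, hx1⟩ hrx
  -- contradiction with the definition of the threshold
  have hrho : rho (l + 2) d = r := rfl
  have hmem : d ∈ {d : ℝ | 0 < d ∧ rho (l + 2) d - d * rho (l + 2) d ^ (l + 2 - 1)
      + (1 - 1 / ((l + 2 : ℕ) : ℝ)) * d * rho (l + 2) d ^ (l + 2) < 0} := by
    refine ⟨hd, ?_⟩
    rw [hrho]
    have h1 : gd l d r < 0 := lt_of_le_of_lt hgr hneg
    unfold gd at h1
    unfold sg at hrsg
    simp only [show l + 2 - 1 = l + 1 from rfl]
    push_cast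
    linarith
  have hbdd : BddBelow {d : ℝ | 0 < d ∧ rho (l + 2) d - d * rho (l + 2) d ^ (l + 2 - 1)
      + (1 - 1 / ((l + 2 : ℕ) : ℝ)) * d * rho (l + 2) d ^ (l + 2) < 0} := ⟨0, fun y hy => hy.1.le⟩
  have : dk (l + 2) ≤ d := csInf_le hbdd hmem
  linarith

lemma dk_nonneg (k : ℕ) : 0 ≤ dk k := Real.sInf_nonneg fun x hx => hx.1.le

lemma lam_le_one {l : ℕ} {d : ℝ} (hd : 0 < d) (hdk : d < dk (l + 2)) : d / (l + 2) ≤ 1 := by
  have := gd_nonneg hd hdk (x := 1) (by norm_num) (le_refl _)
  unfold gd at this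
  simp only [one_pow, mul_one] at this
  have h1 := Real.exp_pos (-d)
  have h2 : (1 - 1 / ((l : ℝ) + 2)) * d = d - d / (l + 2) := by ring
  rw [h2] at this
  linarith

/-- `d_k ≤ k` -/
lemma dk_le (l : ℕ) : dk (l + 2) ≤ l + 2 := by
  by_contra h
  push Not at h
  have hl : (0 : ℝ) < l + 2 := by positivity
  obtain ⟨d, hd1, hd2⟩ := exists_between h
  have := lam_le_one (l := l) (by linarith) hd2
  rw [div_le_one hl] at this
  linarith

end Pool.Agent.H519_UE
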