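import Pool.Agent.H519_UE.Pins

/-!
# Adding one variable: the Aizenman-Sims-Starr step
-/

set_option linter.all false

namespace Pool.Agent.H519_UE

open scoped BigOperators

variable {F : Type*} [Field F]

/-! ### Generic facts on Markov operators -/

lemma IsMk.add_const {Q : Op F} (h : IsMk Q) (φ : Fn F) (c : ℝ) (R : FSub F) :
    Q (fun R => φ R + c) R = Q φ R + c := by
  have : (fun R => φ R + c) = φ + fun _ => c := rfl
  rw [this, map_add, h.one]; rfl

lemma IsMk.lipX {Q : Op F} (h : IsMk Q) (n : ℕ) (f : ℝ → ℝ) (L : ℝ)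
    (hf : ∀ x y, 0 ≤ x → x ≤ y → y ≤ 1 → f y - f x ≤ L * (y - x)) (R : FSub F) :
    Q (fun R => f (X n R)) R ≤ f (X n R) + L * (Q (X n) R - X n R) := by
  have hm : Monotone (fun R : FSub F => L * X n R - f (X n R)) := by
    intro R S hRS
    have := hf (X n R) (X n S) (X_nonneg _ _) (X_mono n hRS) (X_le_one _ _)
    show L * X n R - f (X n R) ≤ L * X n S - f (X n S)
    linarith
  have h1 := h.ge _ hm R
  have h2 : (fun R : FSub F => L * X n R - f (X n R)) = L • (X n : Fn F) - fun R => f (X n R) := rfl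
  rw [h2, map_sub, map_smul] at h1
  simp only [Pi.sub_apply, Pi.smul_apply, smul_eq_mul] at h1
  linarith

/-- commuting the pins past a Markov operator -/
lemma IsMk.comm_P {Q : Op F} (h : IsMk Q) (n : ℕ) : Commute Q (P n) := h.comm_Av _ _

lemma IsMk.comm_A {Q : Op F} (h : IsMk Q) (n θ : ℕ) : Commute Q (A n θ) := by
  unfold A
  exact Commute.sum_right _ _ _ fun i _ => ((h.comm_P n).pow_right i).smul_right _

lemma A_err {n θ : ℕ} (hn : 0 < n) (hθ : 0 < θ) {M : Op F} (hM : IsMk M) (s : ℕ) (R : FSub F) :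
    (A n θ * M : Op F) ((P n ^ s) (X n)) R ≤ (A n θ * M : Op F) (X n) R + s / θ := by
  rw [← (hM.comm_A n θ).eq]
  show M (A n θ ((P n ^ s) (X n))) R ≤ M (A n θ (X n)) R + s / θ
  rw [← hM.add_const]
  apply hM.pos
  intro R
  have := A_telescope (F := F) hn hθ s R
  linarith

/-- slow variation of the number of frozen variables -/
lemma A_slow {n θ : ℕ} (hn : 0 < n) (hθ : 0 < θ) {M Q : Op F} (hM : IsMk M) (hQ : IsMk Q)
    (s : ℕ) (hs : ∀ R, Q (X n) R ≤ (P n ^ s) (X n) R) (b : ℕ) (R : FSub F) :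
    (A n θ * M * Q ^ b : Op F) (X n) R ≤ (A n θ * M : Op F) (X n) R + b * s / θ := by
  induction b with
  | zero => simp
  | succ b ih =>
    have hA := A_isMk (F := F) hn hθ
    rw [pow_succ, ← mul_assoc]
    show (A n θ * M * Q ^ b : Op F) (Q (X n)) R ≤ _
    have h1 : (A n θ * M * Q ^ b : Op F) (Q (X n)) R ≤ (A n θ * M * Q ^ b : Op F) ((P n ^ s) (X n)) R :=
      ((hA.mul hM).mul (hQ.pow b)).pos _ _ hs R
    have h2 := A_err hn hθ (hM.mul (hQ.pow b)) s R
    rw [← mul_assoc] at h2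
    push_cast
    have h3 : ((b : ℝ) + 1) * s / θ = b * s / θ + s / θ := by ring
    rw [h3]
    linarith

/-! ### Erasing coordinate `n` -/

/-- kill the coordinate `n` -/
noncomputable def kap (F : Type*) [Field F] (n : ℕ) : (ℕ →₀ F) →ₗ[F] (ℕ →₀ F) :=
  LinearMap.id - (Finsupp.lsingle n) ∘ₗ (Finsupp.lapply n)

lemma kap_apply (n : ℕ) (x : ℕ →₀ F) : kap F n x = x - Finsupp.single n (x n) := rfl

lemma kap_e_ne {n i : ℕ} (h : i ≠ n) : kap F n (e i) = e i := by
  rw [kap_apply]; simp [e, h]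

lemma kap_e_self (n : ℕ) : kap F n (e n) = 0 := by
  rw [kap_apply]; simp [e]

/-- erase the coordinate `n` in a subspace -/
noncomputable def low (n : ℕ) (R : FSub F) : FSub F :=
  ⟨R.1.map (kap F n), by haveI := R.2; infer_instance⟩

lemma low_zero (n : ℕ) : low n (FSub.zero : FSub F) = FSub.zero := by
  apply Subtype.ext
  show Submodule.map (kap F n) ⊥ = ⊥
  exact Submodule.map_bot _

lemma low_add (n : ℕ) (R : FSub F) (v : ℕ →₀ F) : low n (R.add v) = (low n R).add (kap F n v) := by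
  apply Subtype.ext
  show Submodule.map (kap F n) (R.1 ⊔ Submodule.span F {v}) = _
  rw [Submodule.map_sup, Submodule.map_span, Set.image_singleton]
  rfl

lemma finrank_map_add_one_le {K E : Type*} [Field K] [AddCommGroup E] [Module K E]
    (f : E →ₗ[K] E) (S : Submodule K E) [FiniteDimensional K S] (v : E) (hv : v ∈ S) (hv0 : v ≠ 0)
    (hf : f v = 0) : Module.finrank K (S.map f) + 1 ≤ Module.finrank K S := by
  have h1 := LinearMap.finrank_range_add_finrank_ker (f.domRestrict S)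
  rw [LinearMap.range_domRestrict] at h1
  have h2 : Module.finrank K (LinearMap.ker (f.domRestrict S)) ≠ 0 := by
    intro h0
    have hbot := Submodule.finrank_eq_zero.mp h0
    have hk : (⟨v, hv⟩ : S) ∈ LinearMap.ker (f.domRestrict S) := by
      rw [LinearMap.mem_ker]; exact hf
    rw [hbot, Submodule.mem_bot] at hk
    exact hv0 (congrArg Subtype.val hk)
  omega

lemma e_ne_zero (n : ℕ) : (e n : ℕ →₀ F) ≠ 0 := by
  unfold e; simp

lemma rk_low (n : ℕ) (R : FSub F) : rk (low n R) + ind (e n) R ≤ rk R := by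
  haveI := R.2
  have h4 : rk (low n R) = (Module.finrank F (R.1.map (kap F n)) : ℝ) := rfl
  have h5 : rk R = (Module.finrank F R.1 : ℝ) := rfl
  rw [h4, h5]
  by_cases h : (e n : ℕ →₀ F) ∈ R.1
  · rw [ind_of_mem h]
    exact_mod_cast finrank_map_add_one_le (kap F n) R.1 (e n) h (e_ne_zero n) (kap_e_self n)
  · rw [ind_of_not_mem h, add_zero]
    exact_mod_cast Submodule.finrank_map_le (kap F n) R.1

/-! ### The row operators -/

section rows

variable {l : ℕ} {τ : Type*} [Fintype τ] (π : τ → ℝ) (a : τ → Fin (l + 2) → F)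

/-- a random row with `l+2` variables among the first `n` -/
noncomputable def W (n : ℕ) : Op F := ∑ t, π t • Wc n (l + 2) (a t)

/-- a random row in which a random entry has been deleted -/
noncomputable def U (n : ℕ) : Op F :=
  ∑ t, π t • ∑ i : Fin (l + 2), (1 / ((l : ℝ) + 2)) • Wc n (l + 1) (fun j => a t (i.succAbove j))

/-- a random row containing the new variable `n` exactly once -/
noncomputable def V (n : ℕ) : Op F :=
  ∑ t, π t • ∑ i : Fin (l + 2), (1 / ((l : ℝ) + 2)) •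
    Av (fun _ : Fin (l + 1) → Fin n => 1 / (n : ℝ) ^ (l + 1))
      (fun u => ∑ j, a t (i.succAbove j) • e (u j : ℕ) + a t i • e n)

variable {π a} (hπ0 : ∀ t, 0 ≤ π t) (hπ1 : ∑ t, π t = 1) {n : ℕ} (hn : 0 < n)

include hπ0 hπ1 hn in
lemma W_isMk : IsMk (W π a n) :=
  IsMk.sum _ _ _ (fun t _ => hπ0 t) hπ1 fun t _ => Wc_isMk hn _ _

lemma sum_fin_const (l : ℕ) : ∑ i : Fin (l + 2), (1 / ((l : ℝ) + 2)) = 1 := by
  simp; field_simp

include hπ0 hπ1 hn in
lemma U_isMk : IsMk (U π a n) :=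
  IsMk.sum _ _ _ (fun t _ => hπ0 t) hπ1 fun t _ =>
    IsMk.sum _ _ _ (fun i _ => by positivity) (sum_fin_const l) fun i _ => Wc_isMk hn _ _

include hπ0 hπ1 hn in
lemma V_isMk : IsMk (V π a n) :=
  IsMk.sum _ _ _ (fun t _ => hπ0 t) hπ1 fun t _ =>
    IsMk.sum _ _ _ (fun i _ => by positivity) (sum_fin_const l) fun i _ =>
      IsMk.Av _ _ (fun u => by positivity) (sum_const_one hn _)

lemma W_apply (φ : Fn F) (R : FSub F) : W π a n φ R = ∑ t, π t * Wc n (l + 2) (a t) φ R := by
  simp [W, LinearMap.sum_apply, Finset.sum_apply]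

lemma U_apply (φ : Fn F) (R : FSub F) : U π a n φ R = ∑ t, π t * ∑ i : Fin (l + 2),
    (1 / ((l : ℝ) + 2)) * Wc n (l + 1) (fun j => a t (i.succAbove j)) φ R := by
  simp [U, LinearMap.sum_apply, Finset.sum_apply]

lemma V_apply (φ : Fn F) (R : FSub F) : V π a n φ R = ∑ t, π t * ∑ i : Fin (l + 2),
    (1 / ((l : ℝ) + 2)) * ∑ u : Fin (l + 1) → Fin n, (1 / (n : ℝ) ^ (l + 1)) *
      φ (R.add (∑ j, a t (i.succAbove j) • e (u j : ℕ) + a t i • e n)) := by
  simp only [V, LinearMap.sum_apply, Finset.sum_apply, LinearMap.smul_apply, Pi.smul_apply,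
    smul_eq_mul, Av_apply]

/-- averages of lower bounds -/
lemma avg_ge (hπ0 : ∀ t, 0 ≤ π t) (hπ1 : ∑ t, π t = 1) {c : ℝ} {f : τ → ℝ} (h : ∀ t, c ≤ f t) :
    c ≤ ∑ t, π t * f t := by
  calc c = ∑ t, π t * c := by rw [← Finset.sum_mul, hπ1, one_mul]
    _ ≤ _ := Finset.sum_le_sum fun t _ => mul_le_mul_of_nonneg_left (h t) (hπ0 t)

lemma avg_le (hπ0 : ∀ t, 0 ≤ π t) (hπ1 : ∑ t, π t = 1) {c : ℝ} {f : τ → ℝ} (h : ∀ t, f t ≤ c) :
    ∑ t, π t * f t ≤ c := by
  calc _ ≤ ∑ t, π t * c := Finset.sum_le_sum fun t _ => mul_le_mul_of_nonneg_left (h t) (hπ0 t)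
    _ = c := by rw [← Finset.sum_mul, hπ1, one_mul]

include hπ0 hπ1 hn in
lemma W_slow (R : FSub F) : W π a n (X n) R ≤ (P n ^ (l + 2)) (X n) R := by
  rw [W_apply]
  exact avg_le hπ0 hπ1 fun t => Wc_le_P _ _ _ _ (X_mono n) R

include hπ0 hπ1 hn in
lemma U_slow (R : FSub F) : U π a n (X n) R ≤ (P n ^ (l + 2)) (X n) R := by
  rw [U_apply]
  refine avg_le hπ0 hπ1 fun t => avg_le (fun _ => by positivity) (sum_fin_const l) fun i => ?_
  refine (Wc_le_P _ _ _ _ (X_mono n) R).trans ?_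
  rw [pow_succ' (P n) (l + 1)]
  exact (P_isMk hn).ge _ (((P_isMk hn).pow _).mono _ (X_mono n)) R

include hπ0 hπ1 hn in
lemma W_rk_le (R : FSub F) : W π a n rk R ≤ rk R + (1 - X n R ^ (l + 2)) := by
  rw [W_apply]
  exact avg_le hπ0 hπ1 fun t => by
    have := Wc_rk_le hn (l + 2) (a t) R
    linarith

include hπ0 hπ1 hn in
lemma W_rk_ge (ha : ∀ t i, a t i ≠ 0) (R : FSub F) :
    rk R + 1 - X n R ^ (l + 2) - (l + 2) * ((P n ^ (l + 1)) (X n) R - X n R) ≤ W π a n rk R := by
  rw [W_apply]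
  refine avg_ge hπ0 hπ1 fun t => ?_
  have := Wc_rk_ge hn (l + 1) (a t) (ha t) R
  push_cast at this
  have h2 : ((l : ℝ) + 1 + 1) = l + 2 := by ring
  rw [h2] at this
  exact this

include hπ0 hπ1 hn in
lemma U_rk_ge (ha : ∀ t i, a t i ≠ 0) (R : FSub F) :
    rk R + 1 - X n R ^ (l + 1) - (l + 1) * ((P n ^ l) (X n) R - X n R) ≤ U π a n rk R := by
  rw [U_apply]
  refine avg_ge hπ0 hπ1 fun t => avg_ge (fun _ => by positivity) (sum_fin_const l) fun i => ?_
  exact Wc_rk_ge hn l _ (fun j => ha t _) R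

/-- intertwining with the erasure -/
lemma W_low (φ : Fn F) (R : FSub F) : W π a n (fun R => φ (low n R)) R = W π a n φ (low n R) := by
  rw [W_apply, W_apply]
  refine Finset.sum_congr rfl fun t _ => ?_
  rw [Wc_apply, Wc_apply]
  congr 1
  refine Finset.sum_congr rfl fun u _ => ?_
  rw [low_add, map_sum]
  congr 3
  refine Finset.sum_congr rfl fun j _ => ?_
  rw [map_smul, kap_e_ne (u j).isLt.ne]

lemma P_low (φ : Fn F) (R : FSub F) : P n (fun R => φ (low n R)) R = P n φ (low n R) := by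
  rw [P_apply, P_apply]
  refine Finset.sum_congr rfl fun i _ => ?_
  rw [low_add, kap_e_ne i.isLt.ne]

lemma V_low (φ : Fn F) (R : FSub F) : V π a n (fun R => φ (low n R)) R = U π a n φ (low n R) := by
  rw [V_apply, U_apply]
  refine Finset.sum_congr rfl fun t _ => ?_
  congr 1
  refine Finset.sum_congr rfl fun i _ => ?_
  rw [Wc_apply]
  congr 1
  refine Finset.sum_congr rfl fun u _ => ?_
  rw [low_add, map_add, map_sum, map_smul, kap_e_self, smul_zero, add_zero]
  congr 3
  refine Finset.sum_congr rfl fun j _ => ?_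
  rw [map_smul, kap_e_ne (u j).isLt.ne]

/-- operators that commute with the erasure -/
def Low (n : ℕ) (Q : Op F) : Prop := ∀ (φ : Fn F) (R : FSub F), Q (fun R => φ (low n R)) R = Q φ (low n R)

lemma Low.mul {Q Q' : Op F} (h : Low n Q) (h' : Low n Q') : Low n (Q * Q') := by
  intro φ R
  show Q (Q' _) R = Q (Q' φ) (low n R)
  rw [← h (Q' φ) R]
  have : (Q' fun R => φ (low n R)) = fun R => Q' φ (low n R) := funext fun S => h' φ S
  rw [this]

lemma Low.one : Low n (1 : Op F) := fun φ R => rfl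

lemma Low.pow {Q : Op F} (h : Low n Q) (b : ℕ) : Low n (Q ^ b) := by
  induction b with
  | zero => rw [pow_zero]; exact Low.one
  | succ b ih => rw [pow_succ]; exact ih.mul h

lemma Low.A (θ : ℕ) : Low n (A n θ : Op F) := by
  intro φ R
  rw [A_apply, A_apply]
  refine Finset.sum_congr rfl fun t _ => ?_
  rw [Low.pow (fun φ R => P_low φ R) t φ R]

lemma V_pow_low (b : ℕ) (φ : Fn F) (R : FSub F) :
    (V π a n ^ b) (fun R => φ (low n R)) R = (U π a n ^ b) φ (low n R) := by
  induction b generalizing φ R with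
  | zero => rfl
  | succ b ih =>
    rw [pow_succ, pow_succ, Module.End.mul_apply, Module.End.mul_apply, ← ih]
    have : (V π a n fun R => φ (low n R)) = fun R => U π a n φ (low n R) :=
      funext fun S => V_low φ S
    rw [this]

include hπ0 hπ1 hn in
/-- the new variable gets frozen -/
lemma V_pow_ind (ha : ∀ t i, a t i ≠ 0) (b : ℕ) (R : FSub F) :
    1 - (1 - X n R ^ (l + 1)) ^ b ≤ (V π a n ^ b) (ind (e n)) R := by
  induction b generalizing R with
  | zero => simp [ind_nonneg]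
  | succ b ih =>
    have hV := V_isMk (a := a) hπ0 hπ1 hn
    rw [pow_succ' (V π a n), Module.End.mul_apply, V_apply]
    refine avg_ge hπ0 hπ1 fun t => avg_ge (fun _ => by positivity) (sum_fin_const l) fun i => ?_
    have hx1 : X n R ^ (l + 1) ≤ 1 := pow_le_one₀ (X_nonneg _ _) (X_le_one _ _)
    have key : ∀ u : Fin (l + 1) → Fin n,
        1 - (1 - ∏ j, ind (e (u j : ℕ)) R) * (1 - X n R ^ (l + 1)) ^ b ≤
        (V π a n ^ b) (ind (e n)) (R.add (∑ j, a t (i.succAbove j) • e (u j : ℕ) + a t i • e n)) := by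
      intro u
      by_cases h : ∀ j, (e (u j : ℕ) : ℕ →₀ F) ∈ R.1
      · have h1 : ∏ j, ind (e (u j : ℕ)) R = 1 := Finset.prod_eq_one fun j _ => ind_of_mem (h j)
        rw [h1, sub_self, zero_mul, sub_zero]
        have hmem : (e n : ℕ →₀ F) ∈
            (R.add (∑ j, a t (i.succAbove j) • e (u j : ℕ) + a t i • e n)).1 := by
          have h2 := FSub.mem_add R (∑ j, a t (i.succAbove j) • e (u j : ℕ) + a t i • e n)
          have h3 : (∑ j, a t (i.succAbove j) • (e (u j : ℕ) : ℕ →₀ F)) ∈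
              (R.add (∑ j, a t (i.succAbove j) • e (u j : ℕ) + a t i • e n)).1 :=
            Submodule.sum_mem _ fun j _ => Submodule.smul_mem _ _ ((FSub.le_add R _) (h j))
          have h4 := Submodule.sub_mem _ h2 h3
          rw [add_sub_cancel_left] at h4
          have h5 := Submodule.smul_mem _ (a t i)⁻¹ h4
          rwa [smul_smul, inv_mul_cancel₀ (ha t i), one_smul] at h5
        have h6 := (hV.pow b).ge _ (ind_mono (e n))
          (R.add (∑ j, a t (i.succAbove j) • e (u j : ℕ) + a t i • e n))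
        rw [ind_of_mem hmem] at h6
        exact h6
      · push Not at h
        obtain ⟨j, hj⟩ := h
        rw [Finset.prod_eq_zero (Finset.mem_univ j) (ind_of_not_mem hj), sub_zero, one_mul]
        refine le_trans ?_ (ih _)
        have h7 := X_mono n (FSub.le_add R (∑ j, a t (i.succAbove j) • e (u j : ℕ) + a t i • e n))
        have h8 : X n R ^ (l + 1) ≤
            X n (R.add (∑ j, a t (i.succAbove j) • e (u j : ℕ) + a t i • e n)) ^ (l + 1) :=
          pow_le_pow_left₀ (X_nonneg _ _) h7 _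
        have h9 : X n (R.add (∑ j, a t (i.succAbove j) • e (u j : ℕ) + a t i • e n)) ^ (l + 1) ≤ 1 :=
          pow_le_one₀ (X_nonneg _ _) (X_le_one _ _)
        have := pow_le_pow_left₀ (sub_nonneg.mpr h9) (sub_le_sub_left h8 1) b
        linarith
    calc 1 - (1 - X n R ^ (l + 1)) ^ (b + 1)
        = ∑ u : Fin (l + 1) → Fin n, (1 / (n : ℝ) ^ (l + 1)) *
            (1 - (1 - ∏ j, ind (e (u j : ℕ)) R) * (1 - X n R ^ (l + 1)) ^ b) := by
          have e1 : ∑ u : Fin (l + 1) → Fin n, (1 / (n : ℝ) ^ (l + 1)) *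
            (1 - (1 - ∏ j, ind (e (u j : ℕ)) R) * (1 - X n R ^ (l + 1)) ^ b)
            = (∑ u : Fin (l + 1) → Fin n, (1 / (n : ℝ) ^ (l + 1))) * (1 - (1 - X n R ^ (l + 1)) ^ b)
              + (∑ u : Fin (l + 1) → Fin n, (1 / (n : ℝ) ^ (l + 1)) * ∏ j, ind (e (u j : ℕ)) R)
                * (1 - X n R ^ (l + 1)) ^ b := by
            rw [Finset.sum_mul, Finset.sum_mul, ← Finset.sum_add_distrib]
            exact Finset.sum_congr rfl fun u _ => by ring
          rw [e1, sum_const_one hn, ← X_pow]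
          ring
      _ ≤ _ := Finset.sum_le_sum fun u _ => mul_le_mul_of_nonneg_left (key u) (by positivity)

end rows

end Pool.Agent.H519_UE
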