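import Pool.Agent.H519_UE.Thresh

/-!
# Consequences: new rows are independent, few variables are frozen
-/

set_option linter.all false

namespace Pool.Agent.H519_UE

open scoped BigOperators
open Filter Topology

variable {F : Type*} [Field F]

lemma IsMk.lip_le {n : ℕ} (hn : 0 < n) (φ : Fn F) (hφ : Lip φ) (t : ℕ) (R : FSub F) :
    (P n ^ t) φ R ≤ φ R + t := by
  induction t generalizing R with
  | zero => simp
  | succ t ih =>
    have hP := P_isMk (F := F) hn
    rw [pow_succ', Module.End.mul_apply]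
    have h1 : (P n) ((P n ^ t) φ) R ≤ P n (fun R => φ R + t) R := hP.pos _ _ ih R
    rw [hP.add_const] at h1
    have h2 : P n φ R ≤ φ R + 1 := by
      rw [P_apply]
      exact avg_le (fun _ => by positivity) (by simp; field_simp) fun u => hφ _ _
    push_cast
    linarith

section rows

variable {l : ℕ} {τ : Type*} [Fintype τ] {π : τ → ℝ} {a : τ → Fin (l + 2) → F}
  (hπ0 : ∀ t, 0 ≤ π t) (hπ1 : ∑ t, π t = 1) (ha : ∀ t i, a t i ≠ 0)

variable (π a) in
/-- probability that a fresh row lies in the subspace -/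
noncomputable def rin (n : ℕ) : Fn F := fun R =>
  ∑ t, π t * ∑ u : Fin (l + 2) → Fin n, (1 / (n : ℝ) ^ (l + 2)) * ind (∑ j, a t j • e (u j : ℕ)) R

include hπ0 in
lemma rin_mono (n : ℕ) : Monotone (rin π a n) := by
  intro R S h
  refine Finset.sum_le_sum fun t _ => mul_le_mul_of_nonneg_left ?_ (hπ0 t)
  exact Finset.sum_le_sum fun u _ => mul_le_mul_of_nonneg_left (ind_mono _ h) (by positivity)

include hπ0 in
lemma rin_nonneg (n : ℕ) (R : FSub F) : 0 ≤ rin π a n R :=
  Finset.sum_nonneg fun t _ => mul_nonneg (hπ0 t)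
    (Finset.sum_nonneg fun u _ => mul_nonneg (by positivity) (ind_nonneg _ _))

include hπ1 in
lemma W_rk_eq {n : ℕ} (hn : 0 < n) : W π a n rk = rk + (fun _ => 1) - rin π a n := by
  funext R
  simp only [Pi.add_apply, Pi.sub_apply]
  rw [W_apply]
  unfold rin
  have h1 : ∀ t, Wc n (l + 2) (a t) rk R
      = rk R + 1 - ∑ u : Fin (l + 2) → Fin n, (1 / (n : ℝ) ^ (l + 2)) *
        ind (∑ j, a t j • e (u j : ℕ)) R := by
    intro t
    rw [Wc_apply]
    have h2 : rk R + 1 = ∑ u : Fin (l + 2) → Fin n, (1 / (n : ℝ) ^ (l + 2)) * (rk R + 1) := by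
      rw [← Finset.sum_mul, sum_const_one hn, one_mul]
    rw [h2, ← Finset.sum_sub_distrib]
    refine Finset.sum_congr rfl fun u _ => ?_
    rw [rk_add']; ring
  simp only [h1, mul_sub, Finset.sum_sub_distrib]
  rw [← Finset.sum_mul, hπ1, one_mul]

include hπ0 hπ1 in
lemma X_pow_le_rin {n : ℕ} (hn : 0 < n) (R : FSub F) : X n R ^ (l + 2) ≤ rin π a n R := by
  have h1 := W_rk_le (a := a) hπ0 hπ1 hn R
  rw [W_rk_eq hπ1 hn] at h1
  simp only [Pi.add_apply, Pi.sub_apply] at h1
  linarith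

include hπ0 hπ1 ha in
/-- total deficiency is `o(n)` -/
theorem def_small {lam : ℝ} (h0 : 0 < lam) (hlam : lam * (l + 2) < dk (l + 2)) {ε : ℝ} (hε : 0 < ε) :
    ∃ N : ℕ, 0 < N ∧ ∀ n, N ≤ n →
      ((⌊lam * n⌋₊ + 1 : ℕ) : ℝ) - (W π a n ^ (⌊lam * n⌋₊ + 1)) rk FSub.zero ≤ ε * n := by
  have hl : (0 : ℝ) < (l : ℝ) + 2 := by positivity
  have hd : 0 < lam * (l + 2) := by positivity
  have h1 : lam ≤ 1 := by
    have := lam_le_one (l := l) hd hlam
    rwa [mul_div_assoc, div_self hl.ne', mul_one] at this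
  obtain ⟨θ, hθ, N, hN⟩ := er_asymp hπ0 hπ1 ha h0.le h1
    (fun x hx0 hx1 => gd_nonneg hd hlam hx0 hx1) (half_pos hε)
  obtain ⟨N2, hN2⟩ := exists_nat_gt (2 * (θ + 1 : ℝ) / ε)
  refine ⟨max (max N N2) 1, by positivity, fun n hn => ?_⟩
  have hnN : N ≤ n := le_trans (le_trans (le_max_left _ _) (le_max_left _ _)) hn
  have hnN2 : N2 ≤ n := le_trans (le_trans (le_max_right _ _) (le_max_left _ _)) hn
  have hn0 : 0 < n := le_trans (le_max_right _ _) hn
  have e1 := hN n hnN
  have hW := W_isMk (a := a) hπ0 hπ1 hn0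
  have e2 : er π a θ n (⌊lam * n⌋₊ + 1) ≤ (W π a n ^ (⌊lam * n⌋₊ + 1)) rk FSub.zero + θ := by
    unfold er
    show A n θ ((W π a n ^ (⌊lam * n⌋₊ + 1)) rk) FSub.zero ≤ _
    rw [A_apply]
    have hθ' : (0 : ℝ) < θ := by exact_mod_cast hθ
    have : ∀ t ∈ Finset.range θ, (1 / (θ : ℝ)) * (P n ^ t) ((W π a n ^ (⌊lam * n⌋₊ + 1)) rk) FSub.zero
        ≤ (1 / (θ : ℝ)) * ((W π a n ^ (⌊lam * n⌋₊ + 1)) rk FSub.zero + θ) := by
      intro t ht
      apply mul_le_mul_of_nonneg_left _ (by positivity)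
      have h3 := IsMk.lip_le hn0 ((W π a n ^ (⌊lam * n⌋₊ + 1)) rk)
        ((hW.pow _).lip _ rk_lip) t FSub.zero
      have h4 : (t : ℝ) ≤ θ := by exact_mod_cast (Finset.mem_range.mp ht).le
      linarith
    refine (Finset.sum_le_sum this).trans (le_of_eq ?_)
    simp only [Finset.sum_const, Finset.card_range, nsmul_eq_mul]
    field_simp
  have e3 : ((⌊lam * n⌋₊ : ℕ) : ℝ) ≤ lam * n := Nat.floor_le (by positivity)
  have e4 : (N2 : ℝ) ≤ n := by exact_mod_cast hnN2
  rw [div_lt_iff₀ hε] at hN2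
  push_cast
  nlinarith

include hπ0 hπ1 ha in
/-- a fresh row is unlikely to lie in the span; at most one pin allowed -/
theorem fresh_small {lam η : ℝ} (h0 : 0 < lam) (hη : 0 < η) (hlam : lam * (l + 2) < dk (l + 2))
    {ε : ℝ} (hε : 0 < ε) :
    ∃ N : ℕ, 0 < N ∧ ∀ n, N ≤ n → ∀ m : ℕ, (m : ℝ) ≤ (lam - η) * n →
      (W π a n ^ m) (rin π a n) FSub.zero ≤ ε ∧
      (P n * W π a n ^ m : Op F) (rin π a n) FSub.zero ≤ ε := by
  obtain ⟨N, hN0, hN⟩ := def_small hπ0 hπ1 ha h0 hlam (show 0 < ε * η / 2 by positivity)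
  obtain ⟨N2, hN2⟩ := exists_nat_gt (2 * (1 : ℝ) / (ε * η))
  refine ⟨max N N2, lt_of_lt_of_le hN0 (le_max_left _ _), fun n hn m hm => ?_⟩
  have hnN : N ≤ n := (le_max_left _ _).trans hn
  have hnN2 : N2 ≤ n := (le_max_right _ _).trans hn
  have hn0 : 0 < n := lt_of_lt_of_le hN0 hnN
  have hn' : (0 : ℝ) < n := by exact_mod_cast hn0
  have e1 := hN n hnN
  set M := ⌊lam * n⌋₊ + 1 with hM
  have hMn : lam * n < M := by rw [hM]; push_cast; exact Nat.lt_floor_add_one _
  have hmM : (m : ℝ) + η * n ≤ M := by nlinarith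
  have hmM' : m ≤ M := by
    have : (m : ℝ) ≤ M := by nlinarith [mul_pos hη hn']
    exact_mod_cast this
  have hW := W_isMk (a := a) hπ0 hπ1 hn0
  have hP := P_isMk (F := F) hn0
  have e4 : (N2 : ℝ) ≤ n := by exact_mod_cast hnN2
  rw [div_lt_iff₀ (by positivity)] at hN2
  -- general statement for a Markov operator Q
  have key : ∀ Q : Op F, IsMk Q → Q rk FSub.zero ≤ 1 →
      (Q * W π a n ^ m : Op F) (rin π a n) FSub.zero ≤ ε := by
    intro Q hQ hQ1
    -- telescoping
    have t1 : ∀ i : ℕ, (Q * W π a n ^ (m + i) : Op F) rk FSub.zero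
        ≤ (Q * W π a n ^ m : Op F) rk FSub.zero
          + i * (1 - (Q * W π a n ^ m : Op F) (rin π a n) FSub.zero) := by
      intro i
      induction i with
      | zero => simp
      | succ i ih =>
        have s1 : (Q * W π a n ^ (m + (i + 1)) : Op F) rk FSub.zero
            = (Q * W π a n ^ (m + i) : Op F) rk FSub.zero + 1
              - (Q * W π a n ^ (m + i) : Op F) (rin π a n) FSub.zero := by
          rw [← add_assoc, pow_succ (W π a n) (m + i), ← mul_assoc]
          show (Q * W π a n ^ (m + i) : Op F) (W π a n rk) FSub.zero = _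
          rw [W_rk_eq hπ1 hn0, map_sub, map_add, (hQ.mul (hW.pow _)).one]
          rfl
        have s2 : (Q * W π a n ^ m : Op F) (rin π a n) FSub.zero
            ≤ (Q * W π a n ^ (m + i) : Op F) (rin π a n) FSub.zero := by
          rw [pow_add, ← mul_assoc]
          exact (hQ.mul (hW.pow m)).pos _ _ (fun S => (hW.pow i).ge _ (rin_mono hπ0 n) S) _
        rw [s1]
        push_cast
        linarith
    have t2 : (Q * W π a n ^ m : Op F) rk FSub.zero ≤ m + 1 := by
      have : ∀ i : ℕ, (Q * W π a n ^ i : Op F) rk FSub.zero ≤ i + 1 := by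
        intro i
        induction i with
        | zero => simpa using hQ1
        | succ i ih =>
          have s1 : (Q * W π a n ^ (i + 1) : Op F) rk FSub.zero
              = (Q * W π a n ^ i : Op F) rk FSub.zero + 1
                - (Q * W π a n ^ i : Op F) (rin π a n) FSub.zero := by
            rw [pow_succ (W π a n) i, ← mul_assoc]
            show (Q * W π a n ^ i : Op F) (W π a n rk) FSub.zero = _
            rw [W_rk_eq hπ1 hn0, map_sub, map_add, (hQ.mul (hW.pow _)).one]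
            rfl
          have s2 : 0 ≤ (Q * W π a n ^ i : Op F) (rin π a n) FSub.zero := by
            have := (hQ.mul (hW.pow i)).pos (fun _ => 0) (rin π a n) (fun S => rin_nonneg hπ0 n S) FSub.zero
            rwa [(hQ.mul (hW.pow i)).one] at this
          rw [s1]; push_cast; linarith
      exact this m
    have t3 : (W π a n ^ M) rk FSub.zero ≤ (Q * W π a n ^ M : Op F) rk FSub.zero :=
      hQ.ge _ ((hW.pow M).mono _ rk_mono) _
    have t4 := t1 (M - m)
    rw [Nat.add_sub_cancel' hmM'] at t4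
    rw [Nat.cast_sub hmM'] at t4
    set r := (Q * W π a n ^ m : Op F) (rin π a n) FSub.zero with hr
    have hr0 : 0 ≤ r := by
      have := (hQ.mul (hW.pow m)).pos (fun _ => 0) (rin π a n) (fun S => rin_nonneg hπ0 n S) FSub.zero
      rwa [(hQ.mul (hW.pow m)).one] at this
    -- r * (M - m) ≤ ε η n / 2 + 1
    have t5 : r * ((M : ℝ) - m) ≤ ε * η / 2 * n + 1 := by nlinarith
    have t6 : r * (η * n) ≤ r * ((M : ℝ) - m) := mul_le_mul_of_nonneg_left (by linarith) hr0
    have t7 : r * (η * n) ≤ ε * (η * n) := by nlinarith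
    exact le_of_mul_le_mul_right t7 (by positivity)
  constructor
  · have := key 1 IsMk.id (by simp [rk_zero])
    rwa [one_mul] at this
  · apply key (P n) hP
    have := IsMk.lip_le hn0 rk rk_lip 1 (FSub.zero : FSub F)
    rw [pow_one, rk_zero] at this
    simpa using this

include hπ0 hπ1 ha in
/-- few variables are frozen, even after adding one pin -/
theorem frozen_small {lam η : ℝ} (h0 : 0 < lam) (hη : 0 < η) (hlam : lam * (l + 2) < dk (l + 2))
    {ε : ℝ} (hε : 0 < ε) :
    ∃ N : ℕ, 0 < N ∧ ∀ n, N ≤ n → ∀ m : ℕ, (m : ℝ) ≤ (lam - η) * n →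
      (P n * W π a n ^ m : Op F) (X n) FSub.zero ≤ ε := by
  set t : ℝ := min (ε / 2) 1 with ht
  have ht0 : 0 < t := by positivity
  have ht1 : t ≤ ε / 2 := min_le_left _ _
  obtain ⟨N, hN0, hN⟩ := fresh_small hπ0 hπ1 ha h0 hη hlam
    (show 0 < ε / 2 * t ^ (l + 1) by positivity)
  refine ⟨N, hN0, fun n hn m hm => ?_⟩
  have hn0 : 0 < n := lt_of_lt_of_le hN0 hn
  have h1 := (hN n hn m hm).2
  have hW := W_isMk (a := a) hπ0 hπ1 hn0
  have hP := P_isMk (F := F) hn0
  have hQ := hP.mul (hW.pow m)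
  have h2 : ∀ R : FSub F, X n R ≤ (((1 / t ^ (l + 1)) • rin π a n + fun _ => t) : Fn F) R := by
    intro R
    have hx0 := X_nonneg (F := F) n R
    have hr := X_pow_le_rin (a := a) hπ0 hπ1 hn0 R
    have hr0 := rin_nonneg (a := a) hπ0 n R
    simp only [Pi.add_apply, Pi.smul_apply, smul_eq_mul]
    rcases le_total (X n R) t with h | h
    · have : 0 ≤ 1 / t ^ (l + 1) * rin π a n R := by positivity
      linarith
    · have h3 : t ^ (l + 1) ≤ X n R ^ (l + 1) := pow_le_pow_left₀ ht0.le h _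
      have h4 : X n R * t ^ (l + 1) ≤ X n R ^ (l + 2) := by
        rw [pow_succ' (X n R) (l + 1)]
        exact mul_le_mul_of_nonneg_left h3 hx0
      have h5 : X n R ≤ 1 / t ^ (l + 1) * rin π a n R := by
        rw [one_div, inv_mul_eq_div, le_div_iff₀ (by positivity)]
        linarith
      linarith
  have h3 := hQ.pos _ _ h2 FSub.zero
  rw [map_add, map_smul, hQ.one] at h3
  simp only [Pi.add_apply, Pi.smul_apply, smul_eq_mul] at h3
  have h4 : 1 / t ^ (l + 1) * (P n * W π a n ^ m : Op F) (rin π a n) FSub.zero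
      ≤ 1 / t ^ (l + 1) * (ε / 2 * t ^ (l + 1)) :=
    mul_le_mul_of_nonneg_left h1 (by positivity)
  have h5 : 1 / t ^ (l + 1) * (ε / 2 * t ^ (l + 1)) = ε / 2 := by
    field_simp
  linarith

end rows

end Pool.Agent.H519_UE
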